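import Mathlib

set_option autoImplicit false

/-!
A group of nilpotency class three attached to a cubic tensor `t` modulo 3.
-/

namespace Pool.Agent.H247R3

variable {d m : ℕ}

/-- triples `(v, u, s)` -/
@[ext] structure HH {d m : ℕ} (t : Fin m → Fin d → Fin d → Fin d → ZMod 3) where
  v : Fin d → ℤ
  u : Fin d → Fin d → ℤ
  s : Fin m → ZMod 3

variable {t : Fin m → Fin d → Fin d → Fin d → ZMod 3}

namespace HH

/-- `(u ∧ y)_{ijk}` plus the cubic correction -/
def ph (xv : Fin d → ℤ) (xu : Fin d → Fin d → ℤ) (yv : Fin d → ℤ) (i j k : Fin d) : ZMod 3 :=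
  (xu i j : ZMod 3) * yv k - xu i k * yv j + xu j k * yv i
    + (xv k * yv i * yv j - xv j * xv k * yv i - xv j * yv i * yv k)

/-- the cocycle -/
def co (t : Fin m → Fin d → Fin d → Fin d → ZMod 3) (xv : Fin d → ℤ) (xu : Fin d → Fin d → ℤ)
    (yv : Fin d → ℤ) (l : Fin m) : ZMod 3 :=
  ∑ i, ∑ j, ∑ k, t l i j k * ph xv xu yv i j k

instance : Mul (HH t) := ⟨fun x y =>
  ⟨fun i => x.v i + y.v i, fun i j => x.u i j + y.u i j - x.v j * y.v i,
    fun l => x.s l + y.s l + co t x.v x.u y.v l⟩⟩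

instance : One (HH t) := ⟨⟨fun _ => 0, fun _ _ => 0, fun _ => 0⟩⟩

instance : Inv (HH t) := ⟨fun x =>
  ⟨fun i => - x.v i, fun i j => - x.u i j - x.v i * x.v j,
    fun l => - x.s l - co t (fun i => - x.v i) (fun i j => - x.u i j - x.v i * x.v j) x.v l⟩⟩

@[simp] lemma mul_v (x y : HH t) (i : Fin d) : (x * y).v i = x.v i + y.v i := rfl
@[simp] lemma mul_u (x y : HH t) (i j : Fin d) :
    (x * y).u i j = x.u i j + y.u i j - x.v j * y.v i := rfl
lemma mul_s (x y : HH t) (l : Fin m) : (x * y).s l = x.s l + y.s l + co t x.v x.u y.v l := rfl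
@[simp] lemma one_v (i : Fin d) : (1 : HH t).v i = 0 := rfl
@[simp] lemma one_u (i j : Fin d) : (1 : HH t).u i j = 0 := rfl
@[simp] lemma one_s (l : Fin m) : (1 : HH t).s l = 0 := rfl
@[simp] lemma inv_v (x : HH t) (i : Fin d) : (x⁻¹).v i = - x.v i := rfl
@[simp] lemma inv_u (x : HH t) (i j : Fin d) :
    (x⁻¹).u i j = - x.u i j - x.v i * x.v j := rfl
lemma inv_s (x : HH t) (l : Fin m) : (x⁻¹).s l = - x.s l - co t (x⁻¹).v (x⁻¹).u x.v l := rfl

lemma three : (3 : ZMod 3) = 0 := by decide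

lemma co_congr {t' : Fin m → Fin d → Fin d → Fin d → ZMod 3} {l : Fin m}
    {f g : Fin d → Fin d → Fin d → ZMod 3}
    (h : ∀ i j k, t' l i j k ≠ 0 → f i j k = g i j k) :
    (∑ i, ∑ j, ∑ k, t' l i j k * f i j k) = ∑ i, ∑ j, ∑ k, t' l i j k * g i j k := by
  refine Finset.sum_congr rfl fun i _ => Finset.sum_congr rfl fun j _ =>
    Finset.sum_congr rfl fun k _ => ?_
  by_cases h0 : t' l i j k = 0
  · rw [h0, zero_mul, zero_mul]
  · rw [h i j k h0]

/-- the trilinear pairing `Σ t_{ijk} f_{ijk}` -/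
def pr (t : Fin m → Fin d → Fin d → Fin d → ZMod 3) (l : Fin m)
    (f : Fin d → Fin d → Fin d → ZMod 3) : ZMod 3 := ∑ i, ∑ j, ∑ k, t l i j k * f i j k

lemma pr_add (l : Fin m) (f g : Fin d → Fin d → Fin d → ZMod 3) :
    pr t l (fun i j k => f i j k + g i j k) = pr t l f + pr t l g := by
  unfold pr
  simp only [mul_add, Finset.sum_add_distrib]

lemma pr_neg (l : Fin m) (f : Fin d → Fin d → Fin d → ZMod 3) :
    pr t l (fun i j k => - f i j k) = - pr t l f := by
  unfold pr
  simp only [mul_neg, Finset.sum_neg_distrib]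

lemma pr_sub (l : Fin m) (f g : Fin d → Fin d → Fin d → ZMod 3) :
    pr t l (fun i j k => f i j k - g i j k) = pr t l f - pr t l g := by
  unfold pr
  simp only [mul_sub, Finset.sum_sub_distrib]

lemma pr_congr {l : Fin m} {f g : Fin d → Fin d → Fin d → ZMod 3}
    (h : ∀ i j k, t l i j k ≠ 0 → f i j k = g i j k) : pr t l f = pr t l g := co_congr h

lemma pr_zero {l : Fin m} {f : Fin d → Fin d → Fin d → ZMod 3}
    (h : ∀ i j k, t l i j k ≠ 0 → f i j k = 0) : pr t l f = 0 := by
  rw [pr_congr (g := fun _ _ _ => 0) h]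
  unfold pr
  simp

lemma co_eq (xv : Fin d → ℤ) (xu : Fin d → Fin d → ℤ) (yv : Fin d → ℤ) (l : Fin m) :
    co t xv xu yv l = pr t l (ph xv xu yv) := rfl

lemma ph_assoc (x y z : HH t) (i j k : Fin d) :
    ph x.v x.u y.v i j k + ph (x * y).v (x * y).u z.v i j k =
      ph y.v y.u z.v i j k + ph x.v x.u (y * z).v i j k := by
  unfold ph
  simp only [mul_v, mul_u]
  push_cast
  linear_combination (-(x.v k : ZMod 3) * y.v j * z.v i) * three

instance : Group (HH t) := by
  refine Group.ofLeftAxioms ?_ ?_ ?_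
  · intro x y z
    apply HH.ext
    · funext i; simp only [mul_v]; ring
    · funext i j; simp only [mul_u, mul_v]; ring
    · funext l
      simp only [mul_s, co_eq]
      have h := pr_congr (t := t) (l := l) (fun i j k _ => ph_assoc x y z i j k)
      rw [pr_add, pr_add] at h
      linear_combination h
  · intro x
    apply HH.ext
    · funext i; simp
    · funext i j; simp
    · funext l
      rw [mul_s, co_eq, pr_zero]
      · simp
      · intro i j k _
        unfold ph
        simp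
  · intro x
    apply HH.ext
    · funext i; simp
    · funext i j; simp; ring
    · funext l
      rw [mul_s, inv_s, one_s]
      ring

end HH

end Pool.Agent.H247R3
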