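import Pool.Agent.H247R3.Eng1

set_option autoImplicit false

namespace Pool.Agent.H247R3

open HH

variable {d m : ℕ} {t : Fin m → Fin d → Fin d → Fin d → ZMod 3}

namespace HH

/-- `F_l(u, y) = Σ t (u ∧ y)` -/
def wd (u : Fin d → Fin d → ZMod 3) (y : Fin d → ZMod 3) (i j k : Fin d) : ZMod 3 :=
  u i j * y k - u i k * y j + u j k * y i

lemma cube_v (x : HH t) (i : Fin d) : (x ^ 3).v i = 3 * x.v i := by
  rw [pow_three]; simp only [mul_v]; ring

lemma cube_u (x : HH t) (i j : Fin d) : (x ^ 3).u i j = 3 * (x.u i j - x.v i * x.v j) := by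
  rw [pow_three]; simp only [mul_v, mul_u]; ring

lemma cube_s (x : HH t) (l : Fin m) : (x ^ 3).s l = 0 := by
  rw [pow_three, mul_s, mul_s, co_eq, co_eq]
  have h : pr t l (ph x.v x.u x.v) + pr t l (ph x.v x.u (x * x).v) = 0 := by
    rw [← pr_add]
    apply pr_zero
    intro i j k _
    unfold ph
    simp only [mul_v]
    push_cast
    linear_combination (((x.u i j : ZMod 3) * x.v k - x.u i k * x.v j + x.u j k * x.v i)
      - x.v i * x.v j * x.v k) * three
  linear_combination h + x.s l * three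

/-- an element with vanishing first coordinate -/
def io (t : Fin m → Fin d → Fin d → Fin d → ZMod 3) (u : Fin d → Fin d → ℤ) (s : Fin m → ZMod 3) :
    HH t := ⟨fun _ => 0, u, s⟩

lemma mul_io_s (x : HH t) (u : Fin d → Fin d → ℤ) (s : Fin m → ZMod 3) (l : Fin m) :
    (x * io t u s).s l = x.s l + s l := by
  rw [mul_s, co_eq, pr_zero]
  · simp [io]
  · intro i j k _
    simp [ph, io]

/-- multiplication by an element with first coordinate divisible by 3, on the right -/
lemma mul_s_of_dvd (x y : HH t) (hy : ∀ i, (y.v i : ZMod 3) = 0) (l : Fin m) :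
    (x * y).s l = x.s l + y.s l := by
  rw [mul_s, co_eq, pr_zero]
  · simp
  · intro i j k _
    simp [ph, hy]

lemma mul_s_of_dvd_left (x y : HH t) (hx : ∀ i, (x.v i : ZMod 3) = 0) (l : Fin m) :
    (x * y).s l = x.s l + y.s l +
      pr t l (wd (fun i j => (x.u i j : ZMod 3)) (fun i => (y.v i : ZMod 3))) := by
  rw [mul_s, co_eq]
  congr 1
  apply pr_congr
  intro i j k _
  simp [ph, wd, hx]

lemma comm_v (x y : HH t) (i : Fin d) : (x * y * x⁻¹ * y⁻¹).v i = 0 := by
  simp only [mul_v, inv_v]; ring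

lemma comm_u (x y : HH t) (i j : Fin d) :
    (x * y * x⁻¹ * y⁻¹).u i j = x.v i * y.v j - x.v j * y.v i := by
  simp only [mul_v, mul_u, inv_v, inv_u]; ring

lemma comm_s (x y : HH t) (l : Fin m) :
    (x * y * x⁻¹ * y⁻¹).s l = pr t l (ph x.v x.u y.v) - pr t l (ph y.v y.u x.v) := by
  set c := x * y * x⁻¹ * y⁻¹ with hc
  have h1 : c * (y * x) = x * y := by rw [hc]; group
  have hcv : ∀ i, (c.v i : ZMod 3) = 0 := by
    intro i; rw [hc, comm_v]; simp
  have h2 : (c * (y * x)).s l = (x * y).s l := by rw [h1]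
  have e1 : (y * x).s l = y.s l + x.s l + pr t l (ph y.v y.u x.v) := rfl
  have e2 : (x * y).s l = x.s l + y.s l + pr t l (ph x.v x.u y.v) := rfl
  rw [mul_s_of_dvd_left c (y * x) hcv, e1, e2] at h2
  have h3 : pr t l (wd (fun i j => (c.u i j : ZMod 3)) (fun i => ((y * x).v i : ZMod 3))) = 0 := by
    apply pr_zero
    intro i j k _
    simp only [wd, hc, comm_u, mul_v]
    push_cast
    ring
  linear_combination h2 - h3

/-- elements with `v = 0`, `u ≡ 0` are central -/
lemma central_of {z : HH t} (hv : ∀ i, z.v i = 0)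
    (hu : ∀ i j, i < j → (z.u i j : ZMod 3) = 0)
    (ht : ∀ l i j k, t l i j k ≠ 0 → i < j ∧ j < k) (x : HH t) : z * x = x * z := by
  apply HH.ext
  · funext i; simp [hv]
  · funext i j; simp [hv]; ring
  · funext l
    rw [mul_s_of_dvd_left z x (by intro i; simp [hv]), mul_s_of_dvd x z (by intro i; simp [hv]),
      pr_zero]
    · ring
    · intro i j k h
      obtain ⟨h1, h2⟩ := ht l i j k h
      simp [wd, hu i j h1, hu i k (h1.trans h2), hu j k h2]

lemma conj_v (g n : HH t) (i : Fin d) : (g * n * g⁻¹).v i = n.v i := by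
  simp only [mul_v, inv_v]; ring

lemma conj_u (g n : HH t) (i j : Fin d) :
    (g * n * g⁻¹).u i j = n.u i j + (g.v i * n.v j - g.v j * n.v i) := by
  simp only [mul_v, mul_u, inv_v, inv_u]; ring

lemma conj_s (g n : HH t) (hn : ∀ i, (n.v i : ZMod 3) = 0) (l : Fin m) :
    (g * n * g⁻¹).s l = n.s l -
      pr t l (wd (fun i j => (n.u i j : ZMod 3)) (fun i => (g.v i : ZMod 3))) := by
  set c := g * n * g⁻¹ with hc
  have h1 : c * g = g * n := by rw [hc]; group
  have hcv : ∀ i, (c.v i : ZMod 3) = 0 := by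
    intro i; rw [hc, conj_v, hn]
  have h2 : (c * g).s l = (g * n).s l := by rw [h1]
  rw [mul_s_of_dvd_left c g hcv, mul_s_of_dvd g n hn] at h2
  have h3 : pr t l (wd (fun i j => (c.u i j : ZMod 3)) (fun i => (g.v i : ZMod 3)))
      = pr t l (wd (fun i j => (n.u i j : ZMod 3)) (fun i => (g.v i : ZMod 3))) := by
    apply pr_congr
    intro i j k _
    simp only [wd, hc, conj_u]
    push_cast
    simp [hn]
  linear_combination h2 - h3

end HH

end Pool.Agent.H247R3
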