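import Pool.Agent.H247R3.Eng2

set_option autoImplicit false

namespace Pool.Agent.H247R3

open HH

variable {d m : ℕ}

namespace HH

variable {t : Fin m → Fin d → Fin d → Fin d → ZMod 3}

/-- the bilinear form `F_l(u, y)` -/
def F (t : Fin m → Fin d → Fin d → Fin d → ZMod 3) (l : Fin m) :
    (Fin d → Fin d → ZMod 3) →ₗ[ZMod 3] (Fin d → ZMod 3) →ₗ[ZMod 3] ZMod 3 :=
  LinearMap.mk₂ (ZMod 3) (fun u y => pr t l (wd u y))
    (by
      intro u u' y
      rw [← pr_add]
      apply pr_congr
      intro i j k _
      simp only [wd, Pi.add_apply]; ring)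
    (by
      intro c u y
      unfold pr
      simp only [smul_eq_mul, Finset.mul_sum]
      refine Finset.sum_congr rfl fun i _ => Finset.sum_congr rfl fun j _ =>
        Finset.sum_congr rfl fun k _ => ?_
      simp only [wd, Pi.smul_apply, smul_eq_mul]; ring)
    (by
      intro u y y'
      rw [← pr_add]
      apply pr_congr
      intro i j k _
      simp only [wd, Pi.add_apply]; ring)
    (by
      intro c u y
      unfold pr
      simp only [smul_eq_mul, Finset.mul_sum]
      refine Finset.sum_congr rfl fun i _ => Finset.sum_congr rfl fun j _ =>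
        Finset.sum_congr rfl fun k _ => ?_
      simp only [wd, Pi.smul_apply, smul_eq_mul]; ring)

lemma F_apply (l : Fin m) (u : Fin d → Fin d → ZMod 3) (y : Fin d → ZMod 3) :
    F t l u y = pr t l (wd u y) := rfl

end HH

/-- the sum of `e_a ∧ e_b` over a list of pairs -/
def W (wl : Fin d → List (Fin d × Fin d)) (i p q : Fin d) : ℤ :=
  ((wl i).map fun e => (if p = e.1 then 1 else 0) * (if q = e.2 then 1 else 0)
    - (if q = e.1 then 1 else 0) * (if p = e.2 then (1 : ℤ) else 0)).sum

/-- the unit vector -/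
def un (i : Fin d) : Fin d → ZMod 3 := Pi.single i 1

/-- the combinatorial data -/
structure Dat (d m : ℕ) where
  t : Fin m → Fin d → Fin d → Fin d → ZMod 3
  k : Fin m → Fin d → Fin d → ZMod 3
  wl : Fin d → List (Fin d × Fin d)
  ht : ∀ l i j r, t l i j r ≠ 0 → i < j ∧ j < r
  hk : ∀ l i j, k l i j ≠ 0 → i < j
  hK : ∀ l i j, F t l (fun p q => (W wl i p q : ZMod 3)) (un j) = k l i j - k l j i

variable (D : Dat d m)

/-- the linear form `κ_l` -/
def Dat.kap (l : Fin m) (b : Fin d → Fin d → ZMod 3) : ZMod 3 := ∑ i, ∑ j, D.k l i j * b i j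

lemma Dat.kap_add (l : Fin m) (b b' : Fin d → Fin d → ZMod 3) :
    D.kap l (fun i j => b i j + b' i j) = D.kap l b + D.kap l b' := by
  unfold Dat.kap
  simp only [mul_add, Finset.sum_add_distrib]

lemma Dat.kap_neg (l : Fin m) (b : Fin d → Fin d → ZMod 3) :
    D.kap l (fun i j => - b i j) = - D.kap l b := by
  unfold Dat.kap
  simp only [mul_neg, Finset.sum_neg_distrib]

lemma Dat.kap_congr {l : Fin m} {b b' : Fin d → Fin d → ZMod 3}
    (h : ∀ i j, i < j → b i j = b' i j) : D.kap l b = D.kap l b' := by
  unfold Dat.kap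
  refine Finset.sum_congr rfl fun i _ => Finset.sum_congr rfl fun j _ => ?_
  by_cases h0 : D.k l i j = 0
  · rw [h0, zero_mul, zero_mul]
  · rw [h i j (D.hk l i j h0)]

lemma Dat.kap_wedge (l : Fin m) (a g : Fin d → ZMod 3) :
    F D.t l (fun i j => ∑ q, a q * (W D.wl q i j : ZMod 3)) g
      = D.kap l (fun i j => a i * g j - a j * g i) := by
  have h1 : (fun i j => ∑ q, a q * (W D.wl q i j : ZMod 3))
      = ∑ q, a q • (fun i j => (W D.wl q i j : ZMod 3)) := by
    funext i j
    simp only [Finset.sum_apply, Pi.smul_apply, smul_eq_mul]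
  have h2 : g = ∑ r, g r • un r := by
    funext i
    simp only [Finset.sum_apply, Pi.smul_apply, smul_eq_mul, un]
    rw [Finset.sum_eq_single i]
    · simp
    · intro b _ hb
      rw [Pi.single_eq_of_ne (Ne.symm hb)]; simp
    · simp
  have h3 : F D.t l (∑ q, a q • (fun i j => (W D.wl q i j : ZMod 3))) g =
      ∑ q, ∑ r, a q * (g r * (D.k l q r - D.k l r q)) := by
    conv_lhs => rw [h2]
    simp only [map_sum, map_smul, LinearMap.sum_apply, LinearMap.smul_apply, smul_eq_mul, D.hK]
    rw [Finset.sum_comm]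
    refine Finset.sum_congr rfl fun q _ => ?_
    rw [Finset.mul_sum]
    refine Finset.sum_congr rfl fun r _ => ?_
    ring
  rw [h1, h3]
  unfold Dat.kap
  have h4 : ∀ q r, a q * (g r * (D.k l q r - D.k l r q))
      = D.k l q r * (a q * g r) - D.k l r q * (a q * g r) := fun q r => by ring
  have h5 : ∀ q r, D.k l q r * (a q * g r - a r * g q)
      = D.k l q r * (a q * g r) - D.k l q r * (a r * g q) := fun q r => by ring
  simp only [h4, h5, Finset.sum_sub_distrib]
  congr 1
  rw [Finset.sum_comm]

/-- the normal subgroup -/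
def Dat.N : Subgroup (HH D.t) where
  carrier := {x | ∃ (a : Fin d → ℤ) (b : Fin d → Fin d → ℤ), (∀ i, x.v i = 3 * a i) ∧
    (∀ i j, i < j → x.u i j = 3 * b i j - ∑ q, a q * W D.wl q i j) ∧
    (∀ l, x.s l = - D.kap l (fun i j => (b i j : ZMod 3)))}
  mul_mem' := by
    rintro x y ⟨a, b, h1, h2, h3⟩ ⟨a', b', h1', h2', h3'⟩
    refine ⟨fun i => a i + a' i, fun i j => b i j + b' i j - 3 * (a j * a' i), ?_, ?_, ?_⟩
    · intro i; simp only [mul_v, h1, h1']; ring
    · intro i j hij
      simp only [mul_u, h1, h1', h2 i j hij, h2' i j hij, add_mul, Finset.sum_add_distrib]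
      ring
    · intro l
      rw [mul_s_of_dvd x y (by intro i; rw [h1']; push_cast; rw [three, zero_mul]), h3, h3',
        ← neg_add, ← D.kap_add]
      congr 1
      apply D.kap_congr
      intro i j _
      push_cast
      rw [three]; ring
  one_mem' := by
    refine ⟨0, 0, ?_, ?_, ?_⟩
    · intro i; simp
    · intro i j _; simp
    · intro l; simp [Dat.kap]
  inv_mem' := by
    rintro x ⟨a, b, h1, h2, h3⟩
    refine ⟨fun i => - a i, fun i j => - b i j - 3 * (a i * a j), ?_, ?_, ?_⟩
    · intro i; simp only [inv_v, h1]; ring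
    · intro i j hij
      simp only [inv_u, h1, h2 i j hij, neg_mul, Finset.sum_neg_distrib]
      ring
    · intro l
      have h4 : (x * x⁻¹).s l = 0 := by rw [mul_inv_cancel]; rfl
      rw [mul_s_of_dvd x x⁻¹ (by intro i; rw [inv_v, h1]; push_cast; rw [three]; ring), h3] at h4
      have h5 : D.kap l (fun i j => ((- b i j - 3 * (a i * a j) : ℤ) : ZMod 3))
          = - D.kap l (fun i j => (b i j : ZMod 3)) := by
        rw [← D.kap_neg]
        apply D.kap_congr
        intro i j _
        push_cast
        rw [three]; ring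
      rw [h5]
      linear_combination h4

instance : D.N.Normal where
  conj_mem := by
    rintro n ⟨a, b, h1, h2, h3⟩ g
    refine ⟨a, fun i j => b i j + (g.v i * a j - g.v j * a i), ?_, ?_, ?_⟩
    · intro i; rw [conj_v, h1]
    · intro i j hij
      rw [conj_u, h2 i j hij, h1, h1]
      ring
    · intro l
      rw [conj_s g n (by intro i; rw [h1]; push_cast; rw [three, zero_mul]), h3]
      have h4 : pr D.t l (wd (fun i j => (n.u i j : ZMod 3)) (fun i => (g.v i : ZMod 3)))
          = - D.kap l (fun i j => (a i : ZMod 3) * g.v j - a j * g.v i) := by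
        rw [← D.kap_wedge, F_apply, ← pr_neg]
        apply pr_congr
        intro i j k hne
        obtain ⟨hij, hjk⟩ := D.ht l i j k hne
        simp only [wd, h2 i j hij, h2 j k hjk, h2 i k (hij.trans hjk)]
        push_cast
        rw [three]
        ring
      rw [h4, sub_neg_eq_add, ← D.kap_neg, ← D.kap_neg, ← D.kap_add]
      apply D.kap_congr
      intro i j _
      push_cast
      ring

/-- the group -/
abbrev Dat.Q : Type := HH D.t ⧸ D.N

end Pool.Agent.H247R3
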