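import Pool.Agent.H247R3.Eng3

set_option autoImplicit false

namespace Pool.Agent.H247R3

set_option linter.all false

open HH
open scoped commutatorElement

variable {d m : ℕ} (D : Dat d m)

lemma Dat.finite_Q : Finite D.Q := by
  let f : (Fin d → ZMod 3) × (Fin d → Fin d → ZMod 3) × (Fin m → ZMod 3) → D.Q :=
    fun p => QuotientGroup.mk ⟨fun i => ((p.1 i).val : ℤ), fun i j => ((p.2.1 i j).val : ℤ), p.2.2⟩
  apply Finite.of_surjective f
  intro g
  obtain ⟨x, rfl⟩ := QuotientGroup.mk_surjective g
  let e : Fin d → Fin d → ℤ := fun i j =>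
    x.u i j + 3 * (x.v j * (x.v i / 3)) + ∑ q, (x.v q / 3) * W D.wl q i j
  let yv : Fin d → ℤ := fun i => x.v i % 3
  let y : HH D.t := ⟨yv, fun i j => if i < j then e i j % 3 else 0,
    fun l => - D.kap l (fun i j => ((- (e i j / 3) : ℤ) : ZMod 3)) - (x⁻¹).s l
      - co D.t (x⁻¹).v (x⁻¹).u yv l⟩
  refine ⟨(fun i => (x.v i : ZMod 3), fun i j => if i < j then (e i j : ZMod 3) else 0, y.s), ?_⟩
  have hy : (⟨fun i => (((x.v i : ZMod 3)).val : ℤ),
      fun i j => ((if i < j then (e i j : ZMod 3) else 0 : ZMod 3).val : ℤ), y.s⟩ : HH D.t) = y := by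
    apply HH.ext
    · funext i
      show (((x.v i : ZMod 3)).val : ℤ) = x.v i % 3
      rw [ZMod.val_intCast]; rfl
    · funext i j
      show ((if i < j then (e i j : ZMod 3) else 0 : ZMod 3).val : ℤ)
        = if i < j then e i j % 3 else 0
      split_ifs
      · rw [ZMod.val_intCast]; rfl
      · simp
    · rfl
  show QuotientGroup.mk (⟨fun i => (((x.v i : ZMod 3)).val : ℤ),
      fun i j => ((if i < j then (e i j : ZMod 3) else 0 : ZMod 3).val : ℤ), y.s⟩ : HH D.t)
      = (QuotientGroup.mk x : D.Q)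
  rw [hy]
  apply Eq.symm
  rw [QuotientGroup.eq]
  refine ⟨fun i => - (x.v i / 3), fun i j => - (e i j / 3), ?_, ?_, ?_⟩
  · intro i
    show - x.v i + x.v i % 3 = _
    have := Int.emod_add_mul_ediv (x.v i) 3
    linarith
  · intro i j hij
    show (- x.u i j - x.v i * x.v j) + (if i < j then e i j % 3 else 0)
      - (- x.v j) * (x.v i % 3) = _
    rw [if_pos hij]
    have h1 := Int.emod_add_mul_ediv (x.v i) 3
    have h2 := Int.emod_add_mul_ediv (e i j) 3
    have h3 : e i j = x.u i j + 3 * (x.v j * (x.v i / 3)) + ∑ q, (x.v q / 3) * W D.wl q i j := rfl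
    have h4 : ∑ q, - (x.v q / 3) * W D.wl q i j = - ∑ q, (x.v q / 3) * W D.wl q i j := by
      rw [← Finset.sum_neg_distrib]
      exact Finset.sum_congr rfl fun q _ => by ring
    rw [h4]
    linear_combination h2 - h3 + x.v j * h1
  · intro l
    rw [mul_s]
    show (x⁻¹).s l + (- D.kap l (fun i j => ((- (e i j / 3) : ℤ) : ZMod 3)) - (x⁻¹).s l
      - co D.t (x⁻¹).v (x⁻¹).u yv l) + co D.t (x⁻¹).v (x⁻¹).u yv l = _
    ring

lemma Dat.isPGroup_Q : IsPGroup 3 D.Q := by
  intro g
  obtain ⟨x, rfl⟩ := QuotientGroup.mk_surjective g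
  refine ⟨3, ?_⟩
  have h0 : (3 : ℕ) ^ 3 = 3 * 3 * 3 := by norm_num
  rw [h0, pow_mul, pow_mul]
  have h1 : (((QuotientGroup.mk x : D.Q) ^ 3) ^ 3) ^ 3 = QuotientGroup.mk (((x ^ 3) ^ 3) ^ 3) := by
    rfl
  rw [h1, QuotientGroup.eq_one_iff]
  refine ⟨fun i => 9 * x.v i, fun i j => ((x ^ 3) ^ 3).u i j - 81 * (x.v i * x.v j)
      + 3 * ∑ q, x.v q * W D.wl q i j, ?_, ?_, ?_⟩
  · intro i; rw [cube_v, cube_v, cube_v]; ring
  · intro i j _
    rw [cube_u ((x ^ 3) ^ 3), cube_v, cube_v, cube_v, cube_v]
    have h4 : ∑ q, 9 * x.v q * W D.wl q i j = 9 * ∑ q, x.v q * W D.wl q i j := by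
      rw [Finset.mul_sum]
      exact Finset.sum_congr rfl fun q _ => by ring
    rw [h4]; ring
  · intro l
    rw [cube_s]
    have h5 : D.kap l (fun i j => ((((x ^ 3) ^ 3).u i j - 81 * (x.v i * x.v j)
      + 3 * ∑ q, x.v q * W D.wl q i j : ℤ) : ZMod 3)) = D.kap l (fun _ _ => 0) := by
      apply D.kap_congr
      intro i j _
      rw [cube_u]
      have h81 : (81 : ZMod 3) = 0 := by decide
      push_cast
      rw [three, h81]; ring
    rw [h5]
    simp [Dat.kap]

lemma engel_HH {t : Fin m → Fin d → Fin d → Fin d → ZMod 3} (x y : HH t) :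
    (y * x * y⁻¹ * x⁻¹) * x * (y * x * y⁻¹ * x⁻¹)⁻¹ * x⁻¹ = 1 := by
  set c := y * x * y⁻¹ * x⁻¹ with hc
  have h : c * x = x * c := by
    apply HH.ext
    · funext i; simp only [mul_v]; ring
    · funext i j
      simp only [mul_u, hc, comm_v, comm_u]; ring
    · funext l
      rw [mul_s_of_dvd_left c x (by intro i; rw [hc, comm_v]; simp),
        mul_s_of_dvd x c (by intro i; rw [hc, comm_v]; simp), pr_zero]
      · ring
      · intro i j k _
        simp only [wd, hc, comm_u]
        push_cast
        ring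
  rw [h]
  group

lemma Dat.engel_Q (x y : D.Q) :
    (y * x * y⁻¹ * x⁻¹) * x * (y * x * y⁻¹ * x⁻¹)⁻¹ * x⁻¹ = 1 := by
  obtain ⟨x, rfl⟩ := QuotientGroup.mk_surjective x
  obtain ⟨y, rfl⟩ := QuotientGroup.mk_surjective y
  have h := congrArg (QuotientGroup.mk : HH D.t → D.Q) (engel_HH x y)
  exact h

/-- reduction of the first coordinate modulo 3 -/
def Dat.pH : HH D.t →* Multiplicative (Fin d → ZMod 3) where
  toFun x := Multiplicative.ofAdd fun i => (x.v i : ZMod 3)
  map_one' := by
    apply Multiplicative.toAdd.injective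
    funext i
    simp
  map_mul' x y := by
    apply Multiplicative.toAdd.injective
    funext i
    simp

/-- reduction of the first coordinate on the quotient -/
def Dat.p : D.Q →* Multiplicative (Fin d → ZMod 3) :=
  QuotientGroup.lift D.N D.pH (by
    rintro x ⟨a, b, h1, -, -⟩
    apply Multiplicative.toAdd.injective
    funext i
    show (x.v i : ZMod 3) = 0
    rw [h1]
    push_cast
    rw [three, zero_mul])

lemma Dat.p_mk (x : HH D.t) (i : Fin d) :
    (D.p (QuotientGroup.mk x : D.Q)).toAdd i = (x.v i : ZMod 3) := rfl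

/-- central elements of the quotient -/
lemma Dat.central_mk {z : HH D.t} (hv : ∀ i, z.v i = 0)
    (hu : ∀ i j, i < j → (z.u i j : ZMod 3) = 0) :
    (QuotientGroup.mk z : D.Q) ∈ Subgroup.center D.Q := by
  rw [Subgroup.mem_center_iff]
  intro g
  obtain ⟨x, rfl⟩ := QuotientGroup.mk_surjective g
  have h := central_of hv hu D.ht x
  have h2 := congrArg (QuotientGroup.mk : HH D.t → D.Q) h
  exact h2.symm

lemma Dat.comm_ker_mem_center (g h : D.Q) (hg : D.p g = 1) :
    ⁅g, h⁆ ∈ Subgroup.center D.Q := by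
  obtain ⟨x, rfl⟩ := QuotientGroup.mk_surjective g
  obtain ⟨y, rfl⟩ := QuotientGroup.mk_surjective h
  have hx : ∀ i, (x.v i : ZMod 3) = 0 := by
    intro i
    rw [← D.p_mk, hg]; rfl
  have h1 : (⁅(QuotientGroup.mk x : D.Q), (QuotientGroup.mk y : D.Q)⁆)
      = QuotientGroup.mk (x * y * x⁻¹ * y⁻¹) := rfl
  rw [h1]
  apply D.central_mk
  · exact comm_v x y
  · intro i j _
    rw [comm_u]
    push_cast
    rw [hx, hx]; ring

/-- generators -/
def Dat.x (i : Fin d) : HH D.t := ⟨Pi.single i 1, fun _ _ => 0, fun _ => 0⟩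

/-- generators of the quotient -/
def Dat.gen (i : Fin d) : D.Q := QuotientGroup.mk (D.x i)

/-- the subgroup generated by the `gen i` -/
def Dat.S : Subgroup D.Q := Subgroup.closure (Set.range D.gen)

lemma Dat.lcs_two_le : D.S.lowerCentralSeries 2 ≤ Subgroup.center D.Q := by
  rw [Subgroup.lowerCentralSeries_succ, Subgroup.commutator_le]
  intro g hg h _
  apply D.comm_ker_mem_center
  have h1 : D.S.lowerCentralSeries 1 ≤ D.p.ker := by
    rw [Subgroup.lowerCentralSeries_succ, Subgroup.commutator_le]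
    intro a _ b _
    rw [MonoidHom.mem_ker, map_commutatorElement, commutatorElement_eq_one_iff_mul_comm, mul_comm]
  exact h1 hg

lemma Dat.lcs_three : D.S.lowerCentralSeries 3 = ⊥ := by
  rw [eq_bot_iff, Subgroup.lowerCentralSeries_succ, Subgroup.commutator_le]
  intro g hg h _
  have h1 := D.lcs_two_le hg
  rw [Subgroup.mem_center_iff] at h1
  rw [Subgroup.mem_bot, commutatorElement_eq_one_iff_mul_comm]
  exact (h1 h).symm

lemma Dat.gen_mem (i : Fin d) : D.gen i ∈ D.S := Subgroup.subset_closure ⟨i, rfl⟩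

lemma Dat.lcs_two_ne (l : Fin m) (a b c : Fin d) (hne : D.t l a b c ≠ 0) :
    D.S.lowerCentralSeries 2 ≠ ⊥ := by
  obtain ⟨hab, hbc⟩ := D.ht l a b c hne
  intro h
  have h1 : ⁅⁅D.gen a, D.gen b⁆, D.gen c⁆ ∈ D.S.lowerCentralSeries 2 := by
    rw [Subgroup.lowerCentralSeries_succ]
    apply Subgroup.commutator_mem_commutator
    · rw [Subgroup.lowerCentralSeries_succ]
      exact Subgroup.commutator_mem_commutator (D.gen_mem a) (D.gen_mem b)
    · exact D.gen_mem c
  rw [h, Subgroup.mem_bot] at h1
  set y := D.x a * D.x b * (D.x a)⁻¹ * (D.x b)⁻¹ with hy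
  have h2 : (QuotientGroup.mk (y * D.x c * y⁻¹ * (D.x c)⁻¹) : D.Q) = 1 := h1
  rw [QuotientGroup.eq_one_iff] at h2
  obtain ⟨a', b', e1, e2, e3⟩ := h2
  have e4 : ∀ i, a' i = 0 := by
    intro i
    have := e1 i
    rw [comm_v] at this
    linarith
  have hyv : ∀ i, y.v i = 0 := comm_v _ _
  have e5 : ∀ i j, i < j → b' i j = 0 := by
    intro i j hij
    have := e2 i j hij
    rw [comm_u, hyv, hyv] at this
    simp only [e4, zero_mul, Finset.sum_const_zero, mul_zero, sub_zero] at this
    linarith
  have e6 := e3 l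
  have e7 : D.kap l (fun i j => (b' i j : ZMod 3)) = 0 := by
    rw [D.kap_congr (b' := fun _ _ => 0) (by intro i j hij; rw [e5 i j hij]; simp)]
    simp [Dat.kap]
  rw [e7, neg_zero, comm_s] at e6
  have e8 : pr D.t l (ph (D.x c).v (D.x c).u y.v) = 0 := by
    apply pr_zero
    intro i j k _
    simp [ph, hyv, Dat.x]
  have e9 : pr D.t l (ph y.v y.u (D.x c).v) = D.t l a b c := by
    unfold pr
    rw [Finset.sum_eq_single a, Finset.sum_eq_single b, Finset.sum_eq_single c]
    · have h1 : (D.x c).v c = 1 := by simp [Dat.x]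
      have h2 : (D.x c).v b = 0 := by simp [Dat.x, Pi.single_apply, hbc.ne]
      have h3 : (D.x c).v a = 0 := by simp [Dat.x, Pi.single_apply, (hab.trans hbc).ne]
      have h4 : y.u a b = 1 := by
        rw [hy, comm_u]
        simp [Dat.x, Pi.single_apply, hab.ne, hab.ne']
      simp [ph, hyv, h1, h2, h3, h4]
    · intro k _ hk
      by_cases h0 : D.t l a b k = 0
      · rw [h0, zero_mul]
      · obtain ⟨-, h5⟩ := D.ht l a b k h0
        have hyu : ∀ i j, y.u i j = (D.x a).v i * (D.x b).v j - (D.x a).v j * (D.x b).v i :=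
          comm_u _ _
        have h1 : (D.x c).v k = 0 := by simp [Dat.x, Pi.single_apply, hk]
        have h2 : (D.x c).v b = 0 := by simp [Dat.x, Pi.single_apply, hbc.ne]
        have h3 : (D.x c).v a = 0 := by simp [Dat.x, Pi.single_apply, (hab.trans hbc).ne]
        simp [ph, hyv, h1, h2, h3]
    · intro h'; exact absurd (Finset.mem_univ _) h'
    · intro j _ hj
      apply Finset.sum_eq_zero
      intro k _
      by_cases h0 : D.t l a j k = 0
      · rw [h0, zero_mul]
      · obtain ⟨h5, h6⟩ := D.ht l a j k h0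
        have hyu : ∀ i j, y.u i j = (D.x a).v i * (D.x b).v j - (D.x a).v j * (D.x b).v i :=
          comm_u _ _
        have h1 : y.u a j = 0 := by
          rw [hyu]; simp [Dat.x, Pi.single_apply, hj, hab.ne]
        have h2 : y.u j k = 0 := by
          rw [hyu]
          have : k ≠ a := (h5.trans h6).ne'
          simp [Dat.x, Pi.single_apply, h5.ne', this]
        have h3 : y.u a k * (D.x c).v j = 0 := by
          rw [hyu]
          by_cases hk : k = b
          · have h7 : j ≠ c := by
              rintro rfl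
              rw [hk] at h6
              exact absurd (h6.trans hbc) (lt_irrefl _)
            simp [Dat.x, Pi.single_apply, h7]
          · simp [Dat.x, Pi.single_apply, hk, hab.ne]
        have h3' : (y.u a k : ZMod 3) * (D.x c).v j = 0 := by exact_mod_cast congrArg (Int.cast : ℤ → ZMod 3) h3
        simp only [ph, hyv, h1, h2]
        rw [h3']
        simp
    · intro h'; exact absurd (Finset.mem_univ _) h'
    · intro i _ hi
      apply Finset.sum_eq_zero
      intro j _
      apply Finset.sum_eq_zero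
      intro k _
      by_cases h0 : D.t l i j k = 0
      · rw [h0, zero_mul]
      · obtain ⟨h5, h6⟩ := D.ht l i j k h0
        have hyu : ∀ i j, y.u i j = (D.x a).v i * (D.x b).v j - (D.x a).v j * (D.x b).v i :=
          comm_u _ _
        have key : ∀ p q : Fin d, p < q → y.u p q ≠ 0 → p = a ∧ q = b := by
          intro p q hpq hu
          rw [hyu] at hu
          by_contra hcon
          apply hu
          by_cases hpa : p = a
          · subst hpa
            have hqb : q ≠ b := fun hq => hcon ⟨rfl, hq⟩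
            simp [Dat.x, Pi.single_apply, hqb, hpq.ne']
          · by_cases hqa : q = a
            · subst hqa
              have : p ≠ b := (hpq.trans hab).ne
              simp [Dat.x, Pi.single_apply, this, hpa]
            · simp [Dat.x, Pi.single_apply, hpa, hqa]
        have h1 : y.u i j = 0 := by
          by_contra hu
          exact hi (key i j h5 hu).1
        have h2 : y.u i k = 0 := by
          by_contra hu
          exact hi (key i k (h5.trans h6) hu).1
        have h3 : y.u j k * (D.x c).v i = 0 := by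
          by_cases hu : y.u j k = 0
          · rw [hu, zero_mul]
          · obtain ⟨hj, hk⟩ := key j k h6 hu
            have : i ≠ c := by
              rintro rfl
              rw [hj] at h5
              exact absurd (h5.trans (hab.trans hbc)) (lt_irrefl _)
            simp [Dat.x, Pi.single_apply, this]
        have h3' : (y.u j k : ZMod 3) * (D.x c).v i = 0 := by exact_mod_cast congrArg (Int.cast : ℤ → ZMod 3) h3
        simp only [ph, hyv, h1, h2]
        rw [h3']
        simp
    · intro h'; exact absurd (Finset.mem_univ _) h'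
  rw [e8, e9, sub_zero] at e6
  exact hne e6

end Pool.Agent.H247R3
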