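import Pool.Agent.H247R3.Eng4

set_option autoImplicit false

namespace Pool.Agent.H247R3

set_option linter.all false

open HH

variable {d m : ℕ}

/-- product of commutators -/
def prd {G : Type*} [Group G] (h : Fin d → G) (L : List (Fin d × Fin d)) : G :=
  (L.map fun e => h e.1 * h e.2 * (h e.1)⁻¹ * (h e.2)⁻¹).prod

lemma map_prd {G G' : Type*} [Group G] [Group G'] (f : G →* G') (h : Fin d → G)
    (L : List (Fin d × Fin d)) : f (prd h L) = prd (fun i => f (h i)) L := by
  unfold prd
  rw [map_list_prod, List.map_map]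
  congr 1
  apply List.map_congr_left
  intro e _
  simp

section

variable {t : Fin m → Fin d → Fin d → Fin d → ZMod 3}

lemma prd_v (h : Fin d → HH t) (L : List (Fin d × Fin d)) (i : Fin d) : (prd h L).v i = 0 := by
  induction L with
  | nil => rfl
  | cons e L ih =>
    unfold prd at ih ⊢
    rw [List.map_cons, List.prod_cons, mul_v, ih, comm_v]
    rfl

lemma prd_u (h : Fin d → HH t) (L : List (Fin d × Fin d)) (i j : Fin d) :
    (prd h L).u i j =
      (L.map fun e => (h e.1).v i * (h e.2).v j - (h e.1).v j * (h e.2).v i).sum := by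
  induction L with
  | nil => rfl
  | cons e L ih =>
    have h1 := prd_v h L
    unfold prd at ih h1 ⊢
    rw [List.map_cons, List.prod_cons, mul_u, ih, comm_u, h1, List.map_cons, List.sum_cons]
    ring

lemma prd_s (h : Fin d → HH t) (L : List (Fin d × Fin d)) (l : Fin m) :
    (prd h L).s l = (L.map fun e => pr t l (ph (h e.1).v (h e.1).u (h e.2).v)
      - pr t l (ph (h e.2).v (h e.2).u (h e.1).v)).sum := by
  induction L with
  | nil => rfl
  | cons e L ih =>
    have h1 := prd_v h L
    unfold prd at ih h1 ⊢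
    rw [List.map_cons, List.prod_cons, mul_s_of_dvd _ _ (by intro i; rw [h1]; simp), ih, comm_s,
      List.map_cons, List.sum_cons]

end

variable (D : Dat d m)

lemma pr_single {l : Fin m} {a b : Fin d} (u : Fin d → Fin d → ℤ) :
    pr D.t l (ph (Pi.single a 1) u (Pi.single b 1))
      = F D.t l (fun i j => (u i j : ZMod 3)) (un b) := by
  rw [F_apply]
  apply pr_congr
  intro i j k hne
  obtain ⟨hij, hjk⟩ := D.ht l i j k hne
  have hik := hij.trans hjk
  have e : ∀ c r : Fin d, (((Pi.single c 1 : Fin d → ℤ) r : ℤ) : ZMod 3) = un c r := by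
    intro c r
    unfold un
    by_cases h : r = c
    · subst h; simp
    · simp [h]
  have z : ∀ (c p q : Fin d), p < q → un c p * un c q = 0 := by
    intro c p q hpq
    unfold un
    by_cases h : p = c
    · subst h; simp [hpq.ne']
    · simp [h]
  unfold ph wd
  simp only [e]
  have h1 := z b i j hij
  have h2 := z a j k hjk
  have h3 := z b i k hik
  linear_combination un a k * h1 - un b i * h2 - un a j * h3

lemma inv_s_of_v (P : HH D.t) (hP : ∀ i, P.v i = 0) (l : Fin m) : (P⁻¹).s l = - P.s l := by
  have h4 : (P * P⁻¹).s l = 0 := by rw [mul_inv_cancel]; rfl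
  rw [mul_s_of_dvd P P⁻¹ (by intro i; rw [inv_v, hP]; simp)] at h4
  linear_combination h4

lemma rel_of_eq (x P : HH D.t) (hP : ∀ i, P.v i = 0)
    (h : (QuotientGroup.mk P : D.Q) = QuotientGroup.mk (x ^ 3)) :
    ∃ b : Fin d → Fin d → ℤ, (∀ i j, i < j → 3 * b i j =
      3 * (x.u i j - x.v i * x.v j) - P.u i j + ∑ q, x.v q * W D.wl q i j) ∧
      ∀ l, P.s l = D.kap l (fun i j => (b i j : ZMod 3)) := by
  rw [QuotientGroup.eq] at h
  obtain ⟨a, b, h1, h2, h3⟩ := h
  refine ⟨b, ?_, ?_⟩
  · intro i j hij
    have e1 : ∀ i, a i = x.v i := by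
      intro i
      have := h1 i
      rw [mul_v, inv_v, hP, cube_v] at this
      linarith
    have e2 := h2 i j hij
    rw [mul_u, inv_u, inv_v, hP, hP, cube_u] at e2
    simp only [e1] at e2
    linear_combination -e2
  · intro l
    have e2 := h3 l
    rw [mul_s_of_dvd _ _ (by intro i; rw [cube_v]; push_cast; rw [three, zero_mul]), cube_s,
      inv_s_of_v D P hP] at e2
    linear_combination -e2

lemma eq_of_rel (x P : HH D.t) (hP : ∀ i, P.v i = 0) (b : Fin d → Fin d → ℤ)
    (h2 : ∀ i j, i < j → 3 * b i j =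
      3 * (x.u i j - x.v i * x.v j) - P.u i j + ∑ q, x.v q * W D.wl q i j)
    (h3 : ∀ l, P.s l = D.kap l (fun i j => (b i j : ZMod 3))) :
    (QuotientGroup.mk P : D.Q) = QuotientGroup.mk (x ^ 3) := by
  rw [QuotientGroup.eq]
  refine ⟨x.v, b, ?_, ?_, ?_⟩
  · intro i
    rw [mul_v, inv_v, hP, cube_v]; ring
  · intro i j hij
    rw [mul_u, inv_u, inv_v, hP, hP, cube_u]
    linear_combination - h2 i j hij
  · intro l
    rw [mul_s_of_dvd _ _ (by intro i; rw [cube_v]; push_cast; rw [three, zero_mul]), cube_s,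
      inv_s_of_v D P hP, h3]
    ring

lemma Dat.gen_rel (i : Fin d) : prd D.gen (D.wl i) = D.gen i ^ 3 := by
  have h1 : prd D.gen (D.wl i) = QuotientGroup.mk (prd D.x (D.wl i)) :=
    (map_prd (QuotientGroup.mk' D.N) D.x (D.wl i)).symm
  rw [h1]
  apply eq_of_rel D (D.x i) (prd D.x (D.wl i)) (prd_v _ _) (fun _ _ => 0)
  · intro p q hpq
    rw [prd_u]
    have e1 : ∑ r, (D.x i).v r * W D.wl r p q = W D.wl i p q := by
      rw [Finset.sum_eq_single i]
      · simp [Dat.x]
      · intro b _ hb
        simp [Dat.x, hb]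
      · simp
    have e2 : (D.x i).v p * (D.x i).v q = 0 := by
      by_cases h : p = i
      · subst h; simp [Dat.x, hpq.ne']
      · simp [Dat.x, h]
    rw [e1, e2]
    have e3 : (D.x i).u p q = 0 := rfl
    have e4 : ((D.wl i).map fun e => (D.x e.1).v p * (D.x e.2).v q
        - (D.x e.1).v q * (D.x e.2).v p).sum = W D.wl i p q := by
      unfold W
      congr 1
      apply List.map_congr_left
      intro e _
      simp only [Dat.x, Pi.single_apply]
    rw [e3, e4]
    ring
  · intro l
    rw [prd_s]
    have e1 : D.kap l (fun i j => (((fun _ _ => 0 : Fin d → Fin d → ℤ) i j : ℤ) : ZMod 3)) = 0 := by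
      simp [Dat.kap]
    rw [e1]
    have e2 : ∀ e ∈ D.wl i, (pr D.t l (ph (D.x e.1).v (D.x e.1).u (D.x e.2).v)
      - pr D.t l (ph (D.x e.2).v (D.x e.2).u (D.x e.1).v)) = 0 := by
      intro e _
      have f1 : pr D.t l (ph (D.x e.1).v (D.x e.1).u (D.x e.2).v) =
          F D.t l (fun _ _ => 0) (un e.2) := by
        have := pr_single D (l := l) (a := e.1) (b := e.2) (fun _ _ => 0)
        simpa [Dat.x] using this
      have f2 : pr D.t l (ph (D.x e.2).v (D.x e.2).u (D.x e.1).v) =
          F D.t l (fun _ _ => 0) (un e.1) := by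
        have := pr_single D (l := l) (a := e.2) (b := e.1) (fun _ _ => 0)
        simpa [Dat.x] using this
      have f3 : (fun _ _ => 0 : Fin d → Fin d → ZMod 3) = 0 := rfl
      rw [f1, f2, f3, map_zero]
      simp
    rw [List.map_congr_left e2]
    simp

/-- rigidity of the linear part -/
def Dat.RigA : Prop := ∀ A B : Fin d → Fin d → ZMod 3,
  (∀ p q, ∑ r, A p r * B r q = if p = q then 1 else 0) →
  (∀ i p q, ((D.wl i).map fun e => A p e.1 * A q e.2 - A q e.1 * A p e.2).sum
    = ∑ r, A r i * (W D.wl r p q : ZMod 3)) →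
  ∀ p q, A p q = if p = q then 1 else 0

/-- the only solutions of the linear system are the inner ones -/
def Dat.RigC : Prop := ∀ c : Fin d → Fin d → Fin d → ZMod 3,
  (∀ i l, ((D.wl i).map fun e => F D.t l (c e.1) (un e.2) - F D.t l (c e.2) (un e.1)).sum
    = D.kap l (c i)) →
  ∃ g : Fin d → ZMod 3, ∀ i p q, p < q → c i p q = un i p * g q - un i q * g p

lemma W_antisymm (wl : Fin d → List (Fin d × Fin d)) (i p q : Fin d) :
    W wl i q p = - W wl i p q := by
  unfold W
  induction wl i with
  | nil => simp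
  | cons e L ih =>
    simp only [List.map_cons, List.sum_cons, ih]
    ring

lemma L_antisymm (A : Fin d → Fin d → ZMod 3) (L : List (Fin d × Fin d)) (p q : Fin d) :
    (L.map fun e => A q e.1 * A p e.2 - A p e.1 * A q e.2).sum
      = - (L.map fun e => A p e.1 * A q e.2 - A q e.1 * A p e.2).sum := by
  induction L with
  | nil => simp
  | cons e L ih =>
    simp only [List.map_cons, List.sum_cons, ih]
    ring

/-- generators as elements of `S` -/
def Dat.gS (i : Fin d) : D.S := ⟨D.gen i, D.gen_mem i⟩

lemma Dat.closure_gS : Subgroup.closure (Set.range D.gS) = ⊤ := by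
  have h := Subgroup.closure_closure_coe_preimage (k := Set.range D.gen)
  have h2 : ((fun x : Subgroup.closure (Set.range D.gen) => (x : D.Q)) ⁻¹' (Set.range D.gen))
      = Set.range D.gS := by
    ext x
    constructor
    · rintro ⟨i, hi⟩
      exact ⟨i, Subtype.ext hi⟩
    · rintro ⟨i, rfl⟩
      exact ⟨i, rfl⟩
  rw [← h2]
  exact h

/-- the first coordinate on `S` -/
def Dat.pS : D.S →* Multiplicative (Fin d → ZMod 3) := D.p.comp D.S.subtype

lemma Dat.pS_gS (i j : Fin d) : (D.pS (D.gS i)).toAdd j = un i j := by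
  show (((Pi.single i 1 : Fin d → ℤ) j : ℤ) : ZMod 3) = un i j
  unfold un
  by_cases h : j = i
  · subst h; simp
  · simp [h]

lemma Dat.lin (φ : D.S →* D.S) (g : D.S) (j : Fin d) :
    (D.pS (φ g)).toAdd j = ∑ r, (D.pS (φ (D.gS r))).toAdd j * (D.pS g).toAdd r := by
  let M : Multiplicative (Fin d → ZMod 3) →* Multiplicative (Fin d → ZMod 3) :=
    { toFun := fun x => Multiplicative.ofAdd
        fun j => ∑ r, (D.pS (φ (D.gS r))).toAdd j * x.toAdd r
      map_one' := by
        apply Multiplicative.toAdd.injective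
        funext i
        simp
      map_mul' := by
        intro x y
        apply Multiplicative.toAdd.injective
        funext i
        simp [mul_add, Finset.sum_add_distrib] }
  have h : D.pS.comp φ = M.comp D.pS := by
    apply MonoidHom.eq_of_eqOn_dense D.closure_gS
    rintro _ ⟨i, rfl⟩
    apply Multiplicative.toAdd.injective
    funext j
    show (D.pS (φ (D.gS i))).toAdd j
      = ∑ r, (D.pS (φ (D.gS r))).toAdd j * (D.pS (D.gS i)).toAdd r
    rw [Finset.sum_eq_single i]
    · rw [D.pS_gS]; simp [un]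
    · intro b _ hb
      rw [D.pS_gS]; simp [un, hb]
    · simp
  have h2 := DFunLike.congr_fun h g
  exact congrFun (congrArg Multiplicative.toAdd h2) j

lemma Dat.pS_surj (γ : Fin d → ZMod 3) : ∃ g : D.S, ∀ j, (D.pS g).toAdd j = γ j := by
  have h1 : Multiplicative.ofAdd γ ∈ D.pS.range := by
    have h2 : Multiplicative.ofAdd γ = ∏ i, (Multiplicative.ofAdd (un i)) ^ (γ i).val := by
      apply Multiplicative.toAdd.injective
      rw [toAdd_prod]
      funext j
      rw [Finset.sum_apply]
      have h3 : ∀ i, (Multiplicative.toAdd ((Multiplicative.ofAdd (un i)) ^ (γ i).val) :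
          Fin d → ZMod 3) j = γ i * un i j := by
        intro i
        show (((γ i).val) • (un i j) : ZMod 3) = _
        rw [nsmul_eq_mul, ZMod.natCast_val, ZMod.cast_id', id_eq]
      simp only [h3]
      rw [Finset.sum_eq_single j]
      · simp [un]
      · intro b _ hb
        simp [un, hb.symm]
      · simp
    rw [h2]
    apply Subgroup.prod_mem
    intro i _
    apply Subgroup.pow_mem
    refine ⟨D.gS i, ?_⟩
    apply Multiplicative.toAdd.injective
    funext j
    exact D.pS_gS i j
  obtain ⟨g, hg⟩ := h1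
  exact ⟨g, fun j => by rw [hg]; rfl⟩

theorem Dat.main (hA : D.RigA) (hC : D.RigC) (α : MulAut D.S) :
    ∃ β : MulAut D.S, ∃ h : D.S, (∀ g : D.S, g⁻¹ * β g ∈ Subgroup.center D.S) ∧
      α = β * MulAut.conj h := by
  -- the relation for the images of the generators
  have hrel : ∀ h : Fin d → HH D.t, (∀ i, (QuotientGroup.mk (h i) : D.Q) = (α (D.gS i) : D.S)) →
      ∀ i, (QuotientGroup.mk (prd h (D.wl i)) : D.Q) = QuotientGroup.mk (h i ^ 3) := by
    intro h hh i
    have e1 : prd D.gS (D.wl i) = D.gS i ^ 3 := by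
      apply Subtype.ext
      have := map_prd D.S.subtype D.gS (D.wl i)
      rw [Subgroup.coe_subtype] at this
      rw [this]
      exact D.gen_rel i
    have e2 := congrArg (fun z => ((α z : D.S) : D.Q)) e1
    simp only [map_pow] at e2
    have e3 : ((α (prd D.gS (D.wl i)) : D.S) : D.Q)
        = prd (fun i => (QuotientGroup.mk (h i) : D.Q)) (D.wl i) := by
      have := map_prd (D.S.subtype.comp α.toMonoidHom) D.gS (D.wl i)
      have e4 : (fun i => (D.S.subtype.comp α.toMonoidHom) (D.gS i))
          = fun i => (QuotientGroup.mk (h i) : D.Q) := by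
        funext i
        exact (hh i).symm
      rw [e4] at this
      exact this
    have e5 : (QuotientGroup.mk (prd h (D.wl i)) : D.Q)
        = prd (fun i => (QuotientGroup.mk (h i) : D.Q)) (D.wl i) :=
      map_prd (QuotientGroup.mk' D.N) h (D.wl i)
    rw [e5, ← e3, e2, Subgroup.coe_pow, ← hh i]
    rfl
  -- linear part
  have hA1 : ∀ p q, (D.pS (α (D.gS q))).toAdd p = if p = q then 1 else 0 := by
    apply hA (fun p q => (D.pS (α (D.gS q))).toAdd p) (fun p q => (D.pS (α⁻¹ (D.gS q))).toAdd p)
    · intro p q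
      have h1 := D.lin α.toMonoidHom (α⁻¹ (D.gS q)) p
      have h2 : α.toMonoidHom (α⁻¹ (D.gS q)) = D.gS q := by
        show α (α⁻¹ (D.gS q)) = D.gS q
        exact MulAut.apply_inv_self _ α (D.gS q)
      rw [h2, D.pS_gS] at h1
      have h3 : un q p = if p = q then 1 else 0 := by
        unfold un; rw [Pi.single_apply]
      rw [← h3]
      exact h1.symm
    · intro i
      have hex : ∀ i, ∃ x : HH D.t, (QuotientGroup.mk x : D.Q) = (α (D.gS i) : D.S) :=
        fun i => QuotientGroup.mk_surjective _
      choose h hh using hex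
      have hv : ∀ i j, ((h i).v j : ZMod 3) = (D.pS (α (D.gS i))).toAdd j := by
        intro i j
        show _ = (D.p ((α (D.gS i) : D.S) : D.Q)).toAdd j
        rw [← hh i]
        rfl
      obtain ⟨b, hb1, -⟩ := rel_of_eq D (h i) (prd h (D.wl i)) (prd_v _ _) (hrel h hh i)
      have key : ∀ p q, p < q → ((D.wl i).map fun e =>
          (D.pS (α (D.gS e.1))).toAdd p * (D.pS (α (D.gS e.2))).toAdd q
          - (D.pS (α (D.gS e.1))).toAdd q * (D.pS (α (D.gS e.2))).toAdd p).sum
          = ∑ r, (D.pS (α (D.gS i))).toAdd r * (W D.wl r p q : ZMod 3) := by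
        intro p q hpq
        have e1 := congrArg (Int.cast : ℤ → ZMod 3) (hb1 p q hpq)
        rw [prd_u] at e1
        push_cast at e1
        rw [three] at e1
        have e2 : ((((D.wl i).map fun e => (h e.1).v p * (h e.2).v q
            - (h e.1).v q * (h e.2).v p).sum : ℤ) : ZMod 3) = ((D.wl i).map fun e =>
          (D.pS (α (D.gS e.1))).toAdd p * (D.pS (α (D.gS e.2))).toAdd q
          - (D.pS (α (D.gS e.1))).toAdd q * (D.pS (α (D.gS e.2))).toAdd p).sum := by
          induction D.wl i with
          | nil => simp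
          | cons e L ih =>
            simp only [List.map_cons, List.sum_cons]
            push_cast
            rw [← hv, ← hv, ← hv, ← hv]
            push_cast at ih
            rw [ih]
        have e3 : ∑ r, ((h i).v r : ZMod 3) * (W D.wl r p q : ZMod 3)
            = ∑ r, (D.pS (α (D.gS i))).toAdd r * (W D.wl r p q : ZMod 3) :=
          Finset.sum_congr rfl fun r _ => by rw [hv]
        push_cast at e2
        rw [e2, e3] at e1
        linear_combination e1
      have anti : ∀ p q, ((D.wl i).map fun e =>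
          (D.pS (α (D.gS e.1))).toAdd p * (D.pS (α (D.gS e.2))).toAdd q
          - (D.pS (α (D.gS e.1))).toAdd q * (D.pS (α (D.gS e.2))).toAdd p).sum
          = - ((D.wl i).map fun e =>
          (D.pS (α (D.gS e.1))).toAdd q * (D.pS (α (D.gS e.2))).toAdd p
          - (D.pS (α (D.gS e.1))).toAdd p * (D.pS (α (D.gS e.2))).toAdd q).sum := by
        intro p q
        exact L_antisymm (fun p e => (D.pS (α (D.gS e))).toAdd p) (D.wl i) q p
      intro p q
      rcases lt_trichotomy p q with hpq | hpq | hpq
      · exact key p q hpq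
      · subst hpq
        have e1 : ∀ L : List (Fin d × Fin d), (L.map fun e =>
          (D.pS (α (D.gS e.1))).toAdd p * (D.pS (α (D.gS e.2))).toAdd p
          - (D.pS (α (D.gS e.1))).toAdd p * (D.pS (α (D.gS e.2))).toAdd p).sum = 0 := by
          intro L; simp
        have e2 : ∀ r, W D.wl r p p = 0 := by
          intro r
          have := W_antisymm D.wl r p p
          omega
        rw [e1]
        simp [e2]
      · rw [anti p q, key q p hpq, ← Finset.sum_neg_distrib]
        refine Finset.sum_congr rfl fun r _ => ?_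
        rw [W_antisymm D.wl r q p]
        push_cast
        ring
  have hA2 : ∀ (g : D.S) (j : Fin d), (D.pS (α g)).toAdd j = (D.pS g).toAdd j := by
    intro g j
    have h1 := D.lin α.toMonoidHom g j
    have h2 : ∀ r, (D.pS (α.toMonoidHom (D.gS r))).toAdd j = if j = r then 1 else 0 :=
      fun r => hA1 j r
    simp only [h2, ite_mul, one_mul, zero_mul, Finset.sum_ite_eq, Finset.mem_univ, if_true] at h1
    exact h1
  -- representatives with exact first coordinate
  have hex : ∀ i, ∃ x : HH D.t, (QuotientGroup.mk x : D.Q) = (α (D.gS i) : D.S) ∧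
      x.v = Pi.single i 1 := by
    intro i
    obtain ⟨x, hx⟩ := QuotientGroup.mk_surjective ((α (D.gS i) : D.S) : D.Q)
    have hv : ∀ j, (x.v j : ZMod 3) = un i j := by
      intro j
      have h1 := hA2 (D.gS i) j
      rw [D.pS_gS] at h1
      rw [← h1]
      show _ = (D.p ((α (D.gS i) : D.S) : D.Q)).toAdd j
      rw [← hx]
      rfl
    have hdiv : ∀ j, ∃ a : ℤ, (Pi.single i 1 : Fin d → ℤ) j - x.v j = 3 * a := by
      intro j
      have h1 : (((Pi.single i 1 : Fin d → ℤ) j - x.v j : ℤ) : ZMod 3) = 0 := by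
        push_cast
        rw [hv]
        unfold un
        by_cases h : j = i
        · subst h; simp
        · simp [h]
      exact (ZMod.intCast_zmod_eq_zero_iff_dvd _ 3).mp h1
    choose a ha using hdiv
    let n : HH D.t := ⟨fun j => 3 * a j, fun p q => - ∑ r, a r * W D.wl r p q, fun _ => 0⟩
    have hn : n ∈ D.N := by
      refine ⟨a, fun _ _ => 0, fun _ => rfl, ?_, ?_⟩
      · intro p q _
        show - ∑ r, a r * W D.wl r p q = _
        ring
      · intro l
        show (0 : ZMod 3) = _
        simp [Dat.kap]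
    refine ⟨x * n, ?_, ?_⟩
    · rw [← hx]
      apply Eq.symm
      rw [QuotientGroup.eq]
      simpa using hn
    · funext j
      rw [mul_v]
      show x.v j + 3 * a j = _
      rw [← ha j]
      ring
  choose h hh hv using hex
  have hcc : ∀ i l, ((D.wl i).map fun e => F D.t l (fun p q => ((h e.1).u p q : ZMod 3)) (un e.2)
      - F D.t l (fun p q => ((h e.2).u p q : ZMod 3)) (un e.1)).sum
      = D.kap l (fun p q => ((h i).u p q : ZMod 3)) := by
    intro i l
    obtain ⟨b, hb1, hb2⟩ := rel_of_eq D (h i) (prd h (D.wl i)) (prd_v _ _) (hrel h hh i)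
    have e1 : ∀ p q, p < q → b p q = (h i).u p q := by
      intro p q hpq
      have e2 := hb1 p q hpq
      rw [prd_u] at e2
      have e3 : ((D.wl i).map fun e => (h e.1).v p * (h e.2).v q
        - (h e.1).v q * (h e.2).v p).sum = W D.wl i p q := by
        unfold W
        congr 1
        apply List.map_congr_left
        intro e _
        simp only [hv, Pi.single_apply]
      have e4 : ∑ r, (h i).v r * W D.wl r p q = W D.wl i p q := by
        rw [Finset.sum_eq_single i]
        · simp [hv]
        · intro b _ hb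
          simp [hv, hb]
        · simp
      have e5 : (h i).v p * (h i).v q = 0 := by
        rw [hv]
        by_cases h' : p = i
        · subst h'; simp [hpq.ne']
        · simp [h']
      rw [e3, e4, e5] at e2
      linarith
    have e6 := hb2 l
    rw [prd_s] at e6
    rw [D.kap_congr (b' := fun p q => (b p q : ZMod 3)) (by intro p q hpq; rw [e1 p q hpq]), ← e6]
    congr 1
    apply List.map_congr_left
    intro e _
    rw [hv, hv, pr_single, pr_single]
  obtain ⟨g, hg⟩ := hC (fun i p q => ((h i).u p q : ZMod 3)) hcc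
  obtain ⟨h0, hh0⟩ := D.pS_surj (fun j => - g j)
  refine ⟨α * (MulAut.conj h0)⁻¹, h0, ?_, by group⟩
  -- on generators
  have hgenc : ∀ i, (D.gS i)⁻¹ * (α * (MulAut.conj h0)⁻¹) (D.gS i) ∈ Subgroup.center D.S := by
    intro i
    obtain ⟨y, hy⟩ := QuotientGroup.mk_surjective ((α h0 : D.S) : D.Q)
    have hyv : ∀ j, (y.v j : ZMod 3) = - g j := by
      intro j
      rw [← hh0 j, ← hA2 h0 j]
      show _ = (D.p ((α h0 : D.S) : D.Q)).toAdd j
      rw [← hy]
      rfl
    have e1 : (α * (MulAut.conj h0)⁻¹) (D.gS i) = (α h0)⁻¹ * α (D.gS i) * α h0 := by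
      rw [MulAut.mul_apply]
      have : (MulAut.conj h0)⁻¹ (D.gS i) = h0⁻¹ * D.gS i * h0 := by
        rw [← map_inv, MulAut.conj_apply, inv_inv]
      rw [this, map_mul, map_mul, map_inv]
    have e2 : (((D.gS i)⁻¹ * (α * (MulAut.conj h0)⁻¹) (D.gS i) : D.S) : D.Q)
        = QuotientGroup.mk ((D.x i)⁻¹ * (y⁻¹ * h i * y⁻¹⁻¹)) := by
      rw [e1]
      push_cast
      rw [← hy, ← hh i, inv_inv]
      rfl
    have e3 : (((D.gS i)⁻¹ * (α * (MulAut.conj h0)⁻¹) (D.gS i) : D.S) : D.Q)
        ∈ Subgroup.center D.Q := by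
      rw [e2]
      apply D.central_mk
      · intro j
        rw [mul_v, conj_v, inv_v, hv]
        simp [Dat.x]
      · intro p q hpq
        rw [mul_u, conj_u, conj_v, inv_u, inv_v, inv_v, inv_v, hv]
        have f1 : (D.x i).v = Pi.single i 1 := rfl
        have f2 : (D.x i).u p q = 0 := rfl
        rw [f1, f2]
        have f3 := hg i p q hpq
        push_cast
        rw [f3, hyv, hyv]
        have f4 : ∀ r : Fin d, (((Pi.single i 1 : Fin d → ℤ) r : ℤ) : ZMod 3) = un i r := by
          intro r
          unfold un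
          by_cases h : r = i
          · subst h; simp
          · simp [h]
        rw [f4, f4]
        ring
    rw [Subgroup.mem_center_iff] at e3 ⊢
    intro z
    apply Subtype.ext
    exact e3 z
  intro z
  let β : MulAut D.S := α * (MulAut.conj h0)⁻¹
  have hz : z ∈ Subgroup.closure (Set.range D.gS) := by rw [D.closure_gS]; trivial
  show z⁻¹ * β z ∈ Subgroup.center D.S
  refine Subgroup.closure_induction (p := fun z _ => z⁻¹ * β z ∈ Subgroup.center D.S)
    ?_ ?_ ?_ ?_ hz
  · rintro _ ⟨i, rfl⟩
    exact hgenc i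
  · rw [map_one, inv_one, mul_one]
    exact Subgroup.one_mem _
  · intro x y _ _ hx hy
    have e1 : (x * y)⁻¹ * β (x * y) = (x⁻¹ * β x) * (y⁻¹ * β y) := by
      rw [map_mul]
      have h2 := (Subgroup.mem_center_iff.mp hx) y
      have h3 : y * (x⁻¹ * β x) = (x⁻¹ * β x) * y := h2
      calc (x * y)⁻¹ * (β x * β y) = y⁻¹ * (x⁻¹ * β x) * β y := by group
        _ = y⁻¹ * (y * (x⁻¹ * β x) * y⁻¹) * β y := by rw [h3]; group
        _ = (x⁻¹ * β x) * (y⁻¹ * β y) := by group
    rw [e1]
    exact Subgroup.mul_mem _ hx hy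
  · intro x _ hx
    have e1 : (x⁻¹)⁻¹ * β x⁻¹ = x * (x⁻¹ * β x)⁻¹ * x⁻¹ := by
      rw [map_inv]; group
    rw [e1]
    exact (inferInstance : (Subgroup.center D.S).Normal).conj_mem _ (Subgroup.inv_mem _ hx) x

end Pool.Agent.H247R3
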