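import Pool.Agent.H247R3.Eng5

set_option autoImplicit false

namespace Pool.Agent.H247R3

set_option linter.all false

open HH Matrix

variable {d m : ℕ}

section RigA

variable (wl : Fin d → List (Fin d × Fin d))

/-- the alternating matrix `P_i` -/
def PP (i : Fin d) : Matrix (Fin d) (Fin d) (ZMod 3) := fun p q => (W wl i p q : ZMod 3)

/-- the operator `L_u` -/
def LL (u : Fin d → ZMod 3) : Matrix (Fin d) (Fin d) (ZMod 3) := fun p j => (PP wl j *ᵥ u) p

lemma LL_add (u w : Fin d → ZMod 3) : LL wl (u + w) = LL wl u + LL wl w := by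
  funext p j
  simp only [LL, Matrix.mulVec_add, Matrix.add_apply, Pi.add_apply]

lemma LL_smul (c : ZMod 3) (u : Fin d → ZMod 3) : LL wl (c • u) = c • LL wl u := by
  funext p j
  simp only [LL, Matrix.mulVec_smul, Matrix.smul_apply, Pi.smul_apply]

/-- `L` as a linear map -/
def Llin : (Fin d → ZMod 3) →ₗ[ZMod 3] Matrix (Fin d) (Fin d) (ZMod 3) where
  toFun := LL wl
  map_add' := LL_add wl
  map_smul' := LL_smul wl

lemma un_sum (u : Fin d → ZMod 3) : u = ∑ q, u q • un q := by
  funext i
  simp only [Finset.sum_apply, Pi.smul_apply, smul_eq_mul, un]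
  rw [Finset.sum_eq_single i]
  · simp
  · intro b _ hb
    rw [Pi.single_eq_of_ne (Ne.symm hb)]; simp
  · simp

lemma LL_un (q p j : Fin d) : LL wl (un q) p j = (W wl j p q : ZMod 3) := by
  simp only [LL, un]
  rw [Matrix.mulVec_single_one]
  rfl

lemma APA (A : Matrix (Fin d) (Fin d) (ZMod 3)) (L : List (Fin d × Fin d)) (p q : Fin d) :
    (L.map fun e => A p e.1 * A q e.2 - A q e.1 * A p e.2).sum =
      ∑ a, ∑ b, A p a * (((L.map fun e => (if a = e.1 then 1 else 0) * (if b = e.2 then 1 else 0)
    - (if b = e.1 then 1 else 0) * (if a = e.2 then (1 : ℤ) else 0)).sum : ℤ) : ZMod 3) * A q b := by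
  induction L with
  | nil => simp
  | cons e L ih =>
    simp only [List.map_cons, List.sum_cons, ih]
    push_cast
    simp only [mul_add, add_mul, Finset.sum_add_distrib]
    congr 1
    simp only [mul_sub, sub_mul, Finset.sum_sub_distrib]
    congr 1
    · rw [Finset.sum_eq_single e.1, Finset.sum_eq_single e.2]
      · simp
      · intro b _ hb; simp [hb]
      · simp
      · intro a _ ha; simp [ha]
      · simp
    · rw [Finset.sum_eq_single e.2, Finset.sum_eq_single e.1]
      · simp; ring
      · intro b _ hb; simp [hb]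
      · simp
      · intro a _ ha; simp [ha]
      · simp

theorem rigA_of (v u1 : Fin d → ZMod 3) (M N R K K' : Matrix (Fin d) (Fin d) (ZMod 3))
    (nx : Fin d → Fin d)
    (hv : ∀ q, v q = ∑ p, (W wl p p q : ZMod 3))
    (hM : ∀ q r, M q r = ∑ p, ∑ j, (W wl j p q : ZMod 3) * (W wl p j r : ZMod 3))
    (hMN : M * N = 1) (hu : N *ᵥ v = u1)
    (hR : ∀ p j, R p j = ∑ q, u1 q * (W wl j p q : ZMod 3))
    (hK0 : ∃ z, (∀ p, K p z = v p) ∧ ∀ k, k = z ∨ ∃ k', k' < k ∧ ∀ p, K p k = ∑ j, R p j * K j k')
    (hKK : K * K' = 1)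
    (A B : Matrix (Fin d) (Fin d) (ZMod 3)) (hAB : A * B = 1)
    (hP : ∀ i p q, ((wl i).map fun e => A p e.1 * A q e.2 - A q e.1 * A p e.2).sum
      = ∑ r, A r i * (W wl r p q : ZMod 3)) : A = 1 := by
  have hBA : B * A = 1 := mul_eq_one_comm.mp hAB
  -- L_u A = A L_{A^T u}
  have hP2 : ∀ i, A * PP wl i * Aᵀ = ∑ r, A r i • PP wl r := by
    intro i
    funext p q
    rw [Matrix.sum_apply]
    simp only [Matrix.smul_apply, smul_eq_mul, PP]
    rw [← hP i p q, APA]
    simp only [Matrix.mul_apply, Matrix.transpose_apply, Finset.sum_mul]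
    rw [Finset.sum_comm]
    rfl
  have hL : ∀ u, LL wl u * A = A * LL wl (Aᵀ *ᵥ u) := by
    intro u
    funext p i
    have e1 : (A * LL wl (Aᵀ *ᵥ u)) p i = ((A * PP wl i * Aᵀ) *ᵥ u) p := by
      rw [← Matrix.mulVec_mulVec, ← Matrix.mulVec_mulVec]
      rfl
    rw [e1, hP2 i]
    simp only [Matrix.mul_apply, LL, Matrix.mulVec, dotProduct, Matrix.sum_apply,
      Matrix.smul_apply, smul_eq_mul, Finset.sum_mul]
    rw [Finset.sum_comm]
    refine Finset.sum_congr rfl fun q _ => Finset.sum_congr rfl fun r _ => ?_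
    ring
  have hL' : ∀ u, LL wl (Aᵀ *ᵥ u) = B * LL wl u * A := by
    intro u
    rw [mul_assoc, hL, ← mul_assoc, hBA, one_mul]
  have tr1 : ∀ u, Matrix.trace (LL wl (Aᵀ *ᵥ u)) = Matrix.trace (LL wl u) := by
    intro u
    rw [hL', Matrix.trace_mul_comm, ← mul_assoc, hAB, one_mul]
  have tr2 : ∀ u w, Matrix.trace (LL wl (Aᵀ *ᵥ u) * LL wl (Aᵀ *ᵥ w))
      = Matrix.trace (LL wl u * LL wl w) := by
    intro u w
    rw [hL', hL']
    have : B * LL wl u * A * (B * LL wl w * A) = B * (LL wl u * LL wl w * A) := by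
      calc B * LL wl u * A * (B * LL wl w * A) = B * LL wl u * (A * B) * LL wl w * A := by
            simp only [mul_assoc]
        _ = _ := by rw [hAB]; simp only [mul_assoc, mul_one, one_mul]
    rw [this, Matrix.trace_mul_comm, mul_assoc, hAB, mul_one]
  have trv : ∀ u, Matrix.trace (LL wl u) = u ⬝ᵥ v := by
    intro u
    conv_lhs => rw [un_sum u]
    have e1 : LL wl (∑ q, u q • un q) = ∑ q, u q • LL wl (un q) := by
      have := map_sum (Llin wl) (fun q => u q • un q) Finset.univ
      simp only [map_smul] at this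
      exact this
    rw [e1, Matrix.trace_sum]
    simp only [dotProduct, Matrix.trace_smul, smul_eq_mul]
    refine Finset.sum_congr rfl fun q _ => ?_
    rw [hv]
    congr 1
    unfold Matrix.trace
    refine Finset.sum_congr rfl fun p _ => ?_
    rw [Matrix.diag_apply, LL_un]
  have trM : ∀ u w, Matrix.trace (LL wl u * LL wl w) = u ⬝ᵥ (M *ᵥ w) := by
    intro u w
    have e1 : ∀ u, LL wl u = ∑ q, u q • LL wl (un q) := by
      intro u
      conv_lhs => rw [un_sum u]
      have := map_sum (Llin wl) (fun q => u q • un q) Finset.univ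
      simp only [map_smul] at this
      exact this
    rw [e1 u, e1 w, Finset.sum_mul, Matrix.trace_sum]
    simp only [dotProduct]
    refine Finset.sum_congr rfl fun q _ => ?_
    rw [Finset.mul_sum, Matrix.trace_sum]
    simp only [Matrix.mulVec, dotProduct, Finset.mul_sum]
    refine Finset.sum_congr rfl fun r _ => ?_
    rw [Matrix.smul_mul, Matrix.mul_smul, Matrix.trace_smul, Matrix.trace_smul, hM]
    simp only [smul_eq_mul]
    have e2 : Matrix.trace (LL wl (un q) * LL wl (un r))
        = ∑ p, ∑ j, (W wl j p q : ZMod 3) * (W wl p j r : ZMod 3) := by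
      unfold Matrix.trace
      refine Finset.sum_congr rfl fun p _ => ?_
      rw [Matrix.diag_apply, Matrix.mul_apply]
      refine Finset.sum_congr rfl fun j _ => ?_
      rw [LL_un, LL_un]
    rw [e2]
    ring
  have hAv : A *ᵥ v = v := by
    funext q
    have e1 := tr1 (un q)
    rw [trv, trv] at e1
    have e2 : (Aᵀ *ᵥ un q) ⬝ᵥ v = un q ⬝ᵥ (A *ᵥ v) := by
      rw [Matrix.mulVec_transpose, ← Matrix.dotProduct_mulVec]
    rw [e2] at e1
    simpa [un] using e1
  have hAM : A * M * Aᵀ = M := by
    funext q r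
    have e1 := tr2 (un q) (un r)
    rw [trM, trM] at e1
    have e2 : (Aᵀ *ᵥ un q) ⬝ᵥ (M *ᵥ (Aᵀ *ᵥ un r)) = un q ⬝ᵥ ((A * M * Aᵀ) *ᵥ un r) := by
      rw [Matrix.mulVec_transpose A (un q), ← Matrix.dotProduct_mulVec, Matrix.mulVec_mulVec,
        Matrix.mulVec_mulVec, mul_assoc]
    rw [e2] at e1
    simp only [un] at e1
    rw [Matrix.mulVec_single_one, Matrix.mulVec_single_one] at e1
    simpa using e1
  have hNM : N * M = 1 := mul_eq_one_comm.mp hMN
  have hAu : Aᵀ *ᵥ u1 = u1 := by
    have hBv : B *ᵥ v = v := by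
      conv_lhs => rw [← hAv]
      rw [Matrix.mulVec_mulVec, hBA, Matrix.one_mulVec]
    have e1 : Aᵀ = N * B * M := by
      have : N * B * (A * M * Aᵀ) = Aᵀ := by
        calc N * B * (A * M * Aᵀ) = N * (B * A) * M * Aᵀ := by simp only [mul_assoc]
          _ = Aᵀ := by rw [hBA, mul_one, hNM, one_mul]
      rw [hAM] at this
      exact this.symm
    rw [← hu, e1, Matrix.mulVec_mulVec]
    have : N * B * M * N = N * B := by rw [mul_assoc, hMN, mul_one]
    rw [this, ← Matrix.mulVec_mulVec, hBv]
  have hRL : R = LL wl u1 := by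
    funext p j
    rw [hR]
    simp only [LL, Matrix.mulVec, dotProduct, PP]
    refine Finset.sum_congr rfl fun q _ => ?_
    ring
  have hRA : R * A = A * R := by
    rw [hRL, hL, hAu]
  obtain ⟨z, hz, hz2⟩ := hK0
  have hcol : ∀ k, A *ᵥ (fun p => K p k) = fun p => K p k := by
    intro k
    induction k using WellFoundedLT.induction with
    | _ k ih =>
      rcases hz2 k with rfl | ⟨k', hk', hk2⟩
      · have : (fun p => K p k) = v := funext hz
        rw [this, hAv]
      · have : (fun p => K p k) = R *ᵥ (fun p => K p k') := funext hk2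
        rw [this, Matrix.mulVec_mulVec, ← hRA, ← Matrix.mulVec_mulVec, ih k' hk']
  have hAK : A * K = K := by
    funext p k
    exact congrFun (hcol k) p
  calc A = A * (K * K') := by rw [hKK, mul_one]
    _ = 1 := by rw [← mul_assoc, hAK, hKK]

end RigA

section RigC

variable (D : Dat d m)

/-- the defect of the equation -/
def Dat.EE (c : Fin d → Fin d → Fin d → ZMod 3) (i : Fin d) (l : Fin m) : ZMod 3 :=
  ((D.wl i).map fun e => F D.t l (c e.1) (un e.2) - F D.t l (c e.2) (un e.1)).sum
    - D.kap l (c i)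

lemma Dat.EE_sub (c c' : Fin d → Fin d → Fin d → ZMod 3) (i : Fin d) (l : Fin m) :
    D.EE (fun i p q => c i p q - c' i p q) i l = D.EE c i l - D.EE c' i l := by
  unfold Dat.EE
  have e1 : D.kap l (fun p q => c i p q - c' i p q) = D.kap l (c i) - D.kap l (c' i) := by
    unfold Dat.kap
    simp only [mul_sub, Finset.sum_sub_distrib]
  have e2 : ∀ L : List (Fin d × Fin d), (L.map fun e =>
      F D.t l (fun p q => c e.1 p q - c' e.1 p q) (un e.2)
        - F D.t l (fun p q => c e.2 p q - c' e.2 p q) (un e.1)).sum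
      = (L.map fun e => F D.t l (c e.1) (un e.2) - F D.t l (c e.2) (un e.1)).sum
        - (L.map fun e => F D.t l (c' e.1) (un e.2) - F D.t l (c' e.2) (un e.1)).sum := by
    intro L
    have f1 : ∀ a, (fun p q => c a p q - c' a p q) = c a - c' a := fun a => rfl
    induction L with
    | nil => simp
    | cons e L ih =>
      simp only [List.map_cons, List.sum_cons]
      rw [ih]
      simp only [f1, map_sub, LinearMap.sub_apply]
      ring
  rw [e1, e2]
  ring

/-- the inner solution -/
def inn (g : Fin d → ZMod 3) (i p q : Fin d) : ZMod 3 := un i p * g q - un i q * g p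

lemma Dat.EE_inn (g : Fin d → ZMod 3) (i : Fin d) (l : Fin m) : D.EE (inn g) i l = 0 := by
  unfold Dat.EE
  have e1 : D.kap l (inn g i) = F D.t l (fun p q => (W D.wl i p q : ZMod 3)) g := by
    have := D.kap_wedge l (un i) g
    have e2 : (fun p q => ∑ r, un i r * (W D.wl r p q : ZMod 3))
        = fun p q => (W D.wl i p q : ZMod 3) := by
      funext p q
      rw [Finset.sum_eq_single i]
      · simp [un]
      · intro b _ hb; simp [un, hb]
      · simp
    rw [e2] at this
    exact this.symm
  have e2 : ∀ L : List (Fin d × Fin d), (L.map fun e =>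
      F D.t l (inn g e.1) (un e.2) - F D.t l (inn g e.2) (un e.1)).sum
      = F D.t l (fun p q => ((L.map fun e => (if p = e.1 then 1 else 0) * (if q = e.2 then 1 else 0)
    - (if q = e.1 then 1 else 0) * (if p = e.2 then (1 : ℤ) else 0)).sum : ℤ)) g := by
    intro L
    induction L with
    | nil =>
      simp only [List.map_nil, List.sum_nil, Int.cast_zero]
      have : (fun _ _ => 0 : Fin d → Fin d → ZMod 3) = 0 := rfl
      rw [this, map_zero]; simp
    | cons e L ih =>
      simp only [List.map_cons, List.sum_cons, ih]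
      have f1 : (fun p q => ((((if p = e.1 then 1 else 0) * (if q = e.2 then 1 else 0)
    - (if q = e.1 then 1 else 0) * (if p = e.2 then (1 : ℤ) else 0)) +
      (L.map fun e => (if p = e.1 then 1 else 0) * (if q = e.2 then 1 else 0)
    - (if q = e.1 then 1 else 0) * (if p = e.2 then (1 : ℤ) else 0)).sum : ℤ) : ZMod 3))
        = (fun p q => un e.1 p * un e.2 q - un e.1 q * un e.2 p) +
          (fun p q => (((L.map fun e => (if p = e.1 then 1 else 0) * (if q = e.2 then 1 else 0)
    - (if q = e.1 then 1 else 0) * (if p = e.2 then (1 : ℤ) else 0)).sum : ℤ) : ZMod 3)) := by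
        funext p q
        simp only [Pi.add_apply, un, Pi.single_apply]
        push_cast
        ring
      rw [f1, map_add, LinearMap.add_apply]
      congr 1
      simp only [F_apply]
      rw [← pr_sub]
      apply pr_congr
      intro i j k _
      unfold wd inn
      linear_combination (-(un e.1 i * un e.2 j - un e.1 j * un e.2 i) * g k
        + (un e.1 i * un e.2 k - un e.1 k * un e.2 i) * g j
        - (un e.1 j * un e.2 k - un e.1 k * un e.2 j) * g i) * three
  rw [e1, e2]
  simp only [W, sub_self]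

/-- it suffices to treat solutions which vanish at prescribed gauge coordinates -/
theorem Dat.rigC_of (G : (Fin d → Fin d → Fin d → ZMod 3) → Prop)
    (hG : ∀ c : Fin d → Fin d → Fin d → ZMod 3, ∃ g, G (fun i p q => c i p q - inn g i p q))
    (h0 : ∀ c : Fin d → Fin d → Fin d → ZMod 3, (∀ i l, D.EE c i l = 0) → G c → ∀ i p q, p < q → c i p q = 0) : D.RigC := by
  intro c hc
  obtain ⟨g, hg⟩ := hG c
  refine ⟨g, fun i p q hpq => ?_⟩
  have h1 := h0 (fun i p q => c i p q - inn g i p q) (by
    intro i l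
    rw [D.EE_sub, D.EE_inn, sub_zero]
    unfold Dat.EE
    rw [hc i l, sub_self]) hg i p q hpq
  have h2 : c i p q = inn g i p q := sub_eq_zero.mp h1
  exact h2

end RigC

end Pool.Agent.H247R3
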