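import Pool.Agent.H247R3.Eng6

set_option autoImplicit false

namespace Pool.Agent.H247R3

set_option linter.all false

open HH

/-! ### Sparse data -/

section sparse

variable {d m : ℕ}

/-- the tensor given by a list -/
def tOf (TL : Fin m → List (Fin d × Fin d × Fin d × ℕ)) (l : Fin m) (i j r : Fin d) : ZMod 3 :=
  ((TL l).map fun e => if e.1 = i ∧ e.2.1 = j ∧ e.2.2.1 = r then (e.2.2.2 : ZMod 3) else 0).sum

/-- the matrix given by a list -/
def kOf (KL : Fin m → List (Fin d × Fin d × ℕ)) (l : Fin m) (i j : Fin d) : ZMod 3 :=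
  ((KL l).map fun e => if e.1 = i ∧ e.2.1 = j then (e.2.2 : ZMod 3) else 0).sum

lemma pr_tOf (TL : Fin m → List (Fin d × Fin d × Fin d × ℕ)) (l : Fin m)
    (f : Fin d → Fin d → Fin d → ZMod 3) :
    pr (tOf TL) l f = ((TL l).map fun e => (e.2.2.2 : ZMod 3) * f e.1 e.2.1 e.2.2.1).sum := by
  unfold pr tOf
  induction TL l with
  | nil => simp
  | cons e L ih =>
    simp only [List.map_cons, List.sum_cons, add_mul, Finset.sum_add_distrib, ih]
    congr 1
    rw [Finset.sum_eq_single e.1, Finset.sum_eq_single e.2.1, Finset.sum_eq_single e.2.2.1]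
    · simp
    · intro b _ hb; rw [if_neg (by tauto), zero_mul]
    · simp
    · intro b _ hb
      apply Finset.sum_eq_zero
      intro c _
      rw [if_neg (by tauto), zero_mul]
    · simp
    · intro b _ hb
      apply Finset.sum_eq_zero
      intro c _
      apply Finset.sum_eq_zero
      intro c' _
      rw [if_neg (by tauto), zero_mul]
    · simp

lemma kap_kOf (KL : Fin m → List (Fin d × Fin d × ℕ)) (l : Fin m)
    (b : Fin d → Fin d → ZMod 3) :
    (∑ i, ∑ j, kOf KL l i j * b i j)
      = ((KL l).map fun e => (e.2.2 : ZMod 3) * b e.1 e.2.1).sum := by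
  unfold kOf
  induction KL l with
  | nil => simp
  | cons e L ih =>
    simp only [List.map_cons, List.sum_cons, add_mul, Finset.sum_add_distrib, ih]
    congr 1
    rw [Finset.sum_eq_single e.1, Finset.sum_eq_single e.2.1]
    · simp
    · intro b _ hb; rw [if_neg (by tauto), zero_mul]
    · simp
    · intro b _ hb
      apply Finset.sum_eq_zero
      intro c _
      rw [if_neg (by tauto), zero_mul]
    · simp

lemma tOf_ne {TL : Fin m → List (Fin d × Fin d × Fin d × ℕ)}
    (h : ∀ l, ∀ e ∈ TL l, e.1 < e.2.1 ∧ e.2.1 < e.2.2.1) {l : Fin m} {i j r : Fin d}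
    (hne : tOf TL l i j r ≠ 0) : i < j ∧ j < r := by
  by_contra hcon
  apply hne
  unfold tOf
  apply List.sum_eq_zero
  intro x hx
  rw [List.mem_map] at hx
  obtain ⟨e, he, rfl⟩ := hx
  rw [if_neg]
  rintro ⟨rfl, rfl, rfl⟩
  exact hcon (h l e he)

lemma kOf_ne {KL : Fin m → List (Fin d × Fin d × ℕ)}
    (h : ∀ l, ∀ e ∈ KL l, e.1 < e.2.1) {l : Fin m} {i j : Fin d}
    (hne : kOf KL l i j ≠ 0) : i < j := by
  by_contra hcon
  apply hne
  unfold kOf
  apply List.sum_eq_zero
  intro x hx
  rw [List.mem_map] at hx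
  obtain ⟨e, he, rfl⟩ := hx
  rw [if_neg]
  rintro ⟨rfl, rfl⟩
  exact hcon (h l e he)

end sparse

/-! ### Linear forms as lists -/

/-- a linear form -/
abbrev Form : Type := List (ℕ × ℕ)

/-- evaluation -/
def ev (x : ℕ → ZMod 3) : Form → ZMod 3
  | [] => 0
  | e :: f => (e.2 : ZMod 3) * x e.1 + ev x f

lemma ev_append (x : ℕ → ZMod 3) (f g : Form) : ev x (f ++ g) = ev x f + ev x g := by
  induction f with
  | nil => simp [ev]
  | cons e f ih => simp only [List.cons_append, ev, ih]; ring

lemma ev_flatMap {α : Type} (x : ℕ → ZMod 3) (L : List α) (f : α → Form) :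
    ev x (L.flatMap f) = (L.map fun e => ev x (f e)).sum := by
  induction L with
  | nil => simp [ev]
  | cons e L ih => rw [List.flatMap_cons, ev_append, ih, List.map_cons, List.sum_cons]

lemma ev_map {α : Type} (x : ℕ → ZMod 3) (L : List α) (f : α → ℕ × ℕ) :
    ev x (L.map f) = (L.map fun e => ((f e).2 : ZMod 3) * x (f e).1).sum := by
  induction L with
  | nil => simp [ev]
  | cons e L ih => rw [List.map_cons, ev, ih, List.map_cons, List.sum_cons]

/-- insertion of a term into a sorted form -/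
def ins (v c : ℕ) : Form → Form
  | [] => [(v, c)]
  | (w, e) :: f => if v < w then (v, c) :: (w, e) :: f
      else if v = w then (if (c + e) % 3 = 0 then f else (v, (c + e) % 3) :: f)
      else (w, e) :: ins v c f

lemma cast_mod (n : ℕ) : ((n % 3 : ℕ) : ZMod 3) = n := by
  rw [ZMod.natCast_mod]

lemma ev_ins (x : ℕ → ZMod 3) (v c : ℕ) (f : Form) : ev x (ins v c f) = c * x v + ev x f := by
  induction f with
  | nil => simp [ins, ev]
  | cons p f ih =>
    obtain ⟨w, e⟩ := p
    unfold ins
    split_ifs with h1 h2 h3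
    · simp [ev]
    · subst h2
      have : ((c + e : ℕ) : ZMod 3) = 0 := by rw [← cast_mod, h3]; rfl
      push_cast at this
      simp only [ev]
      linear_combination - x v * this
    · subst h2
      simp only [ev, cast_mod]
      push_cast
      ring
    · simp only [ev, ih]
      ring

/-- add `m` times a form -/
def addm (m : ℕ) : Form → Form → Form
  | [], acc => acc
  | e :: f, acc => addm m f (ins e.1 ((m * e.2) % 3) acc)

lemma ev_addm (x : ℕ → ZMod 3) (m : ℕ) (f acc : Form) :
    ev x (addm m f acc) = m * ev x f + ev x acc := by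
  induction f generalizing acc with
  | nil => simp [addm, ev]
  | cons e f ih =>
    unfold addm
    rw [ih, ev_ins, cast_mod]
    simp only [ev]
    push_cast
    ring

/-- equality test -/
def eqf : Form → Form → Bool
  | [], [] => true
  | e :: f, e' :: g => Nat.beq e.1 e'.1 && (Nat.beq e.2 e'.2 && eqf f g)
  | _, _ => false

lemma eqf_spec : ∀ f g : Form, eqf f g = true → f = g
  | [], [], _ => rfl
  | [], _ :: _, h => by simp [eqf] at h
  | _ :: _, [], h => by simp [eqf] at h
  | e :: f, e' :: g, h => by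
    simp only [eqf, Bool.and_eq_true] at h
    obtain ⟨h1, h2, h3⟩ := h
    rw [eqf_spec f g h3]
    congr 1
    exact Prod.ext (Nat.eq_of_beq_eq_true h1) (Nat.eq_of_beq_eq_true h2)

/-- accumulate multiples of known forms -/
def comb (done : List Form) : List (ℕ × ℕ) → Form → Form
  | [], acc => acc
  | e :: ms, acc => comb done ms (addm e.2 (done.getD e.1 []) acc)

/-- the checker -/
def chk (rows : ℕ → Form) : List Form → List (ℕ × List (ℕ × ℕ) × Form) → Bool
  | _, [] => true
  | done, s :: rest =>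
    eqf (comb done s.2.1 (addm 1 (rows s.1) [])) s.2.2 && chk rows (s.2.2 :: done) rest

lemma ev_comb (x : ℕ → ZMod 3) (done : List Form) (h : ∀ F ∈ done, ev x F = 0)
    (ms : List (ℕ × ℕ)) (acc : Form) : ev x (comb done ms acc) = ev x acc := by
  induction ms generalizing acc with
  | nil => rfl
  | cons e ms ih =>
    unfold comb
    rw [ih, ev_addm]
    have : ev x (done.getD e.1 []) = 0 := by
      rw [List.getD_eq_getElem?_getD]
      cases hq : done[e.1]? with
      | none => rfl
      | some F => exact h F (List.mem_of_getElem? hq)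
    rw [this]
    ring

lemma chk_spec (x : ℕ → ZMod 3) (rows : ℕ → Form) (hr : ∀ r, ev x (rows r) = 0)
    (steps : List (ℕ × List (ℕ × ℕ) × Form)) (done : List Form) (h : ∀ F ∈ done, ev x F = 0)
    (hc : chk rows done steps = true) : ∀ s ∈ steps, ev x s.2.2 = 0 := by
  induction steps generalizing done with
  | nil => intro s hs; simp at hs
  | cons s steps ih =>
    simp only [chk, Bool.and_eq_true] at hc
    obtain ⟨h1, h2⟩ := hc
    have h3 : ev x s.2.2 = 0 := by
      rw [← eqf_spec _ _ h1, ev_comb x done h, ev_addm, hr]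
      simp [ev]
    intro s' hs'
    rcases List.mem_cons.mp hs' with rfl | hs'
    · exact h3
    · refine ih (s.2.2 :: done) ?_ h2 s' hs'
      intro F hF
      rcases List.mem_cons.mp hF with rfl | hF
      · exact h3
      · exact h F hF

/-- remove the variables known to vanish -/
def rem (Z : ℕ) : Form → Form
  | [] => []
  | e :: f => if Z.testBit e.1 then rem Z f else e :: rem Z f

lemma ev_rem (x : ℕ → ZMod 3) (Z : ℕ) (hZ : ∀ v, Z.testBit v = true → x v = 0) (f : Form) :
    ev x (rem Z f) = ev x f := by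
  induction f with
  | nil => rfl
  | cons e f ih =>
    unfold rem
    split_ifs with h
    · rw [ih]
      simp only [ev, hZ _ h]
      ring
    · simp only [ev, ih]

/-- one variable form -/
def single? : Form → Option ℕ
  | [(v, 1)] => some v
  | [(v, 2)] => some v
  | _ => none

/-- back substitution -/
def back : ℕ → List Form → ℕ
  | Z, [] => Z
  | Z, F :: L => match single? (rem Z F) with
    | some v => back (Z ||| (1 <<< v)) L
    | none => back Z L

lemma single_spec (x : ℕ → ZMod 3) (f : Form) (v : ℕ) (h : single? f = some v)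
    (hf : ev x f = 0) : x v = 0 := by
  unfold single? at h
  split at h
  · have h' := Option.some.inj h
    subst h'
    simpa [ev] using hf
  · have h' := Option.some.inj h
    subst h'
    rename_i v
    have h2 : (2 : ZMod 3) * x v = 0 := by simpa [ev] using hf
    have h3 : (2 : ZMod 3) * 2 = 1 := by decide
    linear_combination 2 * h2 - x v * h3
  · exact absurd h (by simp)

lemma back_spec (x : ℕ → ZMod 3) (L : List Form) (hL : ∀ F ∈ L, ev x F = 0) (Z : ℕ)
    (hZ : ∀ v, Z.testBit v = true → x v = 0) :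
    ∀ v, (back Z L).testBit v = true → x v = 0 := by
  induction L generalizing Z with
  | nil => exact hZ
  | cons F L ih =>
    unfold back
    split
    · rename_i v hv
      apply ih (fun F' hF' => hL F' (List.mem_cons_of_mem _ hF'))
      intro w hw
      rw [Nat.testBit_or, Bool.or_eq_true] at hw
      rcases hw with hw | hw
      · exact hZ w hw
      · rw [Nat.one_shiftLeft, Nat.testBit_two_pow] at hw
        have hvw : v = w := by simpa using hw
        subst hvw
        apply single_spec x (rem Z F) v hv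
        rw [ev_rem x Z hZ]
        exact hL F List.mem_cons_self
    · exact ih (fun F' hF' => hL F' (List.mem_cons_of_mem _ hF')) Z hZ

/-! ### The rows -/

/-- index of a variable -/
def idx (a p q : Fin 9) : ℕ := a.val * 81 + p.val * 9 + q.val

/-- the values of the variables -/
def xx (c : Fin 9 → Fin 9 → Fin 9 → ZMod 3) (n : ℕ) : ZMod 3 :=
  c (Fin.ofNat 9 (n / 81)) (Fin.ofNat 9 (n / 9)) (Fin.ofNat 9 n)

lemma xx_idx (c : Fin 9 → Fin 9 → Fin 9 → ZMod 3) (a p q : Fin 9) : xx c (idx a p q) = c a p q := by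
  have ha := a.isLt
  have hp := p.isLt
  have hq := q.isLt
  have h1 : Fin.ofNat 9 (idx a p q / 81) = a := by
    apply Fin.ext
    show (a.val * 81 + p.val * 9 + q.val) / 81 % 9 = a.val
    omega
  have h2 : Fin.ofNat 9 (idx a p q / 9) = p := by
    apply Fin.ext
    show (a.val * 81 + p.val * 9 + q.val) / 9 % 9 = p.val
    omega
  have h3 : Fin.ofNat 9 (idx a p q) = q := by
    apply Fin.ext
    show (a.val * 81 + p.val * 9 + q.val) % 9 = q.val
    omega
  unfold xx
  rw [h1, h2, h3]

/-- terms of `s * co * wd (c a) (un b) p q r` -/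
def wt (a b : Fin 9) (s : ℕ) (e : Fin 9 × Fin 9 × Fin 9 × ℕ) : Form :=
  (if b = e.2.2.1 then [(idx a e.1 e.2.1, s * e.2.2.2)] else []) ++
  ((if b = e.2.1 then [(idx a e.1 e.2.2.1, 2 * s * e.2.2.2)] else []) ++
  (if b = e.1 then [(idx a e.2.1 e.2.2.1, s * e.2.2.2)] else []))

lemma ev_wt (c : Fin 9 → Fin 9 → Fin 9 → ZMod 3) (a b : Fin 9) (s : ℕ)
    (e : Fin 9 × Fin 9 × Fin 9 × ℕ) :
    ev (xx c) (wt a b s e) = s * ((e.2.2.2 : ZMod 3) * wd (c a) (un b) e.1 e.2.1 e.2.2.1) := by
  unfold wt
  rw [ev_append, ev_append]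
  have h2 : (2 : ZMod 3) = -1 := by decide
  have h : ∀ (r : Fin 9) (v w : ℕ), ev (xx c) (if b = r then [(v, w)] else [])
      = (w : ZMod 3) * xx c v * un b r := by
    intro r v w
    by_cases hb : b = r
    · subst hb
      rw [if_pos rfl]
      simp [ev, un]
    · rw [if_neg hb]
      simp [ev, un, Ne.symm hb]
  rw [h, h, h, xx_idx, xx_idx, xx_idx]
  unfold wd
  push_cast
  rw [h2]
  ring

variable {m : ℕ}

/-- the terms of the equation `(i, l)` -/
def rowT (wl : Fin 9 → List (Fin 9 × Fin 9)) (TL : Fin m → List (Fin 9 × Fin 9 × Fin 9 × ℕ))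
    (KL : Fin m → List (Fin 9 × Fin 9 × ℕ)) (i : Fin 9) (l : Fin m) : Form :=
  ((wl i).flatMap fun e => (TL l).flatMap fun q => wt e.1 e.2 1 q ++ wt e.2 e.1 2 q) ++
    (KL l).map fun q => (idx i q.1 q.2.1, 2 * q.2.2)

lemma ev_rowA (TL : Fin m → List (Fin 9 × Fin 9 × Fin 9 × ℕ))
    (c : Fin 9 → Fin 9 → Fin 9 → ZMod 3) (l : Fin m) (e : Fin 9 × Fin 9) :
    ev (xx c) ((TL l).flatMap fun q => wt e.1 e.2 1 q ++ wt e.2 e.1 2 q)
      = ((TL l).map fun q => (q.2.2.2 : ZMod 3) * wd (c e.1) (un e.2) q.1 q.2.1 q.2.2.1).sum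
        - ((TL l).map fun q => (q.2.2.2 : ZMod 3) * wd (c e.2) (un e.1) q.1 q.2.1 q.2.2.1).sum := by
  have h2 : (2 : ZMod 3) = -1 := by decide
  rw [ev_flatMap]
  induction TL l with
  | nil => simp
  | cons q L ih =>
    simp only [List.map_cons, List.sum_cons]
    rw [ih, ev_append, ev_wt, ev_wt]
    push_cast
    rw [h2]
    ring

lemma ev_rowB (KL : Fin m → List (Fin 9 × Fin 9 × ℕ))
    (c : Fin 9 → Fin 9 → Fin 9 → ZMod 3) (i : Fin 9) (l : Fin m) :
    ev (xx c) ((KL l).map fun q => (idx i q.1 q.2.1, 2 * q.2.2))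
      = - ((KL l).map fun q => (q.2.2 : ZMod 3) * c i q.1 q.2.1).sum := by
  have h2 : (2 : ZMod 3) = -1 := by decide
  rw [ev_map]
  induction KL l with
  | nil => simp
  | cons q L ih =>
    simp only [List.map_cons, List.sum_cons]
    rw [ih, xx_idx]
    push_cast
    rw [h2]
    ring

lemma ev_rowT (D : Dat 9 m) (TL : Fin m → List (Fin 9 × Fin 9 × Fin 9 × ℕ))
    (KL : Fin m → List (Fin 9 × Fin 9 × ℕ)) (hT : D.t = tOf TL) (hK : D.k = kOf KL)
    (c : Fin 9 → Fin 9 → Fin 9 → ZMod 3) (i : Fin 9) (l : Fin m) :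
    ev (xx c) (rowT D.wl TL KL i l) = D.EE c i l := by
  have e1 : ∀ e : Fin 9 × Fin 9,
      ev (xx c) ((TL l).flatMap fun q => wt e.1 e.2 1 q ++ wt e.2 e.1 2 q)
      = F D.t l (c e.1) (un e.2) - F D.t l (c e.2) (un e.1) := by
    intro e
    rw [ev_rowA, hT, F_apply, F_apply, pr_tOf, pr_tOf]
  have e2 : ev (xx c) ((KL l).map fun q => (idx i q.1 q.2.1, 2 * q.2.2)) = - D.kap l (c i) := by
    rw [ev_rowB]
    unfold Dat.kap
    rw [hK, kap_kOf]
  unfold rowT Dat.EE
  rw [ev_append, ev_flatMap, e2, sub_eq_add_neg]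
  simp only [e1]

end Pool.Agent.H247R3
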