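import Pool.Agent.H247R3.EngCert

set_option autoImplicit false

namespace Pool.Agent.H247R3

set_option linter.all false

open HH

/-- the words -/
def wlF (i : Fin 9) : List (Fin 9 × Fin 9) := wlL.getD i.val []

/-- the tensors -/
def TLF (l : Fin 40) : List (Fin 9 × Fin 9 × Fin 9 × ℕ) := TLL.getD l.val []

/-- the matrices -/
def KLF (l : Fin 40) : List (Fin 9 × Fin 9 × ℕ) := KLL.getD l.val []

/-- integer version of `wd (W i) (un j)` -/
def wz (i j : Fin 9) (e : Fin 9 × Fin 9 × Fin 9 × ℕ) : ℤ :=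
  (if j = e.2.2.1 then W wlF i e.1 e.2.1 else 0) - (if j = e.2.1 then W wlF i e.1 e.2.2.1 else 0)
    + (if j = e.1 then W wlF i e.2.1 e.2.2.1 else 0)

/-- integer version of `kOf` -/
def kz (l : Fin 40) (i j : Fin 9) : ℤ :=
  ((KLF l).map fun e => if e.1 = i ∧ e.2.1 = j then (e.2.2 : ℤ) else 0).sum

/-- the identity to be checked -/
def hz (l : Fin 40) (i j : Fin 9) : ℤ :=
  ((TLF l).map fun e => (e.2.2.2 : ℤ) * wz i j e).sum - (kz l i j - kz l j i)

lemma hz_ok : ∀ (l : Fin 40) (i j : Fin 9), hz l i j % 3 = 0 := by decide +kernel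

lemma cast_of_mod {z : ℤ} (h : z % 3 = 0) : (z : ZMod 3) = 0 := by
  rw [ZMod.intCast_zmod_eq_zero_iff_dvd]
  exact Int.dvd_of_emod_eq_zero h

lemma TLF_ok : ∀ l, ∀ e ∈ TLF l, e.1 < e.2.1 ∧ e.2.1 < e.2.2.1 := by decide +kernel

lemma KLF_ok : ∀ l, ∀ e ∈ KLF l, e.1 < e.2.1 := by decide +kernel

lemma cast_wz (i j : Fin 9) (e : Fin 9 × Fin 9 × Fin 9 × ℕ) :
    wd (fun p q => (W wlF i p q : ZMod 3)) (un j) e.1 e.2.1 e.2.2.1 = (wz i j e : ZMod 3) := by
  have h : ∀ (r : Fin 9) (w : ℤ), (w : ZMod 3) * un j r = ((if j = r then w else 0 : ℤ) : ZMod 3) := by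
    intro r w
    by_cases hb : j = r
    · subst hb; simp [un]
    · rw [if_neg hb]; simp [un, Ne.symm hb]
  unfold wd wz
  push_cast
  rw [h, h, h]
  push_cast
  ring

lemma cast_kz (l : Fin 40) (i j : Fin 9) : kOf KLF l i j = (kz l i j : ZMod 3) := by
  unfold kOf kz
  rw [Int.cast_list_sum, List.map_map]
  congr 1
  apply List.map_congr_left
  intro e _
  simp

/-- the data -/
def D0 : Dat 9 40 where
  t := tOf TLF
  k := kOf KLF
  wl := wlF
  ht := fun l i j r h => tOf_ne TLF_ok h
  hk := fun l i j h => kOf_ne KLF_ok h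
  hK := by
    intro l i j
    rw [F_apply, pr_tOf, cast_kz, cast_kz]
    have h := cast_of_mod (hz_ok l i j)
    unfold hz at h
    push_cast at h
    rw [← sub_eq_zero, ← h]
    congr 1
    congr 1
    rw [List.map_map]
    apply List.map_congr_left
    intro e _
    rw [cast_wz]
    simp

/-! ### The certificate for `RigC` -/

/-- the rows -/
def rw0 (r : ℕ) : Form := rowT wlF TLF KLF (Fin.ofNat 9 r) (Fin.ofNat 40 (r / 9))

/-- the gauge mask -/
def mask0 : ℕ := 4835703278458516698825214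

/-- the last mask -/
def mask1 : ℕ := back mask0 ((stAll.map fun s => s.2.2).reverse)

set_option maxRecDepth 100000 in
lemma chk_ok : chk rw0 [] stAll = true := by decide +kernel

set_option maxRecDepth 100000 in
lemma mask_ok : ∀ a p q : Fin 9, p < q → mask1.testBit (idx a p q) = true := by decide +kernel

lemma mask0_ok : ∀ n : Fin 729, mask0.testBit n.val = true →
    n.val = 1 ∨ n.val = 2 ∨ n.val = 3 ∨ n.val = 4 ∨ n.val = 5 ∨ n.val = 6 ∨ n.val = 7 ∨ n.val = 8
      ∨ n.val = 82 := by decide +kernel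

lemma mask0_lt : mask0 < 2 ^ 729 := by decide +kernel

lemma mask0_spec (n : ℕ) (h : mask0.testBit n = true) :
    n = 1 ∨ n = 2 ∨ n = 3 ∨ n = 4 ∨ n = 5 ∨ n = 6 ∨ n = 7 ∨ n = 8 ∨ n = 82 := by
  by_cases hn : n < 729
  · exact mask0_ok ⟨n, hn⟩ h
  · exfalso
    have : mask0 < 2 ^ n := lt_of_lt_of_le mask0_lt (Nat.pow_le_pow_right (by norm_num) (by omega))
    rw [Nat.testBit_lt_two_pow this] at h
    exact absurd h (by simp)

theorem rigC0 : D0.RigC := by
  apply D0.rigC_of (fun c => (∀ r, r ≠ 0 → c 0 0 r = 0) ∧ c 1 0 1 = 0)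
  · intro c
    refine ⟨fun r => if r = 0 then - c 1 0 1 else c 0 0 r, fun r hr => ?_, ?_⟩
    · simp [inn, un, hr]
    · simp [inn, un]
  · intro c hc hG
    have hx : ∀ v, mask0.testBit v = true → xx c v = 0 := by
      intro v hv
      have hi : ∀ r : Fin 9, r ≠ 0 → xx c (idx 0 0 r) = 0 := fun r hr => by rw [xx_idx]; exact hG.1 r hr
      rcases mask0_spec v hv with h | h | h | h | h | h | h | h | h
      · subst h; exact hi 1 (by decide)
      · subst h; exact hi 2 (by decide)
      · subst h; exact hi 3 (by decide)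
      · subst h; exact hi 4 (by decide)
      · subst h; exact hi 5 (by decide)
      · subst h; exact hi 6 (by decide)
      · subst h; exact hi 7 (by decide)
      · subst h; exact hi 8 (by decide)
      · subst h
        have := xx_idx c 1 0 1
        rw [hG.2] at this
        exact this
    have hr : ∀ r, ev (xx c) (rw0 r) = 0 := by
      intro r
      unfold rw0
      have := ev_rowT D0 TLF KLF rfl rfl c (Fin.ofNat 9 r) (Fin.ofNat 40 (r / 9))
      rw [hc] at this
      exact this
    have h1 := chk_spec (xx c) rw0 hr stAll [] (by simp) chk_ok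
    have h2 := back_spec (xx c) ((stAll.map fun s => s.2.2).reverse) (by
      intro F hF
      rw [List.mem_reverse, List.mem_map] at hF
      obtain ⟨s, hs, rfl⟩ := hF
      exact h1 s hs) mask0 hx
    intro i p q hpq
    rw [← xx_idx c i p q]
    exact h2 _ (mask_ok i p q hpq)

end Pool.Agent.H247R3
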