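import Pool.Agent.H247R3.Eng8

set_option autoImplicit false

namespace Pool.Agent.H247R3

set_option linter.all false

open HH Matrix

/-- cast of a matrix -/
def cm (A : Fin 9 → Fin 9 → ℤ) : Matrix (Fin 9) (Fin 9) (ZMod 3) := fun i j => (A i j : ZMod 3)

/-- the sum over `Fin 9` -/
def s9 (f : Fin 9 → ℤ) : ℤ := f 0 + f 1 + f 2 + f 3 + f 4 + f 5 + f 6 + f 7 + f 8

lemma s9_eq (f : Fin 9 → ℤ) : ((s9 f : ℤ) : ZMod 3) = ∑ i, (f i : ZMod 3) := by
  unfold s9
  push_cast
  simp only [Fin.sum_univ_succ, Fin.sum_univ_zero]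
  have : ∀ i : Fin 9, True := fun _ => trivial
  simp only [Fin.succ_zero_eq_one, Fin.succ_one_eq_two]
  have e3 : Fin.succ (2 : Fin 8) = (3 : Fin 9) := rfl
  rw [add_zero]
  simp only [add_assoc]
  rfl

lemma of_mod {a b : ℤ} (h : (a - b) % 3 = 0) : (a : ZMod 3) = (b : ZMod 3) := by
  have := cast_of_mod h
  push_cast at this
  exact sub_eq_zero.mp this

lemma a1 : ∀ q, (vV q - s9 fun p => W wlF p p q) % 3 = 0 := by decide +kernel

lemma a2 : ∀ q r, (MM q r - s9 fun p => s9 fun j => W wlF j p q * W wlF p j r) % 3 = 0 := by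
  decide +kernel

lemma a3 : ∀ i j, ((s9 fun q => MM i q * NN q j) - if i = j then 1 else 0) % 3 = 0 := by
  decide +kernel

lemma a4 : ∀ i, ((s9 fun q => NN i q * vV q) - uV i) % 3 = 0 := by decide +kernel

lemma a5 : ∀ p j, (RR p j - s9 fun q => uV q * W wlF j p q) % 3 = 0 := by decide +kernel

lemma a6 : ∀ p, (KK p 0 - vV p) % 3 = 0 := by decide +kernel

lemma a7 : ∀ k : Fin 9, k = 0 ∨ ∃ k', k' < k ∧ ∀ p, (KK p k - s9 fun j => RR p j * KK j k') % 3 = 0 := by
  decide +kernel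

lemma a8 : ∀ i j, ((s9 fun q => KK i q * KI q j) - if i = j then 1 else 0) % 3 = 0 := by
  decide +kernel

lemma D0_wl : D0.wl = wlF := rfl

lemma mul_one_of (A B : Fin 9 → Fin 9 → ℤ)
    (h : ∀ i j, ((s9 fun q => A i q * B q j) - if i = j then 1 else 0) % 3 = 0) :
    cm A * cm B = 1 := by
  funext i j
  have := of_mod (h i j)
  rw [s9_eq] at this
  rw [Matrix.mul_apply]
  simp only [cm]
  push_cast at this
  rw [this, Matrix.one_apply]

theorem rigA0 : D0.RigA := by
  intro A B hAB hP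
  have key := rigA_of wlF (fun q => (vV q : ZMod 3)) (fun q => (uV q : ZMod 3)) (cm MM) (cm NN)
    (cm RR) (cm KK) (cm KI) (fun i => i)
    (by
      intro q
      have := of_mod (a1 q)
      rw [s9_eq] at this
      exact this)
    (by
      intro q r
      have := of_mod (a2 q r)
      rw [s9_eq] at this
      show (MM q r : ZMod 3) = _
      rw [this]
      refine Finset.sum_congr rfl fun p _ => ?_
      rw [s9_eq]
      refine Finset.sum_congr rfl fun j _ => ?_
      push_cast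
      rfl)
    (mul_one_of MM NN a3)
    (by
      funext i
      have := of_mod (a4 i)
      rw [s9_eq] at this
      show (∑ q, (NN i q : ZMod 3) * (vV q : ZMod 3)) = uV i
      rw [← this]
      refine Finset.sum_congr rfl fun q _ => ?_
      push_cast
      rfl)
    (by
      intro p j
      have := of_mod (a5 p j)
      rw [s9_eq] at this
      show (RR p j : ZMod 3) = _
      rw [this]
      refine Finset.sum_congr rfl fun q _ => ?_
      push_cast
      rfl)
    ⟨0, fun p => of_mod (a6 p), fun k => by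
      rcases a7 k with h | ⟨k', hk, h⟩
      · exact Or.inl h
      · refine Or.inr ⟨k', hk, fun p => ?_⟩
        have := of_mod (h p)
        rw [s9_eq] at this
        show (KK p k : ZMod 3) = _
        rw [this]
        refine Finset.sum_congr rfl fun j _ => ?_
        push_cast
        rfl⟩
    (mul_one_of KK KI a8)
    A B
    (by
      funext i j
      show (∑ r, A i r * B r j) = (1 : Matrix (Fin 9) (Fin 9) (ZMod 3)) i j
      rw [hAB, Matrix.one_apply])
    hP
  intro p q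
  rw [key, Matrix.one_apply]

lemma T0_ne : D0.t (0 : Fin 40) ((TLF 0).headD (0, 0, 0, 0)).1 ((TLF 0).headD (0, 0, 0, 0)).2.1
    ((TLF 0).headD (0, 0, 0, 0)).2.2.1 ≠ 0 := by
  show tOf TLF _ _ _ _ ≠ 0
  decide +kernel

/-- transfer to a permutation group -/
theorem transfer {Q : Type} [Group Q] [Finite Q] (S : Subgroup Q) (h1 : IsPGroup 3 Q)
    (h2 : ∀ x y : Q, (y * x * y⁻¹ * x⁻¹) * x * (y * x * y⁻¹ * x⁻¹)⁻¹ * x⁻¹ = 1)
    (h3 : S.lowerCentralSeries 3 = ⊥) (h4 : S.lowerCentralSeries 2 ≠ ⊥)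
    (h5 : ∀ α : MulAut S, ∃ β : MulAut S, ∃ h : S,
        (∀ g : S, g⁻¹ * β g ∈ Subgroup.center S) ∧ α = β * MulAut.conj h) :
    ∃ (n : ℕ) (H : Subgroup (Equiv.Perm (Fin n))),
      IsPGroup 3 H ∧
      (∀ x y : H,
        (y * x * y⁻¹ * x⁻¹) * x * (y * x * y⁻¹ * x⁻¹)⁻¹ * x⁻¹ = 1) ∧
      H.lowerCentralSeries 3 = ⊥ ∧
      H.lowerCentralSeries 2 ≠ ⊥ ∧
      ∀ α : MulAut H, ∃ β : MulAut H, ∃ h : H,
        (∀ g : H, g⁻¹ * β g ∈ Subgroup.center H) ∧ α = β * MulAut.conj h := by
  let f : Q →* Equiv.Perm (Fin (Nat.card Q)) :=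
    ((Finite.equivFin Q).permCongrHom.toMonoidHom).comp (MulAction.toPermHom Q Q)
  have hf : Function.Injective f :=
    (Finite.equivFin Q).permCongrHom.injective.comp MulAction.toPerm_injective
  let e : S ≃* S.map f := S.equivMapOfInjective f hf
  refine ⟨Nat.card Q, S.map f, ?_, ?_, ?_, ?_, ?_⟩
  · exact (h1.to_subgroup S).of_equiv e
  · intro x y
    obtain ⟨x, rfl⟩ := e.surjective x
    obtain ⟨y, rfl⟩ := e.surjective y
    have : e ((y * x * y⁻¹ * x⁻¹) * x * (y * x * y⁻¹ * x⁻¹)⁻¹ * x⁻¹) = 1 := by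
      have h : (y * x * y⁻¹ * x⁻¹) * x * (y * x * y⁻¹ * x⁻¹)⁻¹ * x⁻¹ = 1 := by
        apply Subtype.ext
        exact h2 x y
      rw [h, map_one]
    simpa only [map_mul, map_inv] using this
  · rw [← Subgroup.map_lowerCentralSeries, h3, Subgroup.map_bot]
  · rw [← Subgroup.map_lowerCentralSeries]
    intro h
    exact h4 ((Subgroup.map_eq_bot_iff_of_injective _ hf).mp h)
  · intro α
    obtain ⟨β, h, hβ, hα⟩ := h5 (e.trans (α.trans e.symm))
    refine ⟨e.symm.trans (β.trans e), e h, ?_, ?_⟩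
    · intro g
      obtain ⟨g, rfl⟩ := e.surjective g
      have h6 := hβ g
      rw [Subgroup.mem_center_iff] at h6 ⊢
      intro y
      obtain ⟨y, rfl⟩ := e.surjective y
      have h7 := congrArg e (h6 y)
      simp only [MulEquiv.trans_apply, MulEquiv.symm_apply_apply]
      simpa only [map_mul, map_inv] using h7
    · apply MulEquiv.ext
      intro g
      obtain ⟨g, rfl⟩ := e.surjective g
      have h8 := congrArg e (DFunLike.congr_fun hα g)
      simp only [MulEquiv.trans_apply, MulEquiv.apply_symm_apply, MulAut.mul_apply,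
        MulAut.conj_apply, map_mul, map_inv] at h8
      rw [h8]
      simp only [MulEquiv.trans_apply, MulAut.mul_apply, MulAut.conj_apply, map_mul, map_inv,
        MulEquiv.symm_apply_apply]

/-- the example -/
theorem caranti_example : ∃ (n : ℕ) (H : Subgroup (Equiv.Perm (Fin n))),
      IsPGroup 3 H ∧
      (∀ x y : H,
        (y * x * y⁻¹ * x⁻¹) * x * (y * x * y⁻¹ * x⁻¹)⁻¹ * x⁻¹ = 1) ∧
      H.lowerCentralSeries 3 = ⊥ ∧
      H.lowerCentralSeries 2 ≠ ⊥ ∧
      ∀ α : MulAut H, ∃ β : MulAut H, ∃ h : H,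
        (∀ g : H, g⁻¹ * β g ∈ Subgroup.center H) ∧ α = β * MulAut.conj h := by
  haveI := D0.finite_Q
  exact transfer D0.S D0.isPGroup_Q D0.engel_Q D0.lcs_three (D0.lcs_two_ne _ _ _ _ T0_ne)
    (D0.main rigA0 rigC0)

end Pool.Agent.H247R3
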