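import Pool.Agent.H247R3.EngData

set_option autoImplicit false

namespace Pool.Agent.H247R3

set_option linter.all false

/-- certificate part -/
def st0 : List (ℕ × List (ℕ × ℕ) × List (ℕ × ℕ)) :=
  [(51, [], [(327, 1)]),
   (238, [], [(194, 1)]),
   (11, [], [(568, 2)]),
   (202, [], [(680, 2)]),
   (35, [], [(673, 2)]),
   (134, [], [(679, 2)]),
   (24, [], [(169, 2)]),
   (128, [], [(589, 2)]),
   (198, [], [(32, 2)]),
   (52, [], [(573, 2)]),
   (22, [], [(655, 2)]),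
   (206, [], [(112, 1)]),
   (53, [], [(681, 2)]),
   (49, [], [(165, 1)]),
   (95, [], [(661, 2)]),
   (98, [], [(448, 2)]),
   (129, [(8, 1)], [(670, 1)]),
   (93, [(2, 2)], [(256, 1)]),
   (12, [(15, 2)], [(649, 2)]),
   (48, [(9, 1)], [(654, 1)]),
   (200, [(14, 2)], [(608, 1)]),
   (155, [(4, 1)], [(580, 2)]),
   (132, [(10, 1)], [(507, 2)]),
   (205, [(2, 2)], [(598, 2)]),
   (92, [(6, 1)], [(499, 2)]),
   (21, [(6, 2)], [(244, 1)]),
   (163, [(10, 1)], [(205, 2)]),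
   (20, [(1, 1)], [(487, 2)]),
   (207, [(4, 2)], [(602, 1)]),
   (23, [(10, 2)], [(421, 2)]),
   (96, [(3, 1)], [(502, 1)]),
   (90, [(6, 1)], [(16, 2)]),
   (47, [(22, 2)], [(570, 1)]),
   (201, [(12, 1)], [(689, 2)]),
   (6, [(20, 2)], [(166, 2)]),
   (204, [(29, 2)], [(518, 1)]),
   (2, [(33, 2)], [(163, 1)]),
   (25, [(11, 1), (0, 1)], [(406, 1)]),
   (13, [(18, 1), (1, 2)], [(651, 2)]),
   (40, [(0, 1)], [(489, 1)]),
   (42, [(0, 1)], [(84, 1)]),
   (46, [(0, 2)], [(87, 1)]),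
   (44, [(36, 2), (3, 1)], [(669, 2)]),
   (130, [(0, 1)], [(517, 2)]),
   (203, [(0, 2)], [(31, 1)])]

/-- certificate part -/
def st1 : List (ℕ × List (ℕ × ℕ) × List (ℕ × ℕ)) :=
  [(126, [(0, 2)], [(21, 1)]),
   (242, [(42, 2), (5, 2)], [(114, 2)]),
   (240, [(34, 1), (8, 2)], [(356, 1)]),
   (234, [(46, 1), (0, 1)], [(599, 2)]),
   (57, [(46, 2), (30, 2), (23, 1)], [(249, 2)]),
   (102, [(40, 1), (0, 1)], [(257, 1)]),
   (152, [(45, 1), (38, 2), (6, 2)], [(193, 1)]),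
   (199, [(0, 1)], [(122, 2)]),
   (211, [(40, 2), (6, 2), (1, 2)], [(197, 2)]),
   (45, [(21, 1)], [(195, 2), (357, 2)]),
   (33, [], [(88, 1), (493, 2)]),
   (91, [], [(286, 1), (529, 2)]),
   (159, [(40, 1), (5, 2), (4, 2)], [(498, 2), (509, 1)]),
   (158, [], [(22, 1), (508, 2)]),
   (31, [(3, 1)], [(88, 1), (331, 2)]),
   (153, [], [(12, 1), (23, 2), (41, 1)]),
   (36, [(9, 1)], [(183, 2), (345, 2), (355, 2)]),
   (81, [], [(14, 2), (44, 2), (62, 1), (224, 1), (386, 1), (575, 2), (593, 1)]),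
   (127, [], [(103, 1), (436, 1)]),
   (161, [(30, 2), (0, 2)], [(436, 1)]),
   (41, [(0, 1)], [(426, 2)]),
   (19, [(10, 1)], [(88, 1), (250, 2)]),
   (60, [(53, 1), (39, 2)], [(82, 1), (164, 1), (328, 1)]),
   (106, [], [(581, 1), (582, 1)]),
   (29, [(62, 2)], [(245, 2), (488, 2)]),
   (15, [(56, 1)], [(168, 2), (325, 1)]),
   (97, [(53, 1)], [(175, 2), (418, 1)]),
   (150, [(28, 1), (25, 2), (7, 2)], [(345, 1), (521, 1)]),
   (236, [(60, 1), (34, 2), (24, 1)], [(572, 2), (618, 1)]),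
   (241, [(41, 1), (0, 2)], [(600, 1)]),
   (180, [(53, 2)], [(12, 2), (41, 1), (51, 1), (174, 1), (185, 2), (203, 1), (336, 1), (347, 2), (365, 1), (590, 2)]),
   (166, [(71, 2)], [(529, 2), (700, 2)]),
   (27, [], [(7, 1), (187, 2), (349, 2), (488, 1)]),
   (10, [(38, 2), (28, 2)], [(246, 2), (492, 1)]),
   (165, [(62, 1), (45, 1)], [(265, 1), (284, 2)]),
   (318, [(70, 1), (30, 1)], [(305, 2), (609, 1)]),
   (151, [(57, 1), (6, 2)], [(591, 2), (611, 1)]),
   (146, [(30, 2), (17, 2), (0, 2)], [(588, 1)]),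
   (142, [(61, 1), (34, 1), (0, 1)], [(590, 2)]),
   (144, [(39, 2), (1, 1)], [(33, 1), (35, 2)]),
   (261, [(77, 1), (63, 2), (56, 2), (39, 2), (31, 1), (0, 1)], [(3, 2), (11, 2), (13, 1), (17, 1), (42, 2), (61, 1), (359, 1), (497, 1), (498, 1), (519, 1), (579, 2), (601, 1)]),
   (239, [(46, 1)], [(3, 1), (33, 2), (519, 1)]),
   (167, [(70, 1), (53, 1)], [(43, 1), (529, 2)]),
   (63, [(61, 2), (48, 2)], [(3, 2), (6, 1), (7, 1), (53, 2), (183, 1), (196, 2), (204, 2), (215, 2), (345, 1), (358, 2), (366, 2), (367, 2), (377, 2), (490, 1), (571, 2)]),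
   (26, [], [(412, 1), (664, 2)])]

/-- certificate part -/
def st2 : List (ℕ × List (ℕ × ℕ) × List (ℕ × ℕ)) :=
  [(237, [(16, 1)], [(653, 1), (699, 2)]),
   (135, [(82, 1), (69, 2)], [(12, 2), (579, 2)]),
   (84, [(82, 2), (42, 2), (10, 1)], [(267, 1), (287, 2), (611, 1)]),
   (100, [], [(89, 2), (95, 2), (177, 1), (294, 1), (537, 2)]),
   (75, [(44, 1), (24, 1)], [(247, 2), (248, 1), (296, 2), (488, 2), (572, 1)]),
   (216, [(86, 2), (51, 1), (50, 2), (36, 1)], [(12, 1), (26, 1), (34, 2), (52, 2), (508, 2), (527, 2), (593, 2)]),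
   (226, [(84, 2), (23, 2), (16, 1), (15, 2)], [(93, 2), (104, 1), (123, 1), (125, 2), (183, 2), (278, 2), (284, 2), (345, 2), (418, 1), (437, 1), (508, 1), (548, 1), (609, 2)]),
   (170, [], [(124, 1), (691, 2)]),
   (168, [(0, 1)], [(511, 1), (538, 1), (691, 1)]),
   (18, [(71, 1)], [(178, 2), (340, 2)]),
   (88, [(78, 2)], [(611, 2), (629, 1)]),
   (304, [(93, 2), (91, 1), (80, 1), (79, 1), (27, 1), (0, 1)], [(571, 1)]),
   (38, [(0, 1)], [(569, 1)]),
   (56, [(100, 1), (66, 1), (1, 2)], [(168, 2)]),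
   (4, [(85, 1), (65, 1), (33, 2), (0, 1)], [(652, 2)]),
   (39, [(3, 2), (2, 1), (0, 1)], [(650, 2)]),
   (196, [(103, 1), (84, 1), (73, 2), (14, 2), (3, 2)], [(12, 1)]),
   (58, [(87, 1), (79, 1), (72, 1), (68, 2), (36, 1), (3, 2), (1, 1)], [(330, 2)]),
   (79, [(98, 2), (6, 2), (5, 2)], [(575, 1), (620, 2)]),
   (32, [(19, 1), (3, 2)], [(430, 2), (664, 2)]),
   (212, [(45, 2), (35, 2)], [(438, 1), (440, 2)]),
   (137, [(89, 2), (68, 2), (27, 2), (19, 1), (4, 1)], [(177, 1), (582, 2)]),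
   (276, [(101, 2), (84, 1), (81, 2), (54, 2), (25, 2), (12, 1), (6, 1)], [(3, 2), (33, 1), (86, 2), (93, 2), (97, 2), (178, 2), (183, 2), (187, 2), (223, 2), (359, 2), (376, 2), (438, 1), (497, 1), (498, 1), (547, 2), (709, 2)]),
   (124, [(91, 2)], [(584, 2), (609, 2)]),
   (232, [(92, 1), (90, 1), (65, 1), (31, 1), (30, 2), (22, 2), (13, 1), (7, 2), (0, 1)], [(629, 1)]),
   (322, [(93, 2), (0, 1)], [(609, 2)]),
   (187, [(113, 2), (95, 2), (94, 1), (42, 2), (34, 1), (15, 1), (14, 2), (13, 1), (1, 2)], [(582, 1)]),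
   (182, [(114, 2), (95, 2), (33, 1), (12, 1), (11, 2), (5, 2), (0, 2)], [(203, 1), (672, 1)]),
   (99, [(49, 1), (1, 2)], [(14, 1), (224, 2), (386, 2), (575, 1)]),
   (9, [(116, 2), (7, 1), (2, 1)], [(174, 2), (336, 2), (339, 2)]),
   (120, [(117, 1), (94, 2), (70, 1), (3, 2)], [(258, 1), (260, 2), (285, 2)]),
   (0, [(49, 2)], [(1, 2), (174, 1), (336, 1), (337, 2), (418, 2)]),
   (69, [(82, 2), (81, 1), (54, 2)], [(82, 2), (164, 2), (410, 1), (539, 2), (656, 1)]),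
   (80, [(106, 1), (17, 1), (5, 2)], [(5, 1), (89, 2), (167, 1), (203, 2), (701, 1)]),
   (28, [(34, 1)], [(88, 2), (664, 2)]),
   (14, [(87, 2)], [(417, 2), (420, 2)]),
   (140, [(103, 2), (80, 2), (0, 1)], [(418, 1)]),
   (5, [(89, 2), (0, 1)], [(417, 1)]),
   (230, [(105, 2), (104, 1), (82, 2), (63, 2), (36, 2), (21, 2), (11, 1), (0, 1)], [(422, 1), (447, 1)]),
   (119, [(91, 2), (27, 2), (26, 2), (25, 1), (15, 2), (13, 1), (3, 1), (1, 1)], [(179, 2), (204, 2)]),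
   (148, [(118, 1), (43, 1)], [(3, 1), (33, 2), (183, 1), (683, 2)]),
   (147, [(107, 1), (49, 1), (13, 2)], [(203, 2), (274, 2), (692, 2)]),
   (162, [(44, 2)], [(25, 2), (52, 2), (508, 1), (527, 2), (529, 1)]),
   (89, [(29, 2)], [(6, 2), (24, 1), (94, 1), (186, 1), (446, 2), (692, 2)]),
   (30, [(67, 2), (64, 1), (28, 2), (9, 2)], [(488, 2), (664, 1)])]

/-- certificate part -/
def st3 : List (ℕ × List (ℕ × ℕ) × List (ℕ × ℕ)) :=
  [(259, [(86, 1), (60, 2), (52, 1), (32, 1), (26, 1), (20, 2)], [(572, 1), (593, 1)]),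
   (215, [(123, 1)], [(33, 1), (195, 1)]),
   (260, [(135, 2), (133, 2), (128, 1), (124, 1), (123, 2), (96, 1), (91, 1), (0, 2)], [(3, 1), (116, 2), (183, 2)]),
   (1, [(98, 1)], [(82, 2), (246, 1), (247, 2), (490, 1)]),
   (145, [(127, 2)], [(102, 1), (105, 1), (125, 2), (438, 1)]),
   (235, [(126, 1), (3, 2)], [(33, 2), (86, 1), (113, 1), (132, 2)]),
   (103, [(99, 1), (50, 1), (33, 2)], [(170, 2), (176, 1), (338, 1), (653, 1)]),
   (72, [(39, 2)], [(2, 2), (4, 1), (6, 2), (53, 2), (184, 2), (186, 1), (215, 2), (346, 2), (348, 1), (377, 2)]),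
   (74, [(108, 2), (40, 1), (39, 1)], [(164, 1), (215, 2), (410, 1), (656, 1)]),
   (67, [(143, 2), (133, 2), (124, 1), (109, 1), (104, 1), (84, 2), (36, 2), (19, 2)], [(86, 2), (329, 2), (377, 2), (664, 1)]),
   (76, [(77, 1), (66, 1), (39, 1), (37, 1), (0, 2)], [(82, 1), (246, 2), (326, 1), (490, 1), (664, 2)]),
   (334, [(123, 2), (106, 1), (99, 2), (35, 1), (18, 1), (8, 1)], [(3, 1), (86, 1), (89, 2), (92, 1), (97, 1), (107, 1), (143, 1), (152, 2), (164, 1), (178, 2), (183, 2), (246, 1), (264, 1), (295, 2), (304, 1), (410, 1), (438, 1), (476, 2), (538, 1), (547, 2)]),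
   (183, [(144, 1), (132, 2), (128, 1), (125, 2)], [(258, 1), (284, 1)]),
   (113, [(125, 2), (110, 1), (102, 2), (20, 2)], [(660, 1), (663, 2)]),
   (210, [(74, 2), (34, 1), (33, 2)], [(276, 2), (690, 2), (710, 2)]),
   (104, [(140, 1)], [(15, 2), (413, 2), (419, 2), (467, 2), (501, 1)]),
   (73, [(109, 2)], [(85, 2), (134, 2), (170, 1), (409, 2), (411, 1)]),
   (114, [(138, 1), (124, 2), (121, 2), (109, 2), (52, 2)], [(113, 2), (178, 1), (196, 2), (223, 1), (498, 2)]),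
   (227, [(110, 2), (101, 2), (88, 2), (69, 2), (52, 1), (39, 2), (38, 2), (37, 1), (27, 2)], [(174, 2), (204, 1)]),
   (117, [(52, 1), (51, 1), (40, 1), (38, 2), (24, 2)], [(6, 2), (11, 1), (13, 2), (17, 2), (42, 2), (186, 2), (341, 2), (348, 2), (366, 2)]),
   (274, [(150, 2), (144, 2), (124, 1), (112, 2), (108, 2), (101, 2), (95, 2), (84, 2), (55, 1), (51, 1), (30, 2)], [(214, 2), (335, 1), (347, 1), (385, 2), (491, 2), (498, 2), (664, 1), (709, 2)]),
   (94, [], [(664, 2), (691, 1)]),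
   (208, [(145, 2), (110, 1), (19, 2)], [(3, 2), (123, 2), (143, 2), (183, 1)]),
   (37, [], [(83, 2), (85, 1), (408, 2)]),
   (64, [(118, 2), (117, 1), (7, 2), (0, 1)], [(409, 1), (411, 2)]),
   (77, [(24, 2), (0, 1)], [(8, 2), (427, 2), (429, 1), (458, 1), (494, 1), (593, 2)]),
   (59, [(123, 1), (33, 1), (1, 2)], [(416, 1), (447, 2)]),
   (252, [(160, 2), (153, 1), (133, 2), (116, 1), (114, 2), (108, 2), (77, 2)], [(3, 2), (183, 1), (345, 1), (359, 2)]),
   (107, [(59, 1)], [(6, 1), (96, 2), (456, 2), (662, 1), (710, 2)]),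
   (320, [(154, 1), (48, 1)], [(413, 2), (447, 2), (449, 2), (467, 1)]),
   (176, [(157, 1), (155, 1), (83, 1), (64, 1), (50, 2), (48, 1), (36, 1), (0, 2)], [(431, 2), (467, 2), (578, 1)]),
   (112, [(130, 1), (127, 2), (95, 1), (66, 1), (62, 2)], [(178, 1), (336, 2), (682, 2), (709, 1)]),
   (225, [(158, 1), (122, 2), (82, 2), (60, 1), (53, 2), (51, 1)], [(11, 2), (13, 1), (33, 2), (42, 1)]),
   (171, [(54, 2), (52, 1), (0, 2)], [(26, 2), (33, 1), (62, 2), (224, 2), (386, 2), (575, 1), (593, 1)]),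
   (157, [(163, 1)], [(527, 2), (660, 1), (671, 2)]),
   (341, [(163, 1), (157, 2), (156, 1), (151, 2), (124, 2), (104, 2), (37, 2), (33, 1), (11, 2), (0, 1)], [(3, 2), (7, 1), (52, 1), (85, 2), (97, 1), (183, 1), (187, 2), (457, 1), (466, 2), (508, 2), (529, 2), (659, 2), (664, 2), (719, 2)]),
   (256, [(131, 1), (130, 1), (124, 2), (117, 2), (98, 2)], [(102, 1), (113, 2), (345, 2)]),
   (34, [(102, 2), (37, 1)], [(164, 2), (407, 1), (574, 1), (664, 1)]),
   (101, [(104, 2), (56, 1), (24, 1)], [(176, 1), (411, 1), (575, 2), (660, 1)]),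
   (109, [(134, 2)], [(82, 1), (93, 2), (97, 2), (104, 1), (183, 2), (246, 2), (277, 2), (304, 1), (437, 1), (520, 1), (547, 2)]),
   (83, [(160, 2)], [(206, 2), (411, 2), (429, 1), (575, 1), (593, 2)]),
   (87, [(161, 2)], [(143, 2), (203, 1), (332, 1), (350, 2), (411, 2), (429, 1), (500, 1), (530, 2)]),
   (271, [(170, 2), (154, 1), (147, 1), (130, 1), (78, 2), (52, 2), (49, 2), (39, 2), (20, 1)], [(3, 2), (82, 1), (92, 2), (97, 2), (104, 1), (133, 2), (142, 2), (143, 2), (164, 1), (183, 1), (223, 2), (264, 2), (268, 2), (304, 2), (410, 1), (538, 2), (547, 1)]),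
   (254, [(176, 2), (164, 2), (149, 1), (139, 1), (112, 2), (75, 1), (69, 1), (63, 2), (47, 1), (42, 2), (41, 2)], [(3, 1), (33, 1), (408, 1), (437, 1), (438, 1)]),
   (257, [(146, 2), (139, 2), (130, 1), (106, 2), (104, 2), (96, 1), (94, 2), (68, 1), (0, 1)], [(345, 2), (408, 2)])]

/-- certificate part -/
def st4 : List (ℕ × List (ℕ × ℕ) × List (ℕ × ℕ)) :=
  [(116, [(176, 2), (161, 2)], [(102, 1), (408, 1), (439, 1), (466, 2), (660, 1), (664, 1)]),
   (82, [(109, 2), (54, 1)], [(89, 1), (107, 2), (125, 2), (284, 1), (467, 1), (527, 2)]),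
   (287, [(175, 2), (168, 1), (148, 2), (140, 1), (139, 1), (136, 2), (91, 1), (49, 2), (24, 2), (23, 2), (12, 1)], [(7, 2), (52, 1), (143, 1), (187, 2), (408, 2), (508, 2), (529, 2), (719, 1)]),
   (324, [(162, 1), (138, 2), (98, 1), (95, 1), (47, 1)], [(5, 2), (33, 1), (52, 2), (71, 1), (203, 1), (213, 2), (365, 1), (375, 2), (527, 2), (529, 2), (530, 2), (593, 1)]),
   (251, [(180, 2), (177, 1), (143, 1), (141, 1), (107, 1), (86, 2), (78, 2), (74, 2), (60, 1), (51, 1), (25, 2), (17, 1), (11, 1), (1, 1)], [(85, 2), (106, 1), (115, 2), (143, 1), (164, 2), (178, 1), (203, 2), (336, 2), (408, 2), (527, 2), (529, 2), (574, 1), (659, 1), (660, 1), (664, 2), (709, 1)]),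
   (247, [(184, 2), (180, 1), (157, 1), (154, 2), (146, 1), (145, 1), (137, 2), (125, 2), (114, 1), (108, 2), (107, 2), (85, 2), (81, 2), (79, 1), (60, 1), (50, 2), (40, 1), (39, 1)], [(7, 2), (82, 1), (106, 2), (178, 1), (246, 2), (329, 1), (347, 2), (367, 2), (385, 1), (395, 1), (490, 1), (491, 2), (520, 1), (529, 1), (538, 1), (547, 2), (557, 2), (664, 1)]),
   (174, [(178, 1), (176, 1), (136, 1), (106, 2), (105, 1), (104, 1), (93, 2), (70, 1), (69, 1), (65, 1)], [(254, 1), (284, 1), (578, 1)]),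
   (300, [(177, 1), (166, 2), (137, 1), (107, 1), (106, 2), (71, 2), (70, 2), (66, 2), (0, 1)], [(248, 1), (294, 2)]),
   (327, [(164, 2), (154, 1), (95, 2), (0, 2)], [(267, 2), (284, 2), (610, 1), (692, 2)]),
   (321, [], [(94, 1), (184, 1), (332, 2), (368, 2), (411, 1), (447, 1), (497, 2), (528, 2), (548, 1)]),
   (282, [(187, 2), (171, 2), (157, 1), (123, 2), (107, 2), (87, 2), (84, 1), (65, 2)], [(251, 1), (264, 1), (268, 2), (269, 1), (294, 2), (314, 2), (574, 2), (575, 2), (592, 2), (593, 1), (656, 1), (664, 1)]),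
   (336, [(188, 1), (172, 1), (165, 1), (158, 1), (140, 1), (124, 1), (116, 1), (108, 2), (76, 2), (66, 1), (43, 2), (42, 2), (41, 1), (4, 1), (3, 2), (0, 2)], [(246, 2), (251, 1), (259, 2), (294, 2), (574, 2), (656, 2), (659, 2), (660, 2), (662, 1), (664, 1), (690, 2)]),
   (164, [(112, 1), (35, 1)], [(508, 2), (527, 1), (664, 2)]),
   (275, [(177, 2), (163, 2), (155, 2), (137, 2), (118, 2), (103, 1), (102, 2), (88, 2), (82, 2), (68, 2), (58, 1), (44, 1), (31, 2)], [(2, 2), (7, 1), (61, 1), (428, 2), (447, 1), (466, 2), (547, 2), (659, 1), (660, 1), (664, 1)]),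
   (78, [(152, 1), (115, 2), (71, 2), (48, 1)], [(82, 2), (85, 1), (164, 1), (664, 2)]),
   (286, [(192, 1), (185, 1), (166, 2), (162, 1), (121, 1), (93, 1), (79, 1), (29, 1)], [(170, 2), (188, 2), (251, 2), (269, 2), (413, 1), (467, 2), (575, 1), (578, 1), (593, 2), (638, 1)]),
   (345, [(193, 2), (181, 2), (178, 1), (174, 2), (170, 1), (162, 1), (146, 2), (139, 1), (122, 2), (112, 1), (101, 2), (78, 1), (75, 1), (61, 1), (48, 1), (47, 2), (8, 1)], [(203, 1), (259, 2), (266, 1), (267, 2), (285, 2), (304, 1), (529, 2), (659, 2), (660, 2), (664, 1)]),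
   (50, [], [(408, 1), (438, 2)]),
   (213, [(136, 1), (111, 1), (35, 2), (18, 1), (0, 1)], [(3, 2), (33, 2), (183, 1)]),
   (296, [(195, 2), (185, 2), (167, 2), (156, 1), (101, 1), (68, 2), (20, 2), (1, 2), (0, 1)], [(3, 1), (33, 2), (93, 2), (102, 1), (178, 2), (408, 1), (476, 1), (660, 2), (662, 2)]),
   (315, [(99, 1), (85, 2), (32, 1)], [(33, 2), (224, 2), (386, 2), (575, 1)]),
   (288, [(192, 1), (147, 2), (113, 2), (94, 1), (82, 1), (38, 2), (0, 2)], [(33, 1), (52, 1), (503, 1), (527, 1), (529, 1)]),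
   (54, [(100, 1), (48, 1)], [(1, 1), (6, 1), (173, 1), (174, 1), (335, 1), (336, 2), (366, 2)]),
   (323, [(188, 1), (99, 1), (49, 2)], [(6, 1), (42, 1), (174, 1), (427, 2), (690, 2), (710, 1)]),
   (115, [(155, 1), (121, 1), (120, 2), (112, 2), (97, 2), (92, 1), (87, 1), (78, 1), (76, 2), (56, 1)], [(174, 1), (255, 1), (284, 1), (583, 2)]),
   (111, [(202, 2), (186, 2), (179, 1), (121, 1), (57, 2), (56, 2), (35, 1), (0, 2)], [(174, 2), (259, 1), (284, 1), (527, 2), (660, 1), (664, 2)]),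
   (185, [(80, 1), (79, 2), (72, 1), (71, 2)], [(2, 1), (4, 2), (6, 2), (94, 1), (186, 1), (446, 1), (490, 1), (510, 1), (664, 2), (692, 2)]),
   (294, [(205, 1), (177, 2), (167, 2), (166, 1), (164, 2), (50, 2), (35, 2), (27, 1)], [(102, 2), (233, 2), (498, 2), (500, 2), (529, 1), (538, 2), (660, 1), (664, 1)]),
   (316, [(128, 2), (81, 1), (50, 2), (15, 2), (9, 1)], [(33, 2), (89, 2), (125, 2), (284, 1), (527, 2), (664, 1)]),
   (285, [(195, 1), (189, 2), (169, 2), (168, 1), (143, 1), (119, 1), (104, 2), (103, 1), (99, 2), (71, 2), (10, 2)], [(33, 1), (86, 2), (152, 1), (329, 1), (365, 1), (408, 2), (491, 1), (537, 1), (557, 2), (690, 1)]),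
   (305, [(195, 2), (193, 1), (168, 1), (119, 1), (106, 1), (98, 2), (93, 2), (52, 2), (44, 1), (15, 1), (11, 1)], [(6, 1), (11, 2), (15, 1), (33, 2), (41, 1), (82, 2), (125, 2), (143, 1), (164, 1), (173, 2), (203, 1), (427, 1), (467, 1), (578, 1), (653, 2), (664, 2), (665, 1), (690, 2), (710, 1)]),
   (272, [(204, 2), (200, 2), (182, 1), (174, 2), (105, 1), (96, 2), (74, 2), (72, 2), (63, 2), (24, 2), (23, 2), (13, 1)], [(33, 2), (82, 1), (173, 1), (178, 1), (185, 1), (223, 2), (246, 2), (284, 1), (408, 1), (490, 1), (491, 1), (497, 1), (501, 1), (537, 2), (578, 1), (583, 1), (619, 2), (709, 2)]),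
   (209, [(188, 1), (183, 1), (97, 2), (96, 1), (75, 2), (14, 1)], [(33, 2), (408, 1)]),
   (258, [(190, 2), (177, 2), (174, 1), (173, 2), (172, 1), (147, 2), (126, 2), (82, 1), (75, 1), (50, 2), (34, 2), (33, 2), (14, 1), (0, 1)], [(408, 2)]),
   (17, [(65, 2), (0, 1)], [(411, 1), (660, 1)]),
   (191, [(201, 1), (200, 1), (196, 1), (146, 1), (113, 2), (112, 1), (111, 1), (98, 2), (55, 2), (41, 2), (1, 2)], [(170, 2), (575, 2), (660, 1)]),
   (325, [(204, 2), (189, 2), (181, 1), (163, 1), (118, 1), (112, 1), (75, 2), (62, 2), (59, 1), (44, 2), (36, 1), (3, 1)], [(86, 1), (102, 2), (125, 1), (174, 1), (664, 2)]),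
   (105, [(75, 2), (68, 1), (43, 1), (2, 1), (1, 1)], [(213, 1), (332, 2), (500, 1), (575, 1), (653, 2), (660, 1)]),
   (278, [(207, 2), (205, 1), (199, 1), (152, 1), (141, 1), (108, 1), (93, 1), (81, 2), (61, 1), (59, 2), (48, 2), (23, 1), (4, 1)], [(82, 2), (142, 1), (164, 1), (466, 1), (527, 1), (529, 2), (653, 2), (659, 1), (660, 1), (664, 2), (709, 2)]),
   (136, [(175, 1), (132, 1), (87, 2), (69, 1), (55, 2), (40, 2), (21, 2), (20, 1), (5, 1)], [(3, 2), (6, 2), (93, 1), (104, 1), (203, 1), (285, 1), (456, 1), (528, 2), (662, 2), (690, 2), (692, 1)]),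
   (190, [(184, 1), (183, 2), (179, 1), (178, 2), (148, 1), (126, 2), (108, 1), (103, 1), (93, 2), (32, 2), (25, 2), (11, 2), (7, 1), (5, 1)], [(82, 1), (125, 1), (164, 2), (174, 2), (275, 1), (284, 1), (491, 2), (527, 2), (537, 1), (660, 1)]),
   (139, [(215, 2), (208, 1), (185, 1), (149, 1), (101, 1), (94, 2), (72, 2)], [(336, 2), (660, 1), (690, 1)]),
   (184, [(216, 2), (183, 1), (150, 1), (102, 1), (95, 2), (73, 2), (0, 2)], [(174, 2), (185, 1), (365, 1), (491, 1), (537, 2), (653, 1)]),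
   (65, [(216, 2), (209, 2), (183, 1), (121, 2), (120, 1), (119, 2), (84, 2), (79, 2)], [(82, 1), (164, 2), (246, 1), (490, 1), (574, 2)]),
   (192, [(191, 1), (174, 1), (173, 2), (155, 2), (122, 2), (121, 1), (118, 2), (107, 1), (85, 1)], [(82, 2), (246, 2), (251, 2), (490, 1), (575, 2), (656, 2), (662, 1)])]

/-- certificate part -/
def st5 : List (ℕ × List (ℕ × ℕ) × List (ℕ × ℕ)) :=
  [(195, [(223, 2), (210, 1), (206, 1), (185, 1), (184, 2), (183, 2), (157, 2), (146, 1), (79, 2), (65, 2), (11, 2), (10, 2)], [(82, 1), (164, 2), (167, 1), (203, 2), (490, 2), (660, 1), (664, 1)]),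
   (71, [(215, 2), (206, 1), (183, 1), (102, 2), (69, 1), (59, 2), (4, 1)], [(178, 2), (203, 1), (660, 1), (664, 2), (709, 2)]),
   (332, [(221, 1), (200, 1), (193, 1), (185, 1), (182, 1), (175, 1), (139, 2), (136, 1), (129, 2), (69, 2), (32, 1), (28, 1), (14, 2), (13, 2)], [(82, 2), (143, 1), (164, 1), (529, 1), (653, 2), (664, 2)]),
   (169, [(148, 1)], [(184, 2), (203, 1), (427, 1), (446, 2)]),
   (154, [(185, 2), (97, 1), (0, 1)], [(94, 1), (184, 1), (427, 1), (692, 2)]),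
   (143, [(226, 2), (165, 2), (81, 1), (32, 2), (16, 2)], [(102, 1), (447, 2), (660, 1)]),
   (188, [(197, 2), (166, 2), (140, 2), (91, 1), (82, 1), (72, 1), (61, 2), (33, 1), (17, 2), (0, 2)], [(125, 2), (527, 1)]),
   (68, [(216, 2), (193, 2), (166, 1), (142, 1), (127, 2), (96, 2), (72, 2), (71, 2), (51, 1), (18, 2), (1, 2)], [(427, 1), (429, 2), (466, 2)]),
   (172, [(153, 1), (152, 2), (117, 2), (106, 2), (104, 1), (75, 1), (68, 1), (51, 2), (40, 1), (34, 2), (24, 1), (1, 2)], [(98, 2), (269, 1), (284, 2), (413, 2), (467, 1), (512, 2), (548, 1)]),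
   (317, [(133, 2), (119, 1), (80, 1), (19, 2)], [(174, 2), (224, 2), (447, 1), (575, 2), (660, 2)]),
   (268, [(213, 1), (206, 2), (202, 1), (160, 1), (153, 2), (152, 2), (134, 2), (119, 2), (107, 2), (98, 1), (85, 2), (73, 2), (48, 1), (37, 1), (30, 1), (22, 1), (21, 2)], [(173, 2), (284, 2), (447, 1), (575, 1), (578, 1), (583, 1), (593, 2), (628, 2), (690, 1), (710, 1)]),
   (110, [(233, 1), (199, 1), (193, 2), (152, 2), (88, 1), (31, 2)], [(174, 1), (178, 1), (498, 1), (501, 2), (583, 1)]),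
   (108, [(228, 1), (205, 1), (130, 1), (15, 2), (0, 1)], [(1, 2), (178, 1), (583, 2), (660, 2), (690, 2)]),
   (125, [(223, 1), (218, 1), (201, 2), (126, 2), (121, 2), (120, 1)], [(1, 1), (15, 1), (203, 1), (413, 1), (427, 2), (467, 2), (665, 1), (690, 1)]),
   (186, [(225, 2), (187, 1), (134, 1), (133, 2), (121, 2), (117, 1), (112, 1), (98, 2), (85, 2), (67, 2), (59, 1), (26, 1), (17, 1), (8, 1), (2, 2), (1, 2)], [(174, 1), (178, 1), (203, 2), (347, 1), (447, 2), (491, 2), (527, 1), (690, 2)]),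
   (283, [(239, 1), (201, 2), (200, 1), (199, 2), (180, 1), (167, 1), (162, 1), (149, 1), (115, 2), (105, 1), (14, 2), (9, 1)], [(7, 1), (82, 2), (106, 1), (164, 1), (187, 2), (203, 2), (375, 2), (395, 2), (447, 2), (490, 1), (491, 2), (557, 1), (664, 1)]),
   (233, [(237, 2), (235, 1), (226, 2), (196, 2), (189, 2), (134, 1), (130, 1), (129, 1), (124, 1), (43, 1), (27, 1), (10, 2), (2, 1)], [(1, 1), (174, 2), (203, 1), (413, 1), (447, 1), (660, 1), (665, 1), (690, 2)]),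
   (138, [(227, 2), (220, 2), (158, 1), (125, 2), (94, 2), (93, 1), (72, 1)], [(284, 2), (527, 2), (660, 2)]),
   (292, [(239, 2), (207, 1), (203, 1), (202, 1), (166, 1), (143, 1), (101, 1), (69, 2), (60, 1), (50, 2), (41, 2), (30, 2), (29, 1), (28, 1), (27, 2), (21, 2)], [(7, 2), (97, 1), (143, 1), (178, 2), (187, 2), (367, 1), (503, 2), (527, 1), (575, 2), (653, 1), (660, 1), (664, 1), (690, 2)]),
   (55, [(206, 1), (204, 2), (202, 1), (174, 1), (109, 1), (49, 2)], [(82, 2), (164, 2), (246, 2), (664, 2)]),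
   (70, [(235, 2), (231, 1), (212, 1), (210, 2), (142, 1), (136, 2), (106, 2), (85, 2), (31, 1), (30, 2), (21, 1), (0, 2)], [(660, 2), (664, 1)]),
   (266, [(233, 2), (224, 2), (216, 1), (213, 1), (180, 1), (171, 2), (163, 2), (120, 1), (119, 1), (118, 2), (84, 1), (65, 1), (48, 2), (32, 2), (15, 2), (0, 2)], [(427, 2), (429, 2), (659, 2)]),
   (347, [(244, 2), (231, 2), (217, 1), (213, 1), (173, 2), (163, 1), (159, 2), (137, 2), (129, 1), (120, 1), (118, 1), (111, 2), (98, 2), (87, 1), (86, 2), (78, 2), (74, 2), (46, 1), (34, 1), (33, 1), (32, 2), (23, 2), (14, 1), (2, 2), (1, 2), (0, 1)], [(8, 1), (62, 2), (203, 1), (447, 1), (490, 2), (494, 2), (512, 1), (548, 2), (593, 2), (659, 1), (660, 2)]),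
   (354, [(215, 2), (197, 2), (181, 2), (179, 1), (178, 2), (167, 2), (164, 2), (145, 1), (132, 2), (131, 2), (123, 2), (113, 1), (98, 2), (78, 2), (61, 1), (60, 1), (56, 1), (43, 1), (24, 1), (23, 2), (12, 1), (10, 1), (5, 1), (3, 2), (2, 1)], [(1, 2), (173, 2), (174, 1), (178, 1), (269, 1), (304, 1), (447, 1), (578, 1), (593, 2), (659, 1)]),
   (290, [(235, 2), (222, 1), (219, 2), (206, 2), (180, 2), (165, 2), (146, 1), (132, 1), (128, 2), (101, 1), (92, 2), (75, 1), (35, 1), (34, 2), (3, 2)], [(174, 2), (285, 1), (503, 2), (527, 2), (575, 1), (660, 2)]),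
   (193, [(246, 1), (230, 1), (216, 2), (215, 1), (210, 2), (209, 2), (182, 1), (171, 2), (142, 1), (108, 2), (76, 1), (55, 1), (35, 2), (34, 1), (4, 1)], [(246, 1), (332, 2), (575, 1), (656, 2), (662, 1)]),
   (310, [(246, 1), (224, 2), (220, 2), (215, 2), (209, 2), (208, 1), (204, 1), (197, 1), (183, 1), (180, 1), (151, 1), (147, 2), (143, 1), (84, 1), (50, 1), (38, 2), (37, 2), (35, 1), (24, 2), (16, 2), (6, 1)], [(82, 2), (92, 2), (174, 1), (178, 1), (203, 2), (246, 2), (335, 1), (346, 1), (447, 2), (498, 1), (503, 1), (575, 1), (656, 2), (660, 1), (674, 1)]),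
   (85, [(218, 1), (210, 2), (144, 1), (112, 1), (62, 2), (54, 1), (38, 1), (37, 1), (36, 1), (22, 1), (21, 2), (20, 2), (1, 1)], [(188, 2), (246, 1), (348, 2), (427, 1), (497, 1), (527, 2), (528, 1), (548, 1), (656, 2), (660, 1), (692, 2)]),
   (231, [(210, 2), (209, 1), (199, 2), (188, 2), (180, 2), (127, 2), (81, 2), (23, 1), (22, 1), (18, 2)], [(174, 1), (341, 1), (427, 1), (447, 1), (497, 1), (498, 2), (528, 1), (575, 1), (660, 2), (692, 2)]),
   (265, [(249, 1), (241, 1), (223, 2), (213, 2), (211, 1), (207, 2), (200, 2), (199, 1), (182, 1), (181, 1), (154, 1), (136, 2), (134, 1), (132, 2), (127, 1), (117, 1), (105, 2), (101, 2), (87, 1), (82, 1), (41, 1), (40, 1), (32, 1), (27, 1), (24, 2), (12, 2), (8, 1)], [(178, 1), (184, 1), (203, 2), (223, 2), (335, 2), (348, 2), (385, 1), (413, 2), (427, 2), (447, 2), (498, 2), (528, 1), (660, 2)]),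
   (221, [(249, 2), (247, 2), (232, 1), (221, 1), (209, 1), (190, 2), (173, 2), (167, 2), (163, 1), (154, 2), (148, 1), (140, 1), (127, 2), (126, 2), (90, 1), (89, 1)], [(413, 2), (427, 2), (447, 1), (467, 1), (578, 2)]),
   (86, [(246, 2), (231, 2), (174, 1), (155, 1), (141, 2), (91, 2), (90, 2), (88, 2), (52, 1), (43, 1), (42, 1), (0, 2)], [(6, 1), (11, 1), (174, 1), (690, 2), (710, 1)]),
   (311, [(254, 1), (247, 2), (241, 2), (234, 1), (227, 1), (211, 1), (182, 1), (146, 1), (129, 2), (128, 1), (97, 1), (95, 1), (42, 1), (1, 1)], [(447, 1), (659, 2), (690, 2)]),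
   (302, [(248, 1), (237, 2), (195, 2), (179, 2), (141, 2), (139, 2), (129, 2), (54, 1), (29, 1), (10, 2), (2, 2), (0, 2)], [(4, 2), (8, 2), (174, 1), (184, 2), (246, 1), (410, 2), (447, 1), (456, 1), (490, 2), (494, 1), (512, 2), (528, 1), (530, 1), (548, 1), (660, 1), (710, 1)]),
   (217, [(247, 2), (232, 2), (195, 1), (194, 2), (186, 1), (162, 1), (161, 1), (143, 2), (132, 2), (130, 1), (102, 1), (101, 1), (94, 2), (77, 1), (66, 1), (60, 2), (50, 1), (27, 1), (25, 2), (16, 2), (13, 1)], [(413, 2), (447, 2), (467, 1), (527, 1)]),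
   (181, [(225, 1), (220, 1), (216, 1), (207, 1), (128, 2), (96, 1), (40, 2), (15, 2), (14, 2)], [(3, 1), (6, 2), (82, 2), (93, 2), (186, 1), (246, 2), (410, 2), (456, 2), (660, 1), (662, 2), (690, 1), (710, 2)]),
   (255, [(228, 2), (212, 1), (186, 2), (178, 1), (158, 2), (155, 1), (152, 2), (146, 1), (137, 1), (125, 1), (111, 2), (52, 2), (48, 1), (47, 1), (40, 1), (35, 2), (29, 2), (15, 2)], [(5, 1), (174, 2), (246, 2), (264, 1), (490, 1), (491, 2), (527, 2), (537, 1), (653, 2), (656, 1), (660, 1), (674, 2), (690, 1)]),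
   (359, [(258, 1), (255, 2), (249, 2), (248, 2), (228, 2), (196, 2), (171, 2), (131, 2), (104, 2), (91, 2), (83, 2), (81, 1), (79, 1), (67, 1), (64, 2), (48, 1), (16, 1)], [(2, 2), (3, 1), (61, 1), (93, 2), (143, 2), (223, 1), (410, 1), (653, 1), (656, 2), (660, 2), (662, 1), (674, 2)]),
   (338, [(233, 1), (232, 1), (231, 1), (230, 1), (225, 1), (188, 1), (180, 2), (152, 2), (135, 2), (128, 1), (114, 2), (101, 1), (69, 1), (65, 1), (63, 2), (50, 1), (49, 1), (39, 1), (32, 1), (30, 2), (18, 2), (16, 1), (0, 2)], [(2, 2), (3, 1), (7, 1), (82, 2), (93, 2), (143, 1), (178, 1), (223, 2), (246, 2), (427, 1), (447, 2), (490, 1), (547, 2), (592, 2), (653, 2), (656, 2), (662, 1)]),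
   (173, [(150, 1), (148, 2), (138, 2), (136, 2), (134, 1), (102, 2), (88, 2), (49, 1), (29, 1)], [(174, 2), (427, 1), (447, 2)]),
   (295, [(232, 1), (216, 1), (182, 1), (181, 2), (162, 1), (144, 2), (136, 2), (135, 2), (117, 1), (111, 2), (76, 1), (36, 1), (22, 2), (15, 2), (0, 2)], [(184, 2), (267, 2), (503, 1), (527, 2), (575, 1), (660, 2), (692, 2)]),
   (314, [(262, 1), (253, 2), (249, 2), (229, 2), (200, 2), (162, 2), (161, 2), (156, 2), (129, 1), (100, 2), (85, 1), (52, 1), (33, 2), (20, 2), (19, 1), (10, 2), (9, 2), (8, 1), (1, 1)], [(1, 1), (6, 1), (173, 1), (174, 1), (413, 2), (447, 2), (660, 1), (710, 1)]),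
   (229, [(255, 1), (250, 1), (242, 2), (231, 1), (147, 1), (137, 1), (136, 1), (113, 1), (103, 1), (68, 2), (64, 1), (45, 1), (9, 2), (0, 2)], [(3, 2), (6, 1), (93, 1), (174, 1), (335, 1), (413, 1), (456, 2), (662, 1), (690, 2)]),
   (62, [(248, 1), (95, 1), (54, 1), (44, 1), (23, 1), (10, 1)], [(447, 1), (490, 1), (660, 2), (690, 1)]),
   (122, [(266, 1), (152, 2), (109, 2), (96, 2), (54, 1), (45, 2), (24, 2), (22, 2), (11, 1), (4, 2), (0, 1)], [(174, 1), (447, 1)])]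

/-- certificate part -/
def st6 : List (ℕ × List (ℕ × ℕ) × List (ℕ × ℕ)) :=
  [(141, [(227, 2), (218, 1), (148, 1), (143, 1), (133, 2), (116, 2), (98, 2), (90, 1), (57, 2), (56, 1), (48, 2), (39, 1), (33, 2), (32, 2), (0, 1)], [(174, 2), (178, 1), (660, 1)]),
   (197, [(257, 1), (251, 1), (236, 1), (228, 2), (153, 1), (140, 1), (92, 1), (73, 1), (72, 2), (58, 1), (42, 1), (41, 1), (6, 1), (1, 1)], [(3, 2), (4, 1), (82, 2), (93, 1), (203, 2), (410, 2), (656, 2), (662, 2), (690, 2), (692, 1)]),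
   (279, [(251, 1), (218, 1), (187, 1), (136, 1), (109, 1), (92, 2), (88, 2), (73, 1), (70, 2), (59, 1), (58, 2), (50, 2), (49, 2), (32, 2), (2, 2), (1, 1)], [(5, 1), (203, 2), (233, 1), (395, 1), (494, 1), (503, 2), (512, 1), (527, 2), (530, 1), (537, 1), (653, 2)]),
   (307, [(250, 2), (243, 2), (226, 2), (209, 2), (208, 1), (175, 1), (174, 1), (145, 1), (144, 1), (135, 1), (98, 1), (78, 1), (74, 1), (65, 1), (64, 1), (60, 1), (59, 1), (48, 2), (45, 2), (42, 1), (41, 2), (30, 1), (27, 1), (24, 2), (17, 2), (15, 2), (13, 1), (11, 2), (8, 2), (4, 2), (3, 1), (2, 1)], [(1, 1), (5, 2), (82, 2), (92, 1), (97, 1), (143, 1), (173, 1), (174, 1), (233, 2), (246, 1), (268, 1), (491, 1), (494, 1), (498, 2), (500, 2), (512, 2), (527, 2), (537, 2), (547, 2), (575, 1), (593, 1), (653, 2), (660, 1), (662, 2), (674, 1), (690, 2)]),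
   (220, [(238, 2), (212, 1), (210, 2), (209, 1), (197, 2), (143, 1), (134, 2), (107, 2), (94, 2), (84, 1), (76, 2), (73, 1), (61, 1), (60, 1), (59, 2), (52, 1), (47, 2), (46, 2), (44, 2), (43, 1), (42, 1), (39, 2), (29, 2), (23, 2), (21, 1), (20, 2), (9, 1), (6, 1)], [(6, 1), (82, 2), (92, 2), (143, 2), (203, 2), (246, 1), (413, 1), (456, 2), (497, 2), (498, 1), (503, 1), (528, 2), (530, 1), (653, 1), (674, 2), (692, 1)]),
   (298, [(240, 1), (211, 1), (210, 2), (195, 1), (194, 1), (171, 1), (159, 1), (148, 2), (146, 2), (134, 2), (121, 2), (117, 2), (103, 2), (99, 1), (95, 1), (82, 1), (76, 1), (66, 2), (62, 1), (60, 1), (58, 2), (41, 1), (29, 1), (28, 1), (17, 2), (15, 2), (10, 1), (5, 2)], [(174, 1), (527, 1), (575, 1), (593, 2), (690, 1)]),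
   (269, [(263, 2), (262, 1), (261, 1), (237, 2), (233, 1), (230, 2), (210, 2), (204, 2), (166, 2), (158, 1), (149, 1), (139, 2), (127, 1), (111, 1), (108, 1), (95, 1), (78, 2), (77, 2), (72, 2), (49, 1), (45, 2), (43, 2), (29, 1), (19, 1), (18, 1), (16, 2), (11, 1), (5, 1)], [(174, 1), (203, 2), (527, 2), (660, 2)]),
   (293, [(261, 1), (254, 2), (244, 2), (243, 2), (231, 2), (211, 1), (189, 1), (170, 1), (166, 2), (149, 1), (126, 2), (79, 2), (40, 2), (39, 1), (38, 2), (35, 2), (17, 1), (12, 2), (7, 1), (0, 1)], [(413, 1), (690, 2)]),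
   (179, [(263, 2), (219, 2), (174, 1), (166, 1), (161, 1), (144, 2), (112, 2), (85, 1), (49, 1), (48, 1), (39, 1), (32, 1), (22, 2), (21, 2), (11, 2), (1, 2)], [(184, 1), (527, 2), (660, 2), (692, 1)]),
   (224, [(275, 1), (273, 1), (262, 1), (220, 1), (181, 2), (172, 2), (168, 2), (145, 1), (122, 2), (113, 2), (86, 2), (81, 2), (65, 2), (50, 2), (49, 2), (48, 1), (37, 1), (33, 1), (23, 2), (22, 2), (14, 1), (12, 2), (9, 1), (0, 1)], [(174, 1), (527, 1)]),
   (223, [(272, 2), (256, 1), (231, 2), (228, 1), (215, 2), (197, 2), (196, 1), (188, 1), (173, 1), (166, 2), (164, 1), (148, 2), (51, 2), (37, 1), (15, 1), (10, 1), (3, 1), (1, 2), (0, 2)], [(527, 1), (660, 2)]),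
   (331, [(271, 1), (257, 1), (207, 1), (188, 1), (179, 2), (165, 1), (116, 2), (105, 1), (92, 2), (66, 1), (52, 2), (38, 2), (34, 1), (23, 2), (21, 1), (16, 2), (15, 2), (5, 2), (2, 1), (0, 2)], [(503, 2), (575, 2)]),
   (218, [(239, 1), (238, 2), (230, 2), (198, 1), (168, 2), (166, 1), (154, 2), (152, 1), (150, 2), (128, 1), (125, 1), (120, 2), (106, 1), (93, 2), (67, 1), (47, 1), (39, 2), (36, 1), (17, 1), (16, 1), (12, 2), (5, 1), (3, 2), (2, 2), (0, 1)], [(660, 2)]),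
   (194, [(258, 1), (255, 1), (250, 1), (217, 2), (181, 2), (176, 2), (172, 1), (132, 2), (123, 2), (118, 2), (115, 1), (110, 2), (85, 1), (79, 2), (70, 2), (69, 2), (68, 1), (59, 2), (46, 2), (45, 2), (44, 2), (41, 1), (38, 2), (36, 2), (26, 1), (25, 1), (23, 2), (14, 1), (13, 2), (12, 2), (5, 1), (3, 2), (2, 2), (0, 2)], [(498, 1), (690, 1)]),
   (228, [(260, 1), (200, 1), (192, 2), (183, 2), (177, 2), (170, 2), (169, 1), (168, 1), (167, 1), (152, 2), (136, 1), (114, 1), (79, 2), (46, 1), (42, 1), (34, 2), (14, 2), (13, 2), (7, 2), (6, 2), (4, 2), (2, 1), (1, 2)], [(575, 1), (690, 2)]),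
   (253, [(271, 2), (244, 2), (238, 1), (231, 1), (174, 2), (147, 2), (133, 2), (126, 1), (125, 2), (113, 1), (105, 2), (103, 2), (90, 1), (87, 2), (86, 2), (72, 1), (71, 1), (69, 2), (68, 1), (54, 1), (53, 2), (42, 2), (40, 1), (25, 1), (15, 2), (7, 1), (4, 1), (0, 2)], [(82, 1), (143, 2), (246, 2)]),
   (313, [(278, 1), (237, 2), (211, 1), (203, 2), (202, 1), (184, 1), (172, 2), (170, 1), (158, 2), (132, 1), (124, 2), (99, 1), (81, 1), (48, 1), (43, 2), (36, 1), (30, 1), (26, 2), (21, 1), (15, 2), (6, 2), (5, 2), (4, 2), (3, 2), (1, 1)], [(1, 2), (173, 2), (690, 1)]),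
   (273, [(261, 2), (220, 2), (212, 2), (196, 2), (182, 2), (172, 1), (162, 2), (148, 1), (139, 1), (138, 1), (137, 2), (99, 1), (90, 2), (81, 1), (59, 2), (44, 2), (42, 2), (41, 2), (38, 2), (37, 2), (29, 2), (21, 1), (18, 2), (16, 1), (11, 1), (10, 2), (8, 1), (7, 2), (5, 2), (4, 1), (2, 1), (1, 2), (0, 1)], [(269, 2), (653, 1), (690, 2)]),
   (264, [(275, 2), (266, 2), (255, 1), (213, 2), (205, 2), (173, 1), (171, 2), (140, 2), (139, 1), (138, 1), (83, 1), (82, 2), (61, 2), (52, 2), (50, 2), (39, 2), (26, 1), (22, 2), (19, 2), (17, 1), (11, 2), (9, 2), (8, 2), (7, 1), (6, 2), (5, 1), (3, 2), (1, 2), (0, 2)], [(5, 1), (491, 2), (537, 1), (653, 1)]),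
   (123, [(251, 2), (247, 2), (221, 2), (210, 1), (163, 1), (161, 1), (143, 2), (73, 2), (59, 2), (54, 1), (44, 2), (43, 1), (35, 1), (20, 1), (7, 2), (6, 1), (5, 1), (4, 1)], [(82, 2), (246, 1), (690, 1)]),
   (350, [(275, 2), (273, 1), (271, 2), (253, 1), (229, 1), (225, 2), (214, 2), (206, 1), (192, 2), (183, 1), (180, 2), (166, 2), (141, 2), (117, 2), (108, 2), (72, 2), (68, 2), (67, 1), (66, 2), (64, 1), (58, 1), (57, 2), (50, 2), (48, 1), (47, 2), (45, 1), (43, 2), (39, 1), (32, 2), (30, 1), (21, 2), (20, 1), (19, 1), (13, 1), (12, 1), (9, 1), (4, 1), (1, 2), (0, 2)], [(5, 1), (82, 1), (500, 2), (537, 1), (653, 1), (656, 2), (662, 1)]),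
   (328, [(279, 2), (229, 2), (214, 2), (200, 1), (193, 1), (160, 1), (134, 1), (111, 1), (108, 2), (98, 1), (92, 1), (89, 1), (78, 2), (77, 2), (65, 2), (50, 2), (47, 2), (45, 2), (21, 2), (20, 2), (18, 2), (14, 1), (11, 2), (6, 2), (5, 1), (2, 1), (1, 1)], [(7, 1), (97, 2), (106, 2), (233, 2), (329, 1), (494, 2), (512, 2), (530, 2), (557, 2)]),
   (319, [(275, 2), (267, 1), (250, 1), (184, 2), (134, 2), (116, 2), (93, 1), (91, 2), (89, 1), (77, 2), (76, 2), (70, 2), (57, 1), (45, 2), (34, 2), (27, 2), (25, 2), (24, 2), (22, 1), (16, 1), (12, 2), (9, 1), (7, 1), (6, 1), (2, 2)], [(3, 1), (6, 2), (82, 2), (93, 2), (246, 1), (456, 1), (662, 2)]),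
   (356, [(270, 1), (265, 2), (263, 1), (262, 1), (261, 1), (260, 2), (247, 1), (190, 1), (186, 1), (182, 2), (165, 2), (142, 1), (131, 1), (127, 2), (95, 1), (93, 1), (89, 1), (80, 2), (79, 1), (69, 2), (62, 2), (57, 1), (56, 1), (55, 2), (54, 1), (51, 2), (50, 2), (48, 1), (47, 1), (33, 1), (28, 2), (24, 2), (23, 1), (22, 1), (21, 2), (17, 2), (16, 1), (15, 2), (13, 2), (12, 1), (9, 1), (6, 2), (0, 1)], [(82, 1), (246, 2), (528, 1), (692, 2)]),
   (308, [(265, 2), (259, 2), (256, 2), (251, 1), (210, 1), (179, 1), (157, 1), (132, 2), (107, 1), (105, 1), (96, 2), (89, 1), (81, 1), (79, 1), (59, 1), (56, 1), (51, 1), (44, 1), (38, 2), (34, 1), (29, 2), (28, 2), (24, 2), (23, 1), (15, 1), (14, 1), (12, 1), (11, 1), (10, 1), (9, 1), (7, 2), (4, 2), (0, 1)], [(82, 2), (246, 1), (497, 2)]),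
   (121, [(278, 2), (275, 1), (270, 1), (260, 1), (224, 1), (216, 2), (191, 2), (187, 1), (175, 2), (165, 2), (141, 2), (131, 2), (92, 2), (73, 2), (50, 1), (49, 1), (41, 1), (37, 1), (30, 2), (28, 1), (27, 1), (25, 1), (12, 1), (11, 1), (10, 2), (5, 1), (1, 2), (0, 1)], [(3, 2), (82, 1), (93, 1), (656, 2)]),
   (284, [(263, 1), (230, 1), (217, 2), (213, 2), (185, 1), (168, 1), (161, 1), (102, 1), (98, 1), (92, 1), (82, 2), (72, 2), (63, 2), (51, 1), (50, 2), (49, 1), (33, 2), (32, 2), (31, 1), (29, 2), (26, 1), (25, 1), (18, 2), (16, 1), (15, 2), (13, 1), (9, 2), (6, 1), (3, 2)], [(4, 1), (82, 2), (528, 1), (656, 1), (662, 2)]),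
   (329, [(281, 2), (273, 2), (263, 1), (232, 2), (218, 2), (209, 2), (108, 2), (93, 1), (68, 2), (54, 1), (32, 2), (31, 1), (30, 2), (28, 2), (27, 2), (25, 2), (19, 2), (16, 2), (15, 1), (14, 2), (10, 2), (7, 1), (4, 2), (0, 2)], [(82, 2), (246, 1)]),
   (175, [(281, 1), (273, 2), (256, 1), (234, 1), (233, 2), (190, 2), (178, 1), (168, 1), (158, 1), (144, 1), (134, 1), (108, 2), (100, 1), (97, 1), (95, 1), (85, 2), (83, 1), (82, 2), (76, 1), (68, 1), (67, 2), (66, 2), (63, 2), (47, 1), (46, 1), (45, 2), (44, 2), (40, 2), (33, 1), (31, 2), (30, 2), (28, 1), (27, 2), (23, 1), (21, 1), (20, 2), (17, 1), (15, 1), (13, 2), (12, 2), (8, 1), (5, 1), (4, 2), (3, 1), (2, 2), (0, 1)], [(653, 1)]),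
   (277, [(296, 1), (264, 2), (224, 2), (215, 1), (207, 1), (196, 2), (192, 1), (187, 2), (184, 2), (182, 2), (173, 2), (171, 2), (163, 2), (160, 2), (151, 2), (139, 2), (137, 1), (112, 2), (111, 2), (84, 2), (81, 1), (75, 1), (73, 2), (63, 1), (53, 1), (48, 2), (32, 2), (30, 2), (27, 2), (23, 1), (22, 2), (21, 2), (19, 1), (16, 2), (14, 1), (12, 2), (9, 2), (6, 2), (5, 2), (2, 1), (1, 2), (0, 1)], [(500, 1)]),
   (344, [(278, 1), (273, 2), (265, 2), (262, 1), (228, 2), (197, 2), (196, 2), (191, 2), (173, 1), (170, 1), (156, 2), (152, 1), (146, 1), (143, 1), (113, 1), (106, 1), (93, 1), (71, 1), (70, 2), (67, 2), (63, 2), (62, 1), (55, 2), (53, 1), (39, 1), (37, 2), (36, 2), (34, 2), (33, 2), (29, 2), (23, 1), (22, 2), (21, 1), (20, 1), (19, 2), (18, 2), (16, 1), (15, 1), (13, 1), (10, 1), (6, 2), (5, 2), (4, 2), (3, 1), (2, 1)], [(2, 2), (223, 1), (662, 2), (674, 2)]),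
   (280, [(266, 2), (261, 2), (260, 2), (248, 1), (197, 1), (190, 1), (160, 2), (147, 2), (142, 1), (129, 2), (121, 1), (119, 1), (106, 2), (103, 1), (101, 1), (91, 1), (88, 1), (87, 1), (84, 1), (70, 1), (58, 1), (41, 2), (30, 1), (29, 1), (24, 2), (23, 2), (20, 2), (18, 2), (12, 1), (11, 2), (10, 1), (7, 1), (4, 2), (2, 1), (1, 1)], [(5, 2), (329, 1), (365, 1), (557, 2)]),
   (299, [(282, 2), (281, 2), (197, 1), (188, 2), (186, 1), (176, 1), (174, 1), (172, 2), (166, 2), (140, 1), (87, 2), (84, 1), (76, 2), (73, 1), (67, 2), (57, 1), (56, 2), (51, 2), (37, 2), (33, 2), (32, 2), (26, 2), (25, 1), (23, 2), (22, 2), (21, 2), (17, 1), (12, 2), (3, 1), (2, 2)], [(82, 2), (656, 1), (662, 2)]),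
   (330, [(287, 1), (283, 2), (259, 1), (238, 1), (230, 1), (198, 1), (146, 1), (123, 1), (95, 1), (89, 2), (72, 1), (33, 1), (23, 2), (22, 1), (20, 1), (19, 1), (13, 1), (12, 2), (5, 2), (4, 1), (1, 2), (0, 2)], [(233, 2)]),
   (326, [(288, 1), (284, 2), (283, 2), (277, 2), (252, 2), (239, 1), (211, 1), (199, 1), (168, 2), (147, 1), (86, 1), (78, 2), (61, 1), (59, 1), (53, 2), (38, 1), (35, 2), (34, 1), (28, 2), (27, 1), (25, 1), (24, 2), (23, 2), (22, 1), (21, 1), (19, 1), (14, 2), (5, 1), (4, 2), (1, 2)], [(530, 1)]),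
   (177, [(179, 2), (177, 2), (143, 2), (128, 2), (90, 1), (75, 1), (73, 2), (71, 1), (70, 2), (62, 2), (54, 1), (52, 1), (51, 2), (45, 2), (40, 1), (35, 1), (28, 2), (25, 1), (23, 1), (21, 2), (17, 1), (15, 2), (11, 2), (10, 1), (6, 2), (5, 1), (2, 1)], [(82, 1), (348, 2), (656, 2)]),
   (353, [(287, 2), (285, 2), (263, 1), (255, 2), (237, 2), (225, 1), (222, 1), (216, 1), (201, 2), (190, 1), (189, 1), (169, 1), (133, 1), (132, 1), (110, 2), (101, 1), (93, 1), (92, 2), (91, 2), (90, 1), (88, 1), (82, 1), (80, 1), (73, 1), (68, 1), (63, 1), (59, 2), (55, 2), (53, 2), (48, 1), (46, 2), (41, 2), (35, 1), (30, 1), (29, 2), (26, 1), (25, 1), (23, 2), (22, 1), (19, 2), (18, 1), (16, 1), (12, 1), (11, 2), (8, 2), (6, 1), (3, 2), (0, 1)], [(494, 2)]),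
   (281, [(304, 1), (293, 2), (287, 2), (286, 2), (241, 1), (217, 1), (204, 1), (202, 2), (201, 1), (197, 2), (171, 2), (93, 2), (89, 1), (82, 2), (56, 2), (38, 1), (37, 2), (31, 1), (26, 2), (24, 1), (19, 2), (17, 2), (9, 1), (8, 2), (7, 2), (4, 1), (3, 2), (0, 2)], [(512, 2)]),
   (303, [(288, 2), (203, 1), (185, 2), (182, 1), (180, 1), (146, 1), (115, 2), (93, 2), (79, 1), (78, 1), (74, 2), (73, 1), (65, 1), (63, 1), (57, 2), (55, 2), (54, 1), (48, 1), (43, 1), (38, 1), (36, 2), (31, 2), (29, 1), (28, 1), (26, 2), (25, 1), (24, 1), (20, 2), (18, 2), (17, 2), (13, 1), (12, 1), (11, 1), (9, 2), (8, 2), (6, 2), (5, 1), (2, 1), (0, 1)], [(557, 1)]),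
   (339, [(295, 2), (281, 2), (278, 1), (243, 1), (222, 1), (219, 2), (209, 2), (203, 1), (199, 2), (171, 2), (153, 2), (146, 1), (129, 1), (111, 2), (99, 2), (96, 1), (95, 2), (82, 1), (69, 1), (63, 1), (54, 2), (44, 2), (39, 2), (32, 1), (31, 2), (30, 1), (29, 1), (26, 2), (25, 1), (18, 1), (15, 1), (14, 2), (13, 2), (11, 2), (10, 2), (9, 1), (7, 1), (6, 1), (3, 1), (0, 1)], [(223, 2)]),
   (189, [(256, 1), (208, 1), (207, 1), (191, 1), (168, 2), (156, 1), (147, 1), (134, 2), (120, 2), (109, 2), (107, 2), (97, 1), (96, 1), (94, 1), (88, 1), (80, 1), (63, 2), (59, 1), (52, 1), (51, 1), (49, 1), (45, 1), (42, 1), (41, 1), (40, 2), (38, 1), (34, 1), (33, 2), (32, 2), (31, 1), (30, 2), (23, 2), (20, 2), (17, 1), (16, 1), (15, 1), (12, 2), (11, 1), (7, 2), (5, 2), (3, 1), (2, 2)], [(348, 2)]),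
   (351, [(302, 2), (290, 1), (279, 1), (257, 2), (192, 1), (169, 1), (148, 2), (142, 1), (134, 1), (131, 2), (115, 1), (112, 1), (110, 1), (98, 1), (97, 2), (96, 1), (95, 1), (86, 2), (64, 1), (63, 2), (60, 1), (55, 1), (54, 1), (53, 1), (46, 2), (44, 2), (38, 2), (35, 1), (33, 2), (31, 1), (29, 1), (28, 2), (27, 2), (26, 1), (25, 2), (24, 2), (23, 2), (21, 2), (20, 1), (13, 1), (12, 1), (11, 1), (9, 1), (8, 1), (6, 2), (4, 1), (3, 1), (2, 1)], [(329, 1)]),
   (342, [(280, 1), (224, 1), (209, 1), (205, 1), (203, 1), (182, 1), (178, 2), (158, 1), (157, 1), (144, 2), (110, 1), (109, 2), (108, 2), (105, 2), (99, 2), (98, 2), (90, 1), (82, 2), (75, 1), (74, 2), (73, 2), (70, 1), (66, 2), (60, 1), (56, 1), (55, 2), (52, 1), (51, 1), (49, 1), (48, 1), (47, 2), (44, 1), (41, 1), (37, 2), (34, 2), (33, 2), (32, 2), (31, 2), (30, 1), (29, 2), (28, 2), (27, 2), (26, 1), (25, 1), (22, 2), (19, 1), (18, 1), (17, 2), (15, 1), (14,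 1), (13, 1), (11, 1), (9, 2), (7, 1), (2, 1), (1, 1)], [(7, 1), (547, 2)]),
   (312, [(282, 2), (275, 2), (270, 1), (226, 1), (160, 1), (151, 2), (150, 1), (133, 1), (120, 1), (115, 2), (114, 1), (100, 1), (99, 2), (98, 1), (97, 2), (79, 1), (70, 2), (69, 1), (62, 1), (60, 1), (53, 2), (48, 2), (44, 1), (43, 2), (32, 2), (31, 2), (28, 1), (27, 1), (25, 1), (23, 2), (21, 2), (19, 2), (17, 2), (15, 2), (14, 1), (10, 1), (9, 1), (8, 2), (6, 1), (4, 2), (3, 1), (2, 2), (1, 1), (0, 2)], [(106, 1)]),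
   (337, [(313, 2), (275, 1), (273, 2), (271, 1), (267, 1), (260, 1), (254, 2), (243, 1), (241, 1), (237, 2), (236, 1), (214, 2), (210, 2), (189, 1), (179, 1), (87, 1), (86, 2), (83, 1), (69, 2), (68, 2), (46, 1), (44, 1), (43, 1), (41, 1), (36, 2), (34, 2), (33, 2), (32, 2), (31, 2), (30, 2), (29, 2), (28, 2), (25, 2), (21, 1), (15, 1), (10, 1), (9, 2), (7, 1), (6, 1), (5, 2), (2, 2), (0, 2)], [(7, 1), (187, 2)])]

/-- the certificate -/
def stAll : List (ℕ × List (ℕ × ℕ) × List (ℕ × ℕ)) :=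
  st0 ++ st1 ++ st2 ++ st3 ++ st4 ++ st5 ++ st6

end Pool.Agent.H247R3
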