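import Pool.Agent.H247R3.Eng7

set_option autoImplicit false

namespace Pool.Agent.H247R3

set_option linter.all false

/-- the words -/
def wlL : List (List (Fin 9 × Fin 9)) :=
  [[(0, 2), (0, 4), (6, 7)],
   [(3, 1), (1, 6), (5, 2)],
   [(7, 3), (5, 8), (7, 6)],
   [(3, 7), (3, 8), (7, 8)],
   [(8, 1), (2, 6), (8, 4)],
   [(0, 5), (5, 6), (7, 8)],
   [(2, 1), (4, 6), (5, 8)],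
   [(7, 2), (7, 3), (5, 7)],
   [(0, 8), (1, 5), (2, 8)]]

/-- the tensors -/
def TLL : List (List (Fin 9 × Fin 9 × Fin 9 × ℕ)) :=
  [[(0, 1, 3, 2), (0, 1, 4, 1)],
   [(0, 1, 3, 1), (0, 1, 6, 1)],
   [(0, 1, 7, 1)],
   [(0, 2, 7, 1)],
   [(0, 2, 3, 1), (0, 3, 4, 1)],
   [(0, 3, 6, 1)],
   [(0, 1, 2, 2), (0, 1, 3, 1), (0, 4, 6, 1)],
   [(0, 2, 3, 2), (0, 3, 7, 1), (0, 4, 6, 1), (0, 4, 7, 1), (0, 5, 8, 1)],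
   [(0, 2, 4, 1), (0, 2, 6, 2), (0, 5, 8, 1)],
   [(0, 6, 8, 2), (1, 4, 5, 1), (2, 6, 8, 1)],
   [(1, 4, 7, 1)],
   [(0, 6, 8, 1), (1, 5, 6, 1)],
   [(0, 1, 3, 1), (1, 3, 7, 2), (1, 6, 7, 1), (2, 3, 5, 1)],
   [(0, 1, 8, 1), (0, 2, 6, 1), (0, 4, 6, 1), (1, 2, 4, 1), (1, 6, 8, 1)],
   [(2, 3, 4, 1)],
   [(1, 3, 4, 2), (1, 3, 6, 1), (1, 4, 6, 1), (2, 3, 5, 1)],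
   [(2, 3, 6, 1), (3, 4, 8, 1)],
   [(1, 3, 4, 1), (2, 4, 5, 1)],
   [(2, 4, 7, 1), (4, 5, 7, 2)],
   [(0, 6, 8, 1), (1, 2, 4, 2), (1, 2, 8, 1), (1, 6, 8, 2), (2, 4, 8, 1), (2, 6, 8, 1)],
   [(0, 1, 3, 2), (0, 2, 5, 1), (0, 4, 5, 2), (1, 3, 4, 2), (1, 4, 6, 1), (2, 5, 6, 1)],
   [(0, 1, 5, 2), (0, 2, 3, 1), (0, 2, 6, 1), (0, 3, 8, 2), (0, 4, 6, 1), (0, 4, 8, 1), (1, 3, 5, 1), (1, 4, 5, 2)],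
   [(3, 4, 5, 1)],
   [(3, 4, 6, 1), (3, 6, 8, 1)],
   [(1, 2, 8, 1), (1, 3, 8, 1), (2, 3, 5, 2), (2, 4, 8, 2), (2, 6, 8, 2), (3, 4, 7, 1), (4, 5, 7, 2)],
   [(1, 2, 4, 2), (1, 3, 8, 2), (1, 6, 8, 2), (2, 3, 5, 1), (3, 4, 8, 1)],
   [(0, 3, 5, 1), (3, 5, 6, 1)],
   [(0, 1, 2, 2), (0, 1, 3, 2), (0, 2, 3, 2), (0, 2, 5, 2), (0, 3, 5, 2), (0, 5, 8, 2), (0, 7, 8, 1), (1, 2, 7, 1), (2, 3, 7, 2), (2, 5, 7, 2), (2, 6, 7, 1), (2, 7, 8, 1), (3, 5, 7, 1), (4, 5, 7, 2)],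
   [(0, 2, 3, 2), (0, 3, 5, 2), (0, 3, 8, 1), (2, 3, 8, 2), (3, 5, 8, 1), (3, 6, 8, 1)],
   [(0, 3, 8, 2), (1, 2, 3, 1), (1, 2, 7, 1), (1, 3, 6, 1), (1, 3, 7, 1), (1, 4, 6, 1), (1, 4, 8, 2), (2, 3, 8, 1), (2, 4, 6, 2), (3, 6, 7, 1), (3, 6, 8, 1)],
   [(0, 2, 5, 2), (0, 4, 7, 1), (0, 5, 7, 2), (1, 2, 3, 2), (1, 2, 7, 2), (1, 6, 7, 2), (3, 6, 8, 1), (5, 6, 7, 1)],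
   [(0, 1, 3, 1), (0, 2, 3, 2), (0, 2, 5, 2), (0, 3, 8, 2), (0, 4, 5, 1), (0, 5, 6, 1), (0, 7, 8, 2), (2, 3, 8, 1), (2, 7, 8, 2), (4, 5, 6, 1)],
   [(0, 2, 3, 2), (0, 3, 8, 1), (1, 3, 5, 2), (1, 7, 8, 2), (2, 3, 5, 1), (4, 5, 7, 1)],
   [(0, 4, 5, 2), (0, 5, 6, 1), (0, 6, 8, 1), (1, 2, 4, 2), (1, 2, 8, 2), (1, 6, 8, 1), (4, 5, 6, 1), (4, 5, 8, 1)],
   [(0, 1, 8, 1), (0, 6, 8, 2), (1, 2, 3, 1), (1, 2, 7, 1), (1, 2, 8, 1), (1, 3, 7, 1), (2, 3, 5, 2), (3, 6, 8, 2), (4, 6, 7, 1)],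
   [(0, 6, 8, 1), (1, 2, 4, 1), (4, 6, 8, 1)],
   [(0, 4, 5, 2), (0, 5, 6, 1), (3, 4, 8, 2), (4, 5, 6, 1), (4, 5, 7, 2), (4, 7, 8, 1)],
   [(0, 1, 3, 2), (0, 2, 5, 2), (0, 3, 8, 2), (0, 7, 8, 1), (1, 2, 3, 1), (1, 5, 7, 2), (1, 6, 7, 1), (2, 3, 8, 1), (2, 7, 8, 2), (3, 6, 8, 2)],
   [(0, 1, 2, 1), (0, 1, 8, 2), (0, 2, 4, 1), (0, 2, 6, 1), (1, 2, 6, 2), (1, 2, 7, 1), (1, 3, 4, 2), (1, 6, 7, 1), (2, 5, 8, 1), (2, 6, 7, 1), (4, 5, 7, 2), (5, 6, 8, 1)],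
   [(0, 1, 5, 1), (0, 2, 8, 2), (0, 3, 8, 1), (0, 4, 5, 1), (0, 7, 8, 2), (1, 2, 3, 1), (1, 3, 5, 2), (1, 3, 7, 1), (1, 5, 7, 2), (2, 3, 5, 2), (4, 5, 6, 1), (6, 7, 8, 1)]]

/-- the matrices -/
def KLL : List (List (Fin 9 × Fin 9 × ℕ)) :=
  [[(0, 1, 2)],
   [],
   [],
   [(0, 7, 1)],
   [],
   [],
   [(0, 1, 1), (0, 6, 1)],
   [(0, 3, 2), (0, 6, 1), (0, 7, 1), (5, 8, 1)],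
   [(0, 2, 2), (0, 4, 1), (0, 6, 2), (5, 8, 1)],
   [(4, 8, 1)],
   [],
   [(1, 5, 2)],
   [(0, 1, 1), (1, 3, 1), (1, 7, 2)],
   [(0, 6, 2), (1, 8, 1), (4, 6, 1)],
   [],
   [(1, 6, 2)],
   [(3, 4, 2)],
   [],
   [],
   [(1, 8, 2), (4, 6, 2), (4, 8, 1), (6, 8, 2)],
   [(1, 6, 2), (4, 5, 2)],
   [(0, 3, 1), (0, 6, 2), (0, 8, 1), (1, 5, 2)],
   [],
   [(3, 6, 2)],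
   [(1, 3, 2), (1, 8, 2), (2, 4, 1), (3, 4, 2), (4, 8, 2), (6, 8, 2)],
   [(1, 3, 1), (3, 4, 2), (4, 6, 2)],
   [],
   [(0, 1, 1), (0, 2, 1), (0, 3, 2), (0, 5, 2), (1, 7, 1), (2, 5, 1), (3, 5, 2), (4, 7, 1), (5, 8, 2), (6, 7, 2), (7, 8, 2)],
   [(0, 3, 2), (2, 3, 1), (3, 5, 2), (3, 6, 2)],
   [(0, 3, 1), (1, 2, 1), (1, 3, 2), (1, 4, 2), (1, 6, 2), (1, 7, 2), (2, 3, 2), (2, 6, 1), (3, 6, 1), (6, 7, 2)],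
   [(0, 1, 2), (0, 7, 1), (1, 2, 2), (1, 7, 2), (2, 5, 2), (3, 6, 2), (6, 7, 1)],
   [(0, 3, 2), (5, 6, 1), (7, 8, 1)],
   [(0, 3, 2), (1, 3, 1), (1, 5, 1), (4, 7, 2)],
   [(0, 5, 2), (1, 8, 1), (2, 4, 1), (4, 5, 1), (4, 6, 1), (5, 6, 1), (6, 8, 1)],
   [(0, 4, 1), (1, 2, 1), (1, 3, 2), (1, 7, 2), (2, 4, 2), (3, 6, 1), (6, 8, 2)],
   [(4, 6, 1), (6, 8, 1)],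
   [(0, 5, 2), (3, 4, 2), (4, 7, 1), (5, 6, 1)],
   [(0, 1, 1), (0, 5, 2), (1, 2, 1), (1, 7, 1), (3, 6, 1), (7, 8, 1)],
   [(0, 4, 1), (0, 6, 1), (1, 2, 1), (1, 4, 1), (1, 7, 1), (1, 8, 2), (2, 6, 2), (4, 7, 1), (5, 8, 1), (6, 7, 2)],
   [(0, 5, 1), (1, 2, 1), (1, 3, 2), (1, 5, 1), (1, 7, 2), (2, 8, 2), (3, 6, 1), (5, 6, 1)]]

/-- vector -/
def vV : Fin 9 → ℤ := ![1, 0, 1, 0, 0, 2, 2, 1, 0]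

/-- vector -/
def uV : Fin 9 → ℤ := ![2, 2, 0, 0, 0, 0, 0, 2, 2]

/-- matrix -/
def MM : Fin 9 → Fin 9 → ℤ := ![![2, 0, 1, 0, 0, 0, 2, 0, 0], ![0, 0, 1, 0, 0, 0, 0, 0, 0], ![1, 1, 0, 1, 1, 2, 2, 0, 0], ![0, 0, 1, 2, 0, 2, 2, 0, 0], ![0, 0, 1, 0, 2, 0, 0, 0, 0], ![0, 0, 2, 2, 0, 1, 0, 0, 1], ![2, 0, 2, 2, 0, 0, 2, 2, 0], ![0, 0, 0, 0, 0, 0, 2, 1, 1], ![0, 0, 0, 0, 0, 1, 0, 1, 2]]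

/-- matrix -/
def NN : Fin 9 → Fin 9 → ℤ := ![![1, 1, 0, 2, 0, 0, 1, 2, 2], ![1, 1, 1, 2, 1, 2, 0, 2, 1], ![0, 1, 0, 0, 0, 0, 0, 0, 0], ![2, 2, 0, 2, 0, 2, 1, 1, 0], ![0, 1, 0, 0, 2, 0, 0, 0, 0], ![0, 2, 0, 2, 0, 1, 0, 1, 2], ![1, 0, 0, 1, 0, 0, 2, 1, 1], ![2, 2, 0, 1, 0, 1, 1, 2, 0], ![2, 1, 0, 0, 0, 2, 1, 0, 1]]

/-- matrix -/
def RR : Fin 9 → Fin 9 → ℤ := ![![0, 0, 0, 0, 0, 0, 0, 0, 2], ![0, 0, 0, 0, 1, 0, 0, 0, 0], ![1, 0, 0, 0, 0, 0, 2, 1, 2], ![0, 2, 1, 1, 0, 0, 0, 1, 0], ![1, 0, 0, 0, 1, 0, 0, 0, 0], ![0, 0, 2, 0, 0, 1, 2, 2, 1], ![2, 1, 1, 0, 0, 0, 0, 0, 0], ![0, 0, 0, 2, 0, 2, 0, 0, 0], ![0, 0, 0, 1, 2, 1, 0, 0, 1]]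

/-- matrix -/
def KK : Fin 9 → Fin 9 → ℤ := ![![1, 0, 1, 2, 1, 1, 1, 1, 1], ![0, 0, 1, 1, 2, 1, 2, 0, 1], ![1, 0, 2, 0, 2, 1, 1, 2, 0], ![0, 2, 0, 1, 1, 2, 1, 1, 0], ![0, 1, 1, 2, 1, 2, 0, 1, 2], ![2, 1, 2, 1, 0, 0, 2, 1, 2], ![2, 0, 0, 2, 2, 0, 1, 2, 1], ![1, 1, 0, 1, 1, 2, 1, 0, 1], ![0, 2, 1, 2, 2, 2, 2, 2, 0]]

/-- matrix -/
def KI : Fin 9 → Fin 9 → ℤ := ![![2, 2, 0, 0, 0, 0, 0, 2, 2], ![2, 2, 2, 1, 0, 1, 0, 0, 2], ![2, 0, 0, 0, 1, 0, 2, 0, 1], ![1, 2, 1, 2, 0, 1, 1, 0, 2], ![2, 1, 2, 1, 2, 0, 0, 2, 0], ![2, 1, 1, 0, 2, 2, 1, 0, 1], ![2, 2, 1, 0, 2, 0, 2, 2, 1], ![2, 1, 2, 2, 1, 2, 1, 2, 0], ![2, 1, 1, 2, 1, 0, 1, 1, 0]]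

end Pool.Agent.H247R3
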